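import Mathlib

set_option autoImplicit false

/-!
# The free nilpotent group of class `k` on `d` generators
-/

namespace Pool.PinskerA

/-- the free nilpotent group of class `k` on `d` generators -/
abbrev FN (k d : ℕ) : Type :=
  FreeGroup (Fin d) ⧸ (⊤ : Subgroup (FreeGroup (Fin d))).lowerCentralSeries k

/-- the generators -/
def fgen (k d : ℕ) (i : Fin d) : FN k d := QuotientGroup.mk (FreeGroup.of i)

instance (k d : ℕ) : Countable (FN k d) := by
  have : Countable (FreeGroup (Fin d)) := by
    unfold FreeGroup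
    infer_instance
  exact (QuotientGroup.mk_surjective (s :=
    (⊤ : Subgroup (FreeGroup (Fin d))).lowerCentralSeries k)).countable

theorem fn_lcs (k d : ℕ) : (⊤ : Subgroup (FN k d)).lowerCentralSeries k = ⊥ := by
  have h := Subgroup.map_lowerCentralSeries (⊤ : Subgroup (FreeGroup (Fin d)))
    (QuotientGroup.mk' ((⊤ : Subgroup (FreeGroup (Fin d))).lowerCentralSeries k)) k
  rw [Subgroup.map_top_of_surjective _ (QuotientGroup.mk'_surjective _)] at h
  rw [← h]
  rw [Subgroup.map_eq_bot_iff, QuotientGroup.ker_mk']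

instance (k d : ℕ) : Group.IsNilpotent (FN k d) := by
  rw [Subgroup.nilpotent_iff_lowerCentralSeries]
  exact ⟨k, fn_lcs k d⟩

instance (k d : ℕ) : Group.FG (FN k d) := inferInstance

theorem closure_fgen (k d : ℕ) : Subgroup.closure (Set.range (fgen k d)) = ⊤ := by
  have h1 : Set.range (fgen k d) =
      (QuotientGroup.mk' ((⊤ : Subgroup (FreeGroup (Fin d))).lowerCentralSeries k)) ''
        (Set.range FreeGroup.of) := by
    rw [← Set.range_comp]
    rfl
  rw [h1, ← MonoidHom.map_closure, FreeGroup.closure_range_of,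
    Subgroup.map_top_of_surjective _ (QuotientGroup.mk'_surjective _)]

/-- the universal property -/
theorem exists_fnLift {M : Type*} [Group M] {d : ℕ} (k : ℕ) (T : Fin d → M)
    (h : (Subgroup.closure (Set.range T)).lowerCentralSeries k = ⊥) :
    ∃ Θ : FN k d →* M, ∀ w : FreeGroup (Fin d), Θ (QuotientGroup.mk w) = FreeGroup.lift T w := by
  have hK : ∀ w ∈ (⊤ : Subgroup (FreeGroup (Fin d))).lowerCentralSeries k,
      FreeGroup.lift T w = 1 := by
    intro w hw
    have h1 : FreeGroup.lift T w ∈
        ((⊤ : Subgroup (FreeGroup (Fin d))).lowerCentralSeries k).map (FreeGroup.lift T) :=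
      Subgroup.mem_map_of_mem _ hw
    rw [Subgroup.map_lowerCentralSeries] at h1
    have h2 : (⊤ : Subgroup (FreeGroup (Fin d))).map (FreeGroup.lift T) =
        Subgroup.closure (Set.range T) := by
      rw [← MonoidHom.range_eq_map, FreeGroup.range_lift_eq_closure]
    rw [h2, h] at h1
    exact Subgroup.mem_bot.1 h1
  exact ⟨QuotientGroup.lift _ (FreeGroup.lift T) hK, fun w => rfl⟩

/-- a height on the free nilpotent group -/
theorem exists_height_fn {k d : ℕ} (hk : 1 ≤ k) (w : Fin d → ℝ) :
    ∃ Θ : FN k d →* Multiplicative ℝ, ∀ i, Θ (fgen k d i) = Multiplicative.ofAdd (w i) := by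
  have h : (Subgroup.closure (Set.range fun i => Multiplicative.ofAdd (w i))).lowerCentralSeries k
      = ⊥ := by
    have h1 : (Subgroup.closure (Set.range fun i =>
        Multiplicative.ofAdd (w i))).lowerCentralSeries 1 = ⊥ := by
      rw [Subgroup.lowerCentralSeries_succ, Subgroup.lowerCentralSeries_zero,
        Subgroup.commutator_eq_bot_iff_le_centralizer]
      intro x _
      rw [Subgroup.mem_centralizer_iff]
      intro y _
      exact mul_comm _ _
    rw [eq_bot_iff, ← h1]
    exact Subgroup.lowerCentralSeries_antitone _ hk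
  obtain ⟨Θ, hΘ⟩ := exists_fnLift k (fun i => Multiplicative.ofAdd (w i)) h
  exact ⟨Θ, fun i => by rw [fgen, hΘ, FreeGroup.lift_apply_of]⟩

theorem fgen_pow_ne {k d : ℕ} (hk : 1 ≤ k) (i : Fin d) (a b : ℕ) (h : fgen k d i ^ a = fgen k d i ^ b) :
    a = b := by
  obtain ⟨Θ, hΘ⟩ := exists_height_fn (k := k) (d := d) hk (fun _ => 1)
  have h1 := congrArg Θ h
  rw [map_pow, map_pow, hΘ, ← ofAdd_nsmul, ← ofAdd_nsmul] at h1
  have h2 := Multiplicative.ofAdd.injective h1
  simpa using h2

theorem infinite_fn {k d : ℕ} (hk : 1 ≤ k) (hd : 0 < d) : Infinite (FN k d) :=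
  Infinite.of_injective (fun a : ℕ => fgen k d ⟨0, hd⟩ ^ a) fun a b h => fgen_pow_ne hk _ a b h

end Pool.PinskerA
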