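import Pool.Agent.Pinsker.Free

set_option autoImplicit false
set_option warn.classDefReducibility false

/-!
# The odometer of a residually finite group
-/

open MeasureTheory Filter Topology
open scoped ENNReal

namespace Pool.PinskerA

open Pool.Pinsker

variable {H ι : Type} [Group H]

/-- the finite quotients -/
def Qn (N : ι → Subgroup H) (i : ι) : Type := H ⧸ N i

section inst

variable (N : ι → Subgroup H) [hn : ∀ i, (N i).Normal] [hf : ∀ i, (N i).FiniteIndex]

instance (i : ι) : Group (Qn N i) := inferInstanceAs (Group (H ⧸ N i))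
instance (i : ι) : Finite (Qn N i) := inferInstanceAs (Finite (H ⧸ N i))
noncomputable instance (i : ι) : Fintype (Qn N i) := Fintype.ofFinite _
instance (i : ι) : TopologicalSpace (Qn N i) := ⊥
instance (i : ι) : DiscreteTopology (Qn N i) := ⟨rfl⟩
instance (i : ι) : MeasurableSpace (Qn N i) := ⊤
instance (i : ι) : MeasurableSingletonClass (Qn N i) := ⟨fun _ => trivial⟩
instance (i : ι) : IsTopologicalGroup (Qn N i) where
  continuous_mul := continuous_of_discreteTopology
  continuous_inv := continuous_of_discreteTopology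
instance (i : ι) : BorelSpace (Qn N i) := ⟨by
  rw [borel_eq_top_of_discrete]; rfl⟩
instance (i : ι) : SecondCountableTopology (Qn N i) := inferInstance

end inst

/-- the odometer -/
abbrev OdoG (N : ι → Subgroup H) : Type := (i : ι) → Qn N i

variable (N : ι → Subgroup H) [hn : ∀ i, (N i).Normal] [hf : ∀ i, (N i).FiniteIndex] [Countable ι]

/-- the invariant probability of the odometer -/
noncomputable def odoGMeas : Measure (OdoG N) :=
  Measure.haarMeasure (⊤ : TopologicalSpace.PositiveCompacts (OdoG N))

instance : IsProbabilityMeasure (odoGMeas N) := ⟨by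
  have := Measure.haarMeasure_self (K₀ := (⊤ : TopologicalSpace.PositiveCompacts (OdoG N)))
  simpa [odoGMeas] using this⟩

omit [Countable ι] hf in
/-- the point of the odometer -/
def odoGPt : H →* OdoG N where
  toFun t := fun i => (QuotientGroup.mk t : H ⧸ N i)
  map_one' := rfl
  map_mul' _ _ := rfl

omit [Countable ι] hf in
/-- the action on the odometer -/
def odoGAct : H →* Equiv.Perm (OdoG N) where
  toFun t := Equiv.mulLeft (odoGPt N t)
  map_one' := by
    ext y : 1
    show odoGPt N 1 * y = y
    rw [map_one, one_mul]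
  map_mul' s t := by
    ext y : 1
    show odoGPt N (s * t) * y = odoGPt N s * (odoGPt N t * y)
    rw [map_mul, mul_assoc]

instance : (odoGMeas N).IsMulLeftInvariant := by
  unfold odoGMeas
  infer_instance

theorem odoGAct_mp (t : H) :
    MeasurePreserving (⇑(odoGAct N t)) (odoGMeas N) (odoGMeas N) := by
  exact measurePreserving_mul_left (odoGMeas N) (odoGPt N t)

omit [Countable ι] hf in
theorem odoGAct_apply (t : H) (y : OdoG N) (i : ι) :
    (odoGAct N t y) i = odoGPt N t i * y i := rfl

omit [Countable ι] hf in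
theorem odoGAct_ne (t : H) (i : ι) (ht : t ∉ N i) (y : OdoG N) : (odoGAct N t y) i ≠ y i := by
  intro h
  rw [odoGAct_apply] at h
  have h1 : odoGPt N t i = 1 := mul_eq_right.1 h
  have h2 : (QuotientGroup.mk t : H ⧸ N i) = 1 := h1
  exact ht ((QuotientGroup.eq_one_iff t).1 h2)

/-- sets that depend only on a finite equivariant quotient have zero entropy -/
theorem zeroG_of_factor {X : Type} {m0 : MeasurableSpace X} {μ : Measure X}
    [IsProbabilityMeasure μ] (G : Subgroup (Equiv.Perm X)) [Infinite G]
    {Q : Type*} [Fintype Q] (q : X → Q) (C : Set Q)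
    (hq : ∀ g : G, ∀ x y, q x = q y → q ((g : Equiv.Perm X) x) = q ((g : Equiv.Perm X) y))
    (hm : FM m0 q) : ZeroEntropyG μ G (q ⁻¹' C) := by
  classical
  intro ε hε
  obtain ⟨n, hn⟩ := exists_nat_gt ((Fintype.card Q : ℝ) / ε)
  obtain ⟨F, hF⟩ := Infinite.exists_subset_card_eq G (n + 1)
  refine ⟨F, by omega, ?_⟩
  have hbound : ∑ S ∈ F.powerset, Real.negMulLog
      (μ.real {x | ∀ g ∈ F, ((g : Equiv.Perm X) x ∈ q ⁻¹' C ↔ g ∈ S)}) ≤ (Fintype.card Q : ℝ) := by
    have h0 := ent_name_set (μ := μ) (G := G) (q ⁻¹' C) F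
    have h0' : ent μ (name (fun x => x ∈ q ⁻¹' C) F) = ∑ S ∈ F.powerset, Real.negMulLog
      (μ.real {x | ∀ g ∈ F, ((g : Equiv.Perm X) x ∈ q ⁻¹' C ↔ g ∈ S)}) := h0
    rw [← h0']
    rcases isEmpty_or_nonempty X with hX | hX
    · have h1 : ∀ i, μ.real (name (G := G) (fun x : X => x ∈ q ⁻¹' C) F ⁻¹' {i}) = 0 := by
        intro i
        rw [Set.eq_empty_of_isEmpty (name (G := G) (fun x : X => x ∈ q ⁻¹' C) F ⁻¹' {i})]
        simp
      unfold ent
      simp only [h1, Real.negMulLog_zero, Finset.sum_const_zero]
      positivity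
    · obtain ⟨x0⟩ := hX
      set Φ : Q → ({g // g ∈ F} → Prop) := fun a =>
        if h : ∃ x, q x = a then name (fun x : X => x ∈ q ⁻¹' C) F h.choose
        else fun _ => True with hΦ
      have hname : ∀ x, name (G := G) (fun x : X => x ∈ q ⁻¹' C) F x = Φ (q x) := by
        intro x
        have hex : ∃ y, q y = q x := ⟨x, rfl⟩
        rw [hΦ]
        simp only
        rw [dif_pos hex]
        funext g
        have h2 := hq (g : G) _ _ hex.choose_spec
        show (q _ ∈ C) = (q _ ∈ C)
        exact congrArg (· ∈ C) h2.symm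
      have hnm : FM m0 (name (G := G) (fun x : X => x ∈ q ⁻¹' C) F) := by
        intro s
        have : name (G := G) (fun x : X => x ∈ q ⁻¹' C) F ⁻¹' s = q ⁻¹' (Φ ⁻¹' s) := by
          ext x
          rw [Set.mem_preimage, hname]
          rfl
        rw [this]
        exact hm _
      have h3 : ent μ (fun x => (q x, name (G := G) (fun x : X => x ∈ q ⁻¹' C) F x)) =
          ent μ q := by
        have h4 := ent_comp_inj (μ := μ) q (fun a : Q => (a, Φ a))
          (fun a b hab => (Prod.mk.inj hab).1)
        rw [← h4]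
        congr 1
        funext x
        rw [hname]
      have h5 := cent_nonneg (μ := μ) q (name (G := G) (fun x : X => x ∈ q ⁻¹' C) F) hm hnm
      unfold cent at h5
      rw [h3] at h5
      have h6 := ent_le_card (μ := μ) q
      linarith
  refine hbound.trans ?_
  rw [hF]
  have h1 : (Fintype.card Q : ℝ) < ε * n := by
    rw [div_lt_iff₀ hε] at hn
    linarith
  push_cast
  nlinarith

end Pool.PinskerA
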