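import Mathlib

set_option autoImplicit false

/-!
# Module ResFin: finitely generated nilpotent groups are residually finite

Paper proofs.

* `finite_of_torsion` (f.g. nilpotent torsion groups are finite): induction with
  `nilpotent_center_quotient_ind` (as a statement about all f.g. nilpotent groups).  The quotient
  `G ⧸ center G` is f.g. and torsion, so it is finite by induction.  So `center G` has finite index,
  hence is finitely generated (`Subgroup.fg_of_index_ne_zero`, Schreier); it is commutative and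
  torsion, so finite (`CommGroup.finite_of_fg_torsion`), and `G` is finite.
* `torsion_of_center` (f.g. nilpotent with torsion center is torsion): same induction.  First the
  center of `G ⧸ center G` is torsion: let `z` be in its preimage; for each generator `x` (finitely
  many, `Group.FG`) the commutator `⁅z, x⁆ = z * x * z⁻¹ * x⁻¹` is central, hence of finite order
  `n_x > 0`, and `⁅z ^ n, x⁆ = ⁅z, x⁆ ^ n` for all `n` (because `⁅z, x⁆` is central; induction on `n`).
  Let `N` be the product of the `n_x`; then `z ^ N` commutes with all generators, so it is central,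
  i.e. the class of `z` has `N`-th power `1`.  By induction `G ⧸ center G` is torsion: for `g : G`
  some `g ^ n` (`n > 0`) is in the center, hence has finite order, hence so has `g`.
* `rf_nilpotent`: by `Group.residuallyFinite_iff_...` (see `Mathlib.GroupTheory.ResiduallyFinite`)
  let `g ≠ 1`.  Zorn (`zorn_subset` / `zorn_le_nonempty₀` for normal subgroups `N` with `g ∉ N`;
  the union of a nonempty chain is `sSup`, membership by `Subgroup.mem_sSup_of_directedOn`, and it is
  normal) gives a maximal normal `N` with `g ∉ N`.  In `Q = G ⧸ N` (f.g. nilpotent) every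
  nontrivial normal subgroup contains the image `q ≠ 1` of `g` (preimages are normal subgroups
  strictly larger than `N`).  Every element of `center Q` has finite order: if `z` is central of
  infinite order, then for all `n > 0` the subgroup `zpowers (z ^ n)` is normal and nontrivial, so
  `q = (z ^ n) ^ a`; for `n = 1`: `q = z ^ a`, for `n = a.natAbs + 1`: `q = z ^ (n * b)`, so
  `a = n * b` (infinite order), `|a| < n`, so `a = 0`, `q = 1`, contradiction.  So `center Q` is
  torsion, `Q` is torsion by `torsion_of_center`, finite by `finite_of_torsion`.  So `N` is a normal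
  subgroup of finite index that does not contain `g`.
-/

namespace Pool.PinskerA

theorem finite_of_torsion (G : Type*) [Group G] [Group.IsNilpotent G] [Group.FG G]
    (h : ∀ g : G, ∃ n : ℕ, 0 < n ∧ g ^ n = 1) : Finite G := by
  have key : Group.FG G → (∀ g : G, ∃ n : ℕ, 0 < n ∧ g ^ n = 1) → Finite G := by
    apply Group.nilpotent_center_quotient_ind (P := fun G _ _ =>
      Group.FG G → (∀ g : G, ∃ n : ℕ, 0 < n ∧ g ^ n = 1) → Finite G) G
    · intro G _ _ _ _
      infer_instance
    · intro G _ _ ih hfg ht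
      have hfgq : Group.FG (G ⧸ Subgroup.center G) :=
        Group.fg_of_surjective (QuotientGroup.mk'_surjective (Subgroup.center G))
      have hfin : Finite (G ⧸ Subgroup.center G) := by
        refine ih hfgq fun q => ?_
        obtain ⟨g, rfl⟩ := QuotientGroup.mk_surjective q
        obtain ⟨n, hn, hg⟩ := ht g
        refine ⟨n, hn, ?_⟩
        rw [← QuotientGroup.mk_pow, hg, QuotientGroup.mk_one]
      have hind : (Subgroup.center G).FiniteIndex := Subgroup.finiteIndex_of_finite_quotient
      have hfgc : Group.FG (Subgroup.center G) := Subgroup.fg_of_index_ne_zero _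
      have hfc : Finite (Subgroup.center G) := by
        let cg : CommGroup (Subgroup.center G) :=
          { (inferInstance : Group (Subgroup.center G)) with
            mul_comm := fun a b => Subtype.ext ((Subgroup.mem_center_iff.1 b.2) a) }
        refine @CommGroup.finite_of_fg_isMulTorsion (Subgroup.center G) cg hfgc fun z => ?_
        obtain ⟨n, hn, hz⟩ := ht z
        rw [isOfFinOrder_iff_pow_eq_one]
        exact ⟨n, hn, Subtype.ext hz⟩
      exact Finite.of_subgroup_quotient (Subgroup.center G)
  exact key inferInstance h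

/-- a power of a lift of a central element of `G ⧸ center G` is central -/
theorem pow_mem_center (G : Type*) [Group G] [Group.FG G]
    (h : ∀ g : G, g ∈ Subgroup.center G → ∃ n : ℕ, 0 < n ∧ g ^ n = 1) (z : G)
    (hz : (z : G ⧸ Subgroup.center G) ∈ Subgroup.center (G ⧸ Subgroup.center G)) :
    ∃ n : ℕ, 0 < n ∧ z ^ n ∈ Subgroup.center G := by
  classical
  have hc : ∀ x : G, z * x * (x * z)⁻¹ ∈ Subgroup.center G := by
    intro x
    rw [← QuotientGroup.eq_one_iff, QuotientGroup.mk_mul, QuotientGroup.mk_inv,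
      QuotientGroup.mk_mul, QuotientGroup.mk_mul, mul_inv_eq_one]
    exact ((Subgroup.mem_center_iff.1 hz) x).symm
  choose n hn0 hn using fun x => h _ (hc x)
  have hcomm : ∀ (x : G) (k : ℕ), z ^ k * x = (z * x * (x * z)⁻¹) ^ k * (x * z ^ k) := by
    intro x k
    induction k with
    | zero => simp
    | succ k ih =>
      have hcen := Subgroup.mem_center_iff.1 (Subgroup.pow_mem _ (hc x) k)
      have h2 : z * x = (z * x * (x * z)⁻¹) * (x * z) := by group
      calc z ^ (k + 1) * x = z * (z ^ k * x) := by rw [pow_succ', mul_assoc]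
        _ = (z * (z * x * (x * z)⁻¹) ^ k) * (x * z ^ k) := by
            rw [ih]
            exact (mul_assoc _ _ _).symm
        _ = (z * x * (x * z)⁻¹) ^ k * ((z * x) * z ^ k) := by
            rw [hcen z]
            simp only [mul_assoc]
        _ = (z * x * (x * z)⁻¹) ^ k * (((z * x * (x * z)⁻¹) * (x * z)) * z ^ k) := by rw [← h2]
        _ = (z * x * (x * z)⁻¹) ^ (k + 1) * (x * z ^ (k + 1)) := by
            rw [pow_succ (z * x * (x * z)⁻¹) k, pow_succ' z k]
            simp only [mul_assoc]
  obtain ⟨S, hS⟩ := (Group.fg_def.1 (inferInstance : Group.FG G))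
  refine ⟨∏ x ∈ S, n x, Finset.prod_pos fun x _ => hn0 x, ?_⟩
  have hle : Subgroup.closure (S : Set G) ≤
      Subgroup.centralizer {z ^ (∏ x ∈ S, n x)} := by
    rw [Subgroup.closure_le]
    intro x hx
    rw [SetLike.mem_coe, Subgroup.mem_centralizer_singleton_iff]
    obtain ⟨m, hm⟩ := Finset.dvd_prod_of_mem n (Finset.mem_coe.1 hx)
    have h1 := hcomm x (∏ x ∈ S, n x)
    rw [hm, pow_mul (z * x * (x * z)⁻¹), hn, one_pow, one_mul, ← hm] at h1
    exact h1.symm
  rw [hS] at hle
  rw [Subgroup.mem_center_iff]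
  intro g
  have h1 := hle (Subgroup.mem_top g)
  rw [Subgroup.mem_centralizer_singleton_iff] at h1
  exact h1

theorem torsion_of_center (G : Type*) [Group G] [Group.IsNilpotent G] [Group.FG G]
    (h : ∀ g : G, g ∈ Subgroup.center G → ∃ n : ℕ, 0 < n ∧ g ^ n = 1) :
    ∀ g : G, ∃ n : ℕ, 0 < n ∧ g ^ n = 1 := by
  have key : Group.FG G → (∀ g : G, g ∈ Subgroup.center G → ∃ n : ℕ, 0 < n ∧ g ^ n = 1) →
      ∀ g : G, ∃ n : ℕ, 0 < n ∧ g ^ n = 1 := by
    apply Group.nilpotent_center_quotient_ind (P := fun G _ _ =>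
      Group.FG G → (∀ g : G, g ∈ Subgroup.center G → ∃ n : ℕ, 0 < n ∧ g ^ n = 1) →
      ∀ g : G, ∃ n : ℕ, 0 < n ∧ g ^ n = 1) G
    · intro G _ _ _ _ g
      exact ⟨1, one_pos, Subsingleton.elim _ _⟩
    · intro G _ _ ih hfg ht g
      have hfgq : Group.FG (G ⧸ Subgroup.center G) :=
        Group.fg_of_surjective (QuotientGroup.mk'_surjective (Subgroup.center G))
      have h1 : ∀ q : G ⧸ Subgroup.center G, ∃ n : ℕ, 0 < n ∧ q ^ n = 1 := by
        refine ih hfgq fun q hq => ?_
        obtain ⟨z, rfl⟩ := QuotientGroup.mk_surjective q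
        obtain ⟨n, hn, hzn⟩ := pow_mem_center G ht z hq
        refine ⟨n, hn, ?_⟩
        rw [← QuotientGroup.mk_pow, QuotientGroup.eq_one_iff]
        exact hzn
      obtain ⟨n, hn, hgn⟩ := h1 g
      rw [← QuotientGroup.mk_pow, QuotientGroup.eq_one_iff] at hgn
      obtain ⟨m, hm, hgm⟩ := ht _ hgn
      exact ⟨n * m, Nat.mul_pos hn hm, by rw [pow_mul, hgm]⟩
  exact key inferInstance h

theorem rf_nilpotent (G : Type*) [Group G] [Group.IsNilpotent G] [Group.FG G] (g : G)
    (hg : g ≠ 1) : ∃ N : Subgroup G, N.Normal ∧ N.FiniteIndex ∧ g ∉ N := by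
  obtain ⟨N, -, hN⟩ := zorn_le_nonempty₀ {N : Subgroup G | N.Normal ∧ g ∉ N} (by
    intro c hc hchain y hy
    refine ⟨sSup c, ⟨⟨fun x hx k => ?_⟩, fun hmem => ?_⟩, fun z hz => le_sSup hz⟩
    · rw [Subgroup.mem_sSup_of_directedOn ⟨y, hy⟩ hchain.directedOn] at hx ⊢
      obtain ⟨K, hK, hxK⟩ := hx
      exact ⟨K, hK, (hc hK).1.conj_mem x hxK k⟩
    · rw [Subgroup.mem_sSup_of_directedOn ⟨y, hy⟩ hchain.directedOn] at hmem
      obtain ⟨K, hK, hxK⟩ := hmem
      exact (hc hK).2 hxK) ⊥ ⟨inferInstance, fun h => hg (Subgroup.mem_bot.1 h)⟩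
  have hNn : N.Normal := hN.prop.1
  have hgN : g ∉ N := hN.prop.2
  refine ⟨N, hNn, ?_, hgN⟩
  have hmax : ∀ M : Subgroup (G ⧸ N), M.Normal → M ≠ ⊥ → (g : G ⧸ N) ∈ M := by
    intro M hM hne
    by_contra hcon
    apply hne
    have h1 : M.comap (QuotientGroup.mk' N) ≤ N :=
      hN.le_of_ge (y := M.comap (QuotientGroup.mk' N)) ⟨hM.comap _, hcon⟩ (by
        intro x hx
        rw [Subgroup.mem_comap]
        have : QuotientGroup.mk' N x = 1 := (QuotientGroup.eq_one_iff x).2 hx
        rw [this]
        exact M.one_mem)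
    rw [eq_bot_iff]
    intro q hq
    obtain ⟨x, rfl⟩ := QuotientGroup.mk_surjective q
    rw [Subgroup.mem_bot, QuotientGroup.eq_one_iff]
    exact h1 hq
  have hgq : (g : G ⧸ N) ≠ 1 := fun h => hgN ((QuotientGroup.eq_one_iff g).1 h)
  have hfgq : Group.FG (G ⧸ N) := Group.fg_of_surjective (QuotientGroup.mk'_surjective N)
  have htors : ∀ q : G ⧸ N, ∃ n : ℕ, 0 < n ∧ q ^ n = 1 := by
    apply torsion_of_center
    intro z hz
    by_contra hcon
    push Not at hcon
    have hmem : ∀ k : ℕ, 0 < k → ∃ b : ℤ, (z ^ k) ^ b = (g : G ⧸ N) := by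
      intro k hk
      have hzk : z ^ k ∈ Subgroup.center (G ⧸ N) := Subgroup.pow_mem _ hz k
      have hn : (Subgroup.zpowers (z ^ k)).Normal := by
        refine ⟨fun x hx y => ?_⟩
        have hx' : x ∈ Subgroup.center (G ⧸ N) :=
          (Subgroup.zpowers_le.2 hzk) hx
        have h2 : y * x * y⁻¹ = x := by
          rw [Subgroup.mem_center_iff.1 hx' y, mul_inv_cancel_right]
        rw [h2]
        exact hx
      have h1 := hmax _ hn (by
        rw [Ne, Subgroup.zpowers_eq_bot]
        exact hcon k hk)
      exact Subgroup.mem_zpowers_iff.1 h1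
    have hinf : ∀ m : ℤ, z ^ m = 1 → m = 0 := by
      intro m hm
      by_contra hm0
      have h1 : z ^ m.natAbs = 1 := by
        rcases Int.natAbs_eq m with h2 | h2
        · rw [h2, zpow_natCast] at hm
          exact hm
        · rw [h2, zpow_neg, zpow_natCast, inv_eq_one] at hm
          exact hm
      exact hcon _ (Int.natAbs_pos.2 hm0) h1
    obtain ⟨a, ha⟩ := hmem 1 one_pos
    rw [pow_one] at ha
    obtain ⟨b, hb⟩ := hmem (a.natAbs + 1) (Nat.succ_pos _)
    rw [← zpow_natCast, ← zpow_mul] at hb
    have h1 : a - ((a.natAbs + 1 : ℕ) : ℤ) * b = 0 := by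
      apply hinf
      rw [zpow_sub, ha, hb, mul_inv_cancel]
    have h2 : a = 0 := by
      have h3 : ((a.natAbs + 1 : ℕ) : ℤ) ∣ a := ⟨b, by linarith⟩
      by_contra ha0
      have h4 := Int.natAbs_dvd_natAbs.2 h3
      have h5 := Nat.le_of_dvd (Int.natAbs_pos.2 ha0) h4
      rw [Int.natAbs_natCast] at h5
      omega
    rw [h2, zpow_zero] at ha
    exact hgq ha.symm
  have hfin : Finite (G ⧸ N) := finite_of_torsion (G ⧸ N) htors
  exact Subgroup.finiteIndex_of_finite_quotient

end Pool.PinskerA
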