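import Pool.Agent.PinskerA.NilInv
import Pool.Agent.PinskerA.FreeNil
import Pool.Agent.PinskerA.ResFin
import Pool.Agent.PinskerA.OdoG

set_option autoImplicit false
set_option warn.classDefReducibility false

/-!
# Reduction of the nilpotent problem to free actions of zero entropy
-/

open MeasureTheory Filter Topology
open scoped ENNReal

namespace Pool.PinskerA

open Pool.Pinsker

/-- Q1 for all systems of `d` maps that generate a group of nilpotency class at most `k`. -/
def ConvNil (k d m : ℕ) (P : Fin d → Fin m → Polynomial ℤ) : Prop :=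
  ∀ (X : Type) [MeasurableSpace X] (μ : Measure X) [IsProbabilityMeasure μ]
    (T : Fin d → Equiv.Perm X), (∀ i, Measurable ⇑(T i).symm) →
    (∀ i, MeasurePreserving (⇑(T i)) μ μ) →
    (Subgroup.closure (Set.range T)).lowerCentralSeries k = ⊥ →
    ∀ f : Fin m → X → ℂ, (∀ j, MemLp (f j) ∞ μ) →
    ∀ᵐ x ∂μ, ∃ L : ℂ, Tendsto (fun N : ℕ => (2 * (N : ℂ) + 1)⁻¹ *
      ∑ n ∈ Finset.Icc (-(N : ℤ)) N,
        ∏ j, f j ((List.ofFn fun i => T i ^ (P i j).eval n).prod x)) atTop (𝓝 L)

/-- Q1 for all free actions, of zero entropy, of the free nilpotent group of class `k` on `d`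
generators. -/
def ConvNilZeroFree (k d m : ℕ) (P : Fin d → Fin m → Polynomial ℤ) : Prop :=
  ∀ (X : Type) [MeasurableSpace X] (μ : Measure X) [IsProbabilityMeasure μ]
    (T : Fin d → Equiv.Perm X), (∀ i, Measurable ⇑(T i).symm) →
    (∀ i, MeasurePreserving (⇑(T i)) μ μ) →
    (Subgroup.closure (Set.range T)).lowerCentralSeries k = ⊥ →
    (∀ w : FreeGroup (Fin d), w ∉ (⊤ : Subgroup (FreeGroup (Fin d))).lowerCentralSeries k →
      ∃ (n : ℕ) (c : X → Fin n), Measurable c ∧ ∀ x, c (FreeGroup.lift T w x) ≠ c x) →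
    (∀ B : Set X, MeasurableSet B → ZeroEntropyG μ (Subgroup.closure (Set.range T)) B) →
    ∀ f : Fin m → X → ℂ, (∀ j, MemLp (f j) ∞ μ) →
    ∀ᵐ x ∂μ, ∃ L : ℂ, Tendsto (fun N : ℕ => (2 * (N : ℂ) + 1)⁻¹ *
      ∑ n ∈ Finset.Icc (-(N : ℤ)) N,
        ∏ j, f j ((List.ofFn fun i => T i ^ (P i j).eval n).prod x)) atTop (𝓝 L)

/-- the product homomorphism -/
def prodHom {H X Y : Type*} [Group H] (Θ : H →* Equiv.Perm X) (Ψ : H →* Equiv.Perm Y) :
    H →* Equiv.Perm (X × Y) where
  toFun t := Equiv.prodCongr (Θ t) (Ψ t)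
  map_one' := by
    ext z : 1
    simp
  map_mul' s t := by
    ext z : 1
    show (Θ (s * t) z.1, Ψ (s * t) z.2) = (Θ s (Θ t z.1), Ψ s (Ψ t z.2))
    rw [map_mul, map_mul]
    rfl

theorem prodHom_apply {H X Y : Type*} [Group H] (Θ : H →* Equiv.Perm X) (Ψ : H →* Equiv.Perm Y)
    (t : H) (z : X × Y) : prodHom Θ Ψ t z = (Θ t z.1, Ψ t z.2) := rfl

/-- the case of no maps or of class zero -/
theorem conv_trivial {m : ℕ} {X : Type*} (f : Fin m → X → ℂ) (g : Fin m → ℤ → Equiv.Perm X)
    (hg : ∀ j n, g j n = 1) (x : X) :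
    ∃ L : ℂ, Tendsto (fun N : ℕ => (2 * (N : ℂ) + 1)⁻¹ *
      ∑ n ∈ Finset.Icc (-(N : ℤ)) N, ∏ j, f j (g j n x)) atTop (𝓝 L) := by
  refine ⟨∏ j, f j x, ?_⟩
  refine tendsto_const_nhds.congr fun N => ?_
  have h1 : ∀ n ∈ Finset.Icc (-(N : ℤ)) N, ∏ j, f j (g j n x) = ∏ j, f j x := by
    intro n _
    simp [hg]
  rw [Finset.sum_congr rfl h1, Finset.sum_const, Int.card_Icc, nsmul_eq_mul]
  have h2 : (((N : ℤ) + 1 - -(N : ℤ)).toNat : ℂ) = 2 * (N : ℂ) + 1 := by
    have : ((N : ℤ) + 1 - -(N : ℤ)).toNat = 2 * N + 1 := by omega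
    rw [this]
    push_cast
    ring
  rw [h2, ← mul_assoc, inv_mul_cancel₀, one_mul]
  have : ((2 * N + 1 : ℕ) : ℂ) ≠ 0 := Nat.cast_ne_zero.2 (Nat.succ_ne_zero _)
  push_cast at this
  exact this

/-- subgroups of finite index that separate the elements -/
theorem exists_family (H : Type) [Group H] [Group.IsNilpotent H] [Group.FG H] :
    ∃ N : H → Subgroup H, (∀ t, (N t).Normal) ∧ (∀ t, (N t).FiniteIndex) ∧
      ∀ t, t ≠ 1 → t ∉ N t := by
  have h : ∀ t : H, ∃ N : Subgroup H, N.Normal ∧ N.FiniteIndex ∧ (t ≠ 1 → t ∉ N) := by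
    intro t
    by_cases ht : t = 1
    · exact ⟨⊤, inferInstance, inferInstance, fun h => absurd ht h⟩
    · obtain ⟨N, h1, h2, h3⟩ := rf_nilpotent H t ht
      exact ⟨N, h1, h2, fun _ => h3⟩
  choose N h1 h2 h3 using h
  exact ⟨N, h1, h2, h3⟩

/-- everything that is needed about the product with the odometer -/
theorem exists_product (k d : ℕ) (hk : 1 ≤ k) (hd : 0 < d) (X : Type) [MeasurableSpace X]
    (μ : Measure X) [IsProbabilityMeasure μ]
    (T : Fin d → Equiv.Perm X) (hT' : ∀ i, Measurable ⇑(T i).symm)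
    (hT : ∀ i, MeasurePreserving (⇑(T i)) μ μ)
    (hnil : (Subgroup.closure (Set.range T)).lowerCentralSeries k = ⊥)
    (w : Fin d → ℝ) :
    ∃ (Y : Type) (_ : MeasurableSpace Y) (ν : Measure Y) (_ : IsProbabilityMeasure ν)
      (S : Fin d → Equiv.Perm (X × Y)) (φ : Subgroup.closure (Set.range S) → ℝ),
      (∀ i, Measurable ⇑(S i).symm) ∧ (∀ i, MeasurePreserving (⇑(S i)) (μ.prod ν) (μ.prod ν)) ∧
      (Subgroup.closure (Set.range S)).lowerCentralSeries k = ⊥ ∧
      (∀ a b, φ (a * b) = φ a + φ b) ∧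
      (∀ (v : Fin d → ℤ) (g : Subgroup.closure (Set.range S)),
        (g : Equiv.Perm (X × Y)) = (List.ofFn fun i => S i ^ v i).prod →
        φ g = ∑ i, (v i : ℝ) * w i) ∧
      (∀ (v : Fin d → ℤ) (z : X × Y), ((List.ofFn fun i => S i ^ v i).prod z).1 =
        (List.ofFn fun i => T i ^ v i).prod z.1) ∧
      (∀ u : FreeGroup (Fin d), u ∉ (⊤ : Subgroup (FreeGroup (Fin d))).lowerCentralSeries k →
        ∃ (n : ℕ) (c : X × Y → Fin n),
          (∀ C : Set (Fin n), MeasurableSet (c ⁻¹' C) ∧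
            ZeroEntropyG (μ.prod ν) (Subgroup.closure (Set.range S)) (c ⁻¹' C)) ∧
          ∀ x, c (FreeGroup.lift S u x) ≠ c x) := by
  classical
  obtain ⟨N, hN1, hN2, hN3⟩ := exists_family (FN k d)
  obtain ⟨Θ, hΘ⟩ := exists_fnLift k T hnil
  obtain ⟨hw, hhw⟩ := exists_height_fn (k := k) (d := d) hk w
  have := infinite_fn (k := k) (d := d) hk hd
  have hne : Nonempty X := by
    by_contra hcon
    rw [not_nonempty_iff] at hcon
    have h1 := measure_univ (μ := μ)
    rw [Set.univ_eq_empty_iff.2 hcon, measure_empty] at h1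
    exact zero_ne_one h1
  obtain ⟨x0⟩ := hne
  set Φ := prodHom Θ (odoGAct N) with hΦ
  have hTΘ : ∀ i, Θ (fgen k d i) = T i := fun i => by
    rw [fgen, hΘ, FreeGroup.lift_apply_of]
  have hΦinj : Function.Injective Φ := by
    rw [injective_iff_map_eq_one]
    intro t ht
    by_contra hne
    have h1 := DFunLike.congr_fun ht ((x0, 1) : X × OdoG N)
    rw [hΦ, prodHom_apply] at h1
    have h2 : odoGAct N t (1 : OdoG N) = 1 := congrArg Prod.snd h1
    exact odoGAct_ne N t t (hN3 t hne) 1 (congrFun h2 t)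
  set S : Fin d → Equiv.Perm (X × OdoG N) := fun i => Φ (fgen k d i) with hS
  have hclos : Subgroup.closure (Set.range S) = Φ.range := by
    have h1 : Set.range S = Φ '' Set.range (fgen k d) := by
      rw [← Set.range_comp]
      rfl
    rw [h1, ← MonoidHom.map_closure, closure_fgen, ← MonoidHom.range_eq_map]
  have hmem : ∀ t, Φ t ∈ Subgroup.closure (Set.range S) := fun t => by
    rw [hclos]
    exact ⟨t, rfl⟩
  have hlift : ∀ u : FreeGroup (Fin d), FreeGroup.lift S u = Φ (QuotientGroup.mk u) := by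
    intro u
    have h1 : FreeGroup.lift S = Φ.comp (QuotientGroup.mk'
        ((⊤ : Subgroup (FreeGroup (Fin d))).lowerCentralSeries k)) := by
      apply FreeGroup.ext_hom
      intro i
      rw [FreeGroup.lift_apply_of]
      rfl
    rw [h1]
    rfl
  have hprodΦ : ∀ v : Fin d → ℤ, (List.ofFn fun i => S i ^ v i).prod =
      Φ (List.ofFn fun i => fgen k d i ^ v i).prod := by
    intro v
    rw [map_list_prod, List.map_ofFn]
    congr 2
    funext i
    rw [Function.comp_apply, map_zpow]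
  have hprodΘ : ∀ v : Fin d → ℤ, (List.ofFn fun i => T i ^ v i).prod =
      Θ (List.ofFn fun i => fgen k d i ^ v i).prod := by
    intro v
    rw [map_list_prod, List.map_ofFn]
    congr 2
    funext i
    rw [Function.comp_apply, map_zpow, hTΘ]
  have hval : ∀ g : Subgroup.closure (Set.range S), ∃ t, Φ t = g := by
    rintro ⟨g, hg⟩
    have h1 : g ∈ Φ.range := by
      rw [← hclos]
      exact hg
    exact h1
  choose inv hinv using hval
  have hinv_mul : ∀ a b, inv (a * b) = inv a * inv b := by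
    intro a b
    apply hΦinj
    rw [map_mul, hinv, hinv, hinv]
    rfl
  refine ⟨OdoG N, inferInstance, odoGMeas N, inferInstance, S,
    fun g => Multiplicative.toAdd (hw (inv g)), ?_, ?_, ?_, ?_, ?_, ?_, ?_⟩
  · intro i
    have e : (⇑(S i).symm : X × OdoG N → X × OdoG N) =
        fun z => ((T i).symm z.1, (odoGAct N (fgen k d i)).symm z.2) := by
      funext z
      rw [← hTΘ]
      rfl
    rw [e]
    have h2 : Measurable ⇑(odoGAct N (fgen k d i)).symm := by
      have e2 : (odoGAct N (fgen k d i)).symm = odoGAct N (fgen k d i)⁻¹ := by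
        rw [map_inv]
        rfl
      rw [e2]
      exact (odoGAct_mp N _).measurable
    exact ((hT' i).comp measurable_fst).prodMk (h2.comp measurable_snd)
  · intro i
    have h1 : MeasurePreserving (⇑(Θ (fgen k d i))) μ μ := by
      rw [hTΘ]
      exact hT i
    exact h1.prod (odoGAct_mp N (fgen k d i))
  · rw [hclos, MonoidHom.range_eq_map, ← Subgroup.map_lowerCentralSeries, fn_lcs,
      Subgroup.map_bot]
  · intro a b
    simp only [hinv_mul, map_mul, toAdd_mul]
  · intro v g hg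
    have h1 : inv g = (List.ofFn fun i => fgen k d i ^ v i).prod := by
      apply hΦinj
      rw [hinv, hg, hprodΦ]
    simp only [h1]
    rw [map_list_prod, List.map_ofFn, List.prod_ofFn, toAdd_prod]
    apply Finset.sum_congr rfl
    intro i _
    rw [Function.comp_apply, map_zpow, toAdd_zpow, hhw, toAdd_ofAdd, zsmul_eq_mul]
  · intro v z
    rw [hprodΦ, hprodΘ]
    rfl
  · intro u hu
    set t : FN k d := QuotientGroup.mk u with ht
    have ht1 : t ≠ 1 := by
      intro h
      exact hu ((QuotientGroup.eq_one_iff u).1 h)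
    have : Infinite (Subgroup.closure (Set.range S)) :=
      Infinite.of_injective (fun s : FN k d => (⟨Φ s, hmem s⟩ : Subgroup.closure (Set.range S)))
        fun a b hab => hΦinj (congrArg Subtype.val hab)
    set e := Fintype.equivFin (Qn N t) with he
    refine ⟨Fintype.card (Qn N t), fun z => e (z.2 t), ?_, ?_⟩
    · intro C
      have hFM : FM (inferInstance : MeasurableSpace (X × OdoG N))
          (fun z : X × OdoG N => z.2 t) := by
        intro C'
        exact ((measurable_pi_apply t).comp measurable_snd) trivial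
      have e1 : (fun z : X × OdoG N => e (z.2 t)) ⁻¹' C =
          (fun z : X × OdoG N => z.2 t) ⁻¹' (e ⁻¹' C) := rfl
      rw [e1]
      refine ⟨hFM _, zeroG_of_factor _ _ _ ?_ hFM⟩
      intro g x y hxy
      obtain ⟨s, hs⟩ : ∃ s, Φ s = g := ⟨inv g, hinv g⟩
      rw [← hs]
      show (odoGAct N s x.2) t = (odoGAct N s y.2) t
      rw [odoGAct_apply, odoGAct_apply]
      exact congrArg _ hxy
    · intro z hz
      rw [hlift] at hz
      exact odoGAct_ne N t t (hN3 t ht1) z.2 (e.injective hz)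

/-- the maximal inequality for all polynomial sequences of nilpotent groups of class at most `k`
generated by `d` maps -/
def MaxNil (k d : ℕ) : Prop :=
  ∀ (X : Type) [MeasurableSpace X] (μ : Measure X) [IsProbabilityMeasure μ]
    (T : Fin d → Equiv.Perm X), (∀ i, Measurable ⇑(T i).symm) →
    (∀ i, MeasurePreserving (⇑(T i)) μ μ) →
    (Subgroup.closure (Set.range T)).lowerCentralSeries k = ⊥ →
    ∀ p : Fin d → Polynomial ℤ, (∀ i, (p i).eval 0 = 0) →
      MaxProp μ (fun n x => (List.ofFn fun i => T i ^ (p i).eval n).prod x)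

theorem reduce_nil (k d m : ℕ) (hk : 1 ≤ k) (P : Fin d → Fin m → Polynomial ℤ)
    (hP0 : ∀ i j, (P i j).eval 0 = 0) (hM : MaxNil k d)
    (h : ConvNilZeroFree k d m P) : ConvNil k d m P := by
  classical
  intro X m0 μ hμ T hT' hT hnil f hf
  rcases Nat.eq_zero_or_pos d with hd | hd
  · subst hd
    exact Eventually.of_forall fun x => conv_trivial f
      (fun j n => (List.ofFn fun i => T i ^ (P i j).eval n).prod) (fun j n => by simp) x
  obtain ⟨w, hw⟩ := exists_height d
  obtain ⟨Y, mY, ν, hν, S, φ, hS', hS, hSnil, hφ, hφv, hfst, hfree⟩ :=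
    exists_product k d hk hd X μ T hT' hT hnil w
  let G := Subgroup.closure (Set.range S)
  have hGn : Group.IsNilpotent G := Subgroup.isNilpotent_of_lowerCentralSeries_eq_bot hSnil
  set μ' := μ.prod ν with hμ'
  obtain ⟨m', s, A, Z, hs, hne, hdist, hA, hZ, hprod⟩ := merge P
  have hPi : pinskerAlgG μ' G ≤ (inferInstance : MeasurableSpace (X × Y)) :=
    pinskerAlgG_le μ' G
  -- functions on the product
  set F0 : Fin m → X × Y → ℂ := fun k z => f k z.1 with hF0
  have hF0m : ∀ k, MemLp (F0 k) ∞ μ' := fun k =>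
    (hf k).comp_measurePreserving measurePreserving_fst
  set f' : Fin m' → X × Y → ℂ := fun j x => ∏ k ∈ A j, F0 k x with hf'
  have hf'm : ∀ j, MemLp (f' j) ∞ μ' := fun j => memLp_prod F0 hF0m (A j)
  have hgmem : ∀ v : Fin d → ℤ, (List.ofFn fun i => S i ^ v i).prod ∈ G := by
    intro v
    apply Subgroup.list_prod_mem
    intro x hx
    obtain ⟨i, rfl⟩ := (List.mem_ofFn' _ x).1 hx
    exact Subgroup.zpow_mem _ (Subgroup.subset_closure (Set.mem_range_self i)) _
  set g : Fin m' → ℤ → G := fun j n =>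
    ⟨(List.ofFn fun i => S i ^ (P i (s j)).eval n).prod, hgmem _⟩ with hg
  have hgφ : ∀ j n, φ (g j n) = ∑ i, (((P i (s j)).eval n : ℤ) : ℝ) * w i := fun j n =>
    hφv (fun i => (P i (s j)).eval n) (g j n) rfl
  have h1 : ∀ j, ∃ n, φ (g j n) ≠ 0 := by
    intro j
    obtain ⟨i, hi⟩ := hne j
    obtain ⟨n, hn⟩ := exists_eval_ne _ _ hi
    refine ⟨n, fun h0 => hn ?_⟩
    rw [hgφ] at h0
    have h2 := congrFun (hw (a₁ := fun i => (P i (s j)).eval n) (a₂ := fun _ => 0)
      (by simpa using h0)) i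
    rw [Polynomial.eval_zero]
    exact h2
  have h2 : ∀ i j, i ≠ j → ∃ n, φ (g i n) ≠ φ (g j n) := by
    intro a b hab
    obtain ⟨i, hi⟩ := hdist a b hab
    obtain ⟨n, hn⟩ := exists_eval_ne _ _ hi
    refine ⟨n, fun h0 => hn ?_⟩
    rw [hgφ, hgφ] at h0
    exact congrFun (hw (a₁ := fun i => (P i (s a)).eval n)
      (a₂ := fun i => (P i (s b)).eval n) h0) i
  have key := (nilp (X × Y) μ' d m' S hS' hS hGn φ hφ (fun i j => P i (s j))
    (fun i j => hP0 i (s j)) g (fun j n => rfl) h1 h2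
    (fun j => hM (X × Y) μ' S hS' hS hSnil (fun i => P i (s j)) (fun i => hP0 i (s j)))
    f' hf'm)
  obtain ⟨hsets, key, -⟩ := key
  set e : Fin m' → X × Y → ℂ := fun j => μ'[f' j|pinskerAlgG μ' G] with he
  set F : Fin m → X × Y → ℂ := Function.extend s e (fun _ _ => 1) with hF
  have hFs : ∀ j, F (s j) = e j := fun j => hs.extend_apply _ _ j
  have hFo : ∀ k, k ∉ Set.range s → F k = fun _ => 1 := by
    intro k hk
    rw [hF, Function.extend_apply']
    rintro ⟨a, ha⟩
    exact hk ⟨a, ha⟩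
  have hGm : ∀ g : G, Measurable (g : Equiv.Perm (X × Y)) := fun g =>
    (preserving μ' S hS' hS g g.2).1.measurable
  have hmeas : ∀ g : G, @Measurable (X × Y) (X × Y) (pinskerAlgG μ' G) (pinskerAlgG μ' G)
      (g : Equiv.Perm (X × Y)) := fun g => measurable_pinskerAlgG μ' G g (hGm g)
  have hTm : ∀ i, @Measurable (X × Y) (X × Y) (pinskerAlgG μ' G) (pinskerAlgG μ' G) (⇑(S i)) :=
    fun i => hmeas ⟨S i, Subgroup.subset_closure (Set.mem_range_self i)⟩
  have hTm' : ∀ i, @Measurable (X × Y) (X × Y) (pinskerAlgG μ' G) (pinskerAlgG μ' G)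
      (⇑(S i).symm) :=
    fun i => hmeas (⟨S i, Subgroup.subset_closure (Set.mem_range_self i)⟩ : G)⁻¹
  have hprob : @IsProbabilityMeasure (X × Y) (pinskerAlgG μ' G) (μ'.trim hPi) := by
    refine @IsProbabilityMeasure.mk (X × Y) (pinskerAlgG μ' G) (μ'.trim hPi) ?_
    rw [trim_measurableSet_eq hPi (@MeasurableSet.univ (X × Y) (pinskerAlgG μ' G))]
    exact measure_univ
  have hFL : ∀ k, @MemLp (X × Y) ℂ (pinskerAlgG μ' G) _ _ (F k) ∞ (μ'.trim hPi) := by
    intro k
    by_cases hk : k ∈ Set.range s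
    · obtain ⟨j, rfl⟩ := hk
      rw [hFs]
      have h1 := memLp_condExp_top _ hPi (f' j) (hf'm j)
      refine ⟨stronglyMeasurable_condExp.aestronglyMeasurable, ?_⟩
      rw [eLpNorm_trim hPi stronglyMeasurable_condExp]
      exact h1.2
    · rw [hFo k hk]
      exact @memLp_const (X × Y) ℂ (pinskerAlgG μ' G) ∞ (μ'.trim hPi) _ 1
        (isFiniteMeasure_trim hPi)
  have hzero : ∀ B : Set (X × Y), MeasurableSet[pinskerAlgG μ' G] B →
      @ZeroEntropyG (X × Y) (pinskerAlgG μ' G) (μ'.trim hPi) G B := fun B hB =>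
    zeroG_trim μ' _ hPi G hmeas B hB ((hsets B).1 hB).2
  have hfree' : ∀ u : FreeGroup (Fin d),
      u ∉ (⊤ : Subgroup (FreeGroup (Fin d))).lowerCentralSeries k →
      ∃ (n : ℕ) (c : X × Y → Fin n), @Measurable (X × Y) (Fin n) (pinskerAlgG μ' G) _ c ∧
        ∀ x, c (FreeGroup.lift S u x) ≠ c x := by
    intro u hu
    obtain ⟨n, c, hc1, hc2⟩ := hfree u hu
    exact ⟨n, c, fun C _ => (hsets _).2 (hc1 C), hc2⟩
  have h3 := @h (X × Y) (pinskerAlgG μ' G) (μ'.trim hPi) hprob S hTm'
    (fun i => trim_mp _ hPi _ (hS i) (hTm i)) hSnil hfree' hzero F hFL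
  have h4 := ae_of_ae_trim hPi h3
  have h5 : ∀ᵐ z ∂μ', ∃ L : ℂ, Tendsto (fun N : ℕ => (2 * (N : ℂ) + 1)⁻¹ *
      ∑ n ∈ Finset.Icc (-(N : ℤ)) N,
        ∏ j, f j ((List.ofFn fun i => T i ^ (P i j).eval n).prod z.1)) atTop (𝓝 L) := by
    filter_upwards [key, h4] with x hx1 hx2
    obtain ⟨L, hL⟩ := hx2
    refine ⟨(∏ k ∈ Z, F0 k x) * L, ?_⟩
    have hFprod : ∀ y : Fin m → X × Y, ∏ k, F k (y k) = ∏ j, e j (y (s j)) := by
      intro y
      rw [← Finset.prod_subset (Finset.subset_univ (Finset.univ.image s))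
        (f := fun k => F k (y k))]
      · rw [Finset.prod_image (fun a _ b _ hab => hs hab)]
        apply Finset.prod_congr rfl
        intro j _
        rw [hFs]
      · intro k _ hk
        rw [hFo k]
        rintro ⟨j, rfl⟩
        exact hk (Finset.mem_image_of_mem s (Finset.mem_univ j))
    have hL' : Tendsto (fun N : ℕ => (2 * (N : ℂ) + 1)⁻¹ * ∑ n ∈ Finset.Icc (-(N : ℤ)) N,
        ∏ j, e j ((List.ofFn fun i => S i ^ (P i (s j)).eval n).prod x)) atTop (𝓝 L) := by
      refine hL.congr fun N => ?_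
      congr 1
      apply Finset.sum_congr rfl
      intro n _
      exact hFprod (fun k => (List.ofFn fun i => S i ^ (P i k).eval n).prod x)
    have h4 : Tendsto (fun N : ℕ => (2 * (N : ℂ) + 1)⁻¹ * ∑ n ∈ Finset.Icc (-(N : ℤ)) N,
        ∏ j, f' j ((List.ofFn fun i => S i ^ (P i (s j)).eval n).prod x)) atTop (𝓝 L) := by
      have h5 := hx1.add hL'
      rw [zero_add] at h5
      refine h5.congr fun N => ?_
      rw [← mul_add, ← Finset.sum_add_distrib]
      congr 1
      apply Finset.sum_congr rfl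
      intro n _
      simp only [he]
      ring
    have h6 := h4.const_mul (∏ k ∈ Z, F0 k x)
    refine h6.congr fun N => ?_
    rw [← mul_assoc, mul_comm (∏ k ∈ Z, F0 k x), mul_assoc, Finset.mul_sum]
    congr 1
    apply Finset.sum_congr rfl
    intro n _
    have h7 : ∀ k, f k ((List.ofFn fun i => T i ^ (P i k).eval n).prod x.1) =
        F0 k ((List.ofFn fun i => S i ^ (P i k).eval n).prod x) := by
      intro k
      show _ = f k (_ : X × Y).1
      rw [hfst (fun i => (P i k).eval n)]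
    simp only [h7]
    rw [hprod (fun k => F0 k ((List.ofFn fun i => S i ^ (P i k).eval n).prod x))]
    congr 1
    · apply Finset.prod_congr rfl
      intro k hk
      have h8 : (List.ofFn fun i => S i ^ (P i k).eval n).prod = 1 := by
        apply List.prod_eq_one
        intro y hy
        obtain ⟨i, rfl⟩ := (List.mem_ofFn' _ y).1 hy
        simp only [hZ k hk i, Polynomial.eval_zero, zpow_zero]
      rw [h8]
      rfl
    · apply Finset.prod_congr rfl
      intro j _
      rw [hf']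
      simp only
      apply Finset.prod_congr rfl
      intro k hk
      have h8 : (fun i => S i ^ (P i k).eval n) = fun i => S i ^ (P i (s j)).eval n := by
        funext i
        rw [hA j k hk i]
      rw [h8]
  have h6 := Measure.ae_ae_of_ae_prod h5
  filter_upwards [h6] with x hx
  obtain ⟨y, L, hL⟩ := hx.exists
  exact ⟨L, hL⟩

end Pool.PinskerA
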