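import Pool.Agent.Pinsker.FromMax
import Pool.Agent.PinskerA.ReduceNil
import Pool.Agent.Nil.Final

set_option autoImplicit false
set_option warn.classDefReducibility false

/-!
# The weak maximal inequality along polynomial sequences of nilpotent groups (from Nil)
-/

open MeasureTheory Filter Topology Finset
open scoped ENNReal NNReal

namespace Pool.PinskerA

open Pool.Pinsker

theorem maxProp_nilp {X : Type*} [MeasurableSpace X] (μ : Measure X) [IsProbabilityMeasure μ]
    {d : ℕ} (T : Fin d → Equiv.Perm X) (hT' : ∀ i, Measurable ⇑(T i).symm)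
    (hT : ∀ i, MeasurePreserving (⇑(T i)) μ μ)
    (hnil : Group.IsNilpotent (Subgroup.closure (Set.range T)))
    (p : Fin d → Polynomial ℤ) :
    MaxProp μ (fun n x => (List.ofFn fun i => T i ^ (p i).eval n).prod x) := by
  have hsymm : ∀ i, MeasurePreserving (⇑(T i).symm) μ μ := by
    intro i
    exact MeasurePreserving.symm ⟨T i, (hT i).measurable, hT' i⟩ (hT i)
  obtain ⟨C, hC⟩ := Pool.Nil.orb_max_two T hT hsymm hnil p
  apply maxProp_of_maximal (fun n x => (List.ofFn fun i => T i ^ (p i).eval n).prod x) ?_ C ?_
  · intro n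
    exact (Pool.Nil.orb_mem T hT hsymm p n).1.measurable
  · intro v hv
    refine le_of_eq_of_le ?_ (hC v hv)
    apply lintegral_congr
    intro x
    congr 1
    apply iSup_congr
    intro N
    congr 1
    push_cast
    rfl

theorem maxNil (k d : ℕ) : MaxNil k d := by
  intro X _ μ _ T hT' hT hnil p _
  exact maxProp_nilp μ T hT' hT (Subgroup.isNilpotent_of_lowerCentralSeries_eq_bot hnil) p

end Pool.PinskerA
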