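import Pool.Agent.Pinsker.Char

set_option autoImplicit false
set_option warn.classDefReducibility false

/-!
# Module CharA: a σ-algebra containing all remote pasts is characteristic

Same proofs as `Pool/Agent/Pinsker/OneZero.lean` and `Pool/Agent/Pinsker/Char.lean` (copy them),
with the frame `𝔉` replaced by `φ`, and `pinsker μ 𝔉` replaced by any σ-algebra `Π ≤ m0` that
contains `tail α φ` for every finite partition `α : X → (Fin a → Fin b)` (this is the form of the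
partitions produced by `exists_simple`).
`charA_trivial`: `htriv` says that `Π` is trivial, so `μ[f_j|Π] = ∫ f_j` a.e.
`trivial_generate`: the measurable sets of measure `0` or `1` form a σ-algebra (complements,
countable unions), so if all generators have measure `0` or `1` then so do all sets of the
generated σ-algebra (`MeasurableSpace.generateFrom_induction`).
-/

open MeasureTheory Filter Topology Finset
open scoped ENNReal

namespace Pool.PinskerA

open Pool.Pinsker Pool.Pinsker.OneZero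

open Pool.Lib.Erg Pool.Lib.RM Pool.Lib.RP

variable {X : Type*} {m0 : MeasurableSpace X} {μ : Measure X} [IsProbabilityMeasure μ]
  {G : Type*} [Group G] [MulAction G X]

/-- almost everywhere statements are invariant -/
lemma ae_smulA {X : Type*} {m0 : MeasurableSpace X} {μ : Measure X}
    {G : Type*} [Group G] [MulAction G X]
    (hG : ∀ g : G, MeasurePreserving (fun x : X => g • x) μ μ) (g : G) {P : X → Prop}
    (h : ∀ᵐ x ∂μ, P x) : ∀ᵐ x ∂μ, P (g • x) :=
  (hG g).quasiMeasurePreserving.ae h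

/-- the estimate for one approximating partition -/
lemma eventually_leA {X : Type*} {m0 : MeasurableSpace X} {μ : Measure X} [IsProbabilityMeasure μ]
    {G : Type*} [Group G] [MulAction G X]
    (hG : ∀ g : G, MeasurePreserving (fun x : X => g • x) μ μ) (φ : G → ℝ) (hφ : ∀ a b, φ (a * b) = φ a + φ b)
    (mP : MeasurableSpace X) (hP : mP ≤ m0)
    (htail : ∀ (a b : ℕ) (α : X → (Fin a → Fin b)), FM m0 α → tail α φ ≤ mP)
    {m : ℕ} (g : Fin m → ℤ → G)
    (p : Fin m → Polynomial ℝ) (hp : ∀ j (n : ℤ), φ (g j n) = (p j).eval (n : ℝ))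
    (h1 : ∀ j, ∃ a b : ℝ, (p j).eval a ≠ (p j).eval b)
    (h2 : ∀ i j, i ≠ j → ∃ a b : ℝ, (p j - p i).eval a ≠ (p j - p i).eval b)
    (hmax : ∀ j, MaxProp μ (fun n x => g j n • x))
    (F : Fin m → X → ℂ) (hF : ∀ j, Measurable[m0] (F j)) (D : ℝ) (hD : 1 ≤ D)
    (hFD : ∀ j x, ‖F j x‖ ≤ D)
    (a : Fin m) (ha : μ[F a|mP] =ᵐ[μ] 0) (δ : ℝ) (hδ : 0 < δ) :
    ∀ᵐ x ∂μ, ∀ᶠ N : ℕ in atTop, ‖(2 * (N : ℂ) + 1)⁻¹ * ∑ n ∈ Finset.Icc (-(N : ℤ)) N,
      ∏ j, F j (g j n • x)‖ ≤ (D ^ m * (m + 1) + 1) * δ := by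
  have hD0 : (0 : ℝ) ≤ D := by linarith
  obtain ⟨k, α, h, hα, hhD, hFh⟩ := exists_simple F hF D hD0 hFD δ hδ
  have htailT := tail_thm hG φ hφ α hα g p hp h1 h2 hmax h
  set e : Fin m → X → ℂ := fun j => μ[fun x => h j (α x)|tail α φ] with he
  have hle : tail α φ ≤ mP := htail _ _ α hα
  have hpl : mP ≤ m0 := hP
  have hmeas : ∀ j, Measurable[m0] (fun x => h j (α x)) := by
    intro j s hs
    exact hα ((h j) ⁻¹' s)
  have hint : ∀ j, Integrable (fun x => h j (α x)) μ := fun j =>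
    Integrable.of_bound (hmeas j).aestronglyMeasurable D (Eventually.of_forall fun x => hhD j _)
  have hintF : ∀ j, Integrable (F j) μ := fun j =>
    Integrable.of_bound (hF j).aestronglyMeasurable D (Eventually.of_forall fun x => hFD j x)
  have heD : ∀ᵐ x ∂μ, ∀ j, ‖e j x‖ ≤ D := by
    rw [ae_all_iff]
    intro j
    exact condExp_bdd _ _ D hD0 (Eventually.of_forall fun x => hhD j _)
  have hea : ∀ᵐ x ∂μ, ‖e a x‖ ≤ δ := by
    have hPx : ∀ᵐ x ∂μ, ‖(μ[fun x => h a (α x)|mP]) x‖ ≤ δ := by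
      have e1 : μ[(fun x => h a (α x)) - F a|mP] =ᵐ[μ]
          μ[fun x => h a (α x)|mP] - μ[F a|mP] :=
        condExp_sub (hint a) (hintF a) _
      have e2 : ∀ᵐ x ∂μ, ‖(μ[(fun x => h a (α x)) - F a|mP]) x‖ ≤ δ := by
        refine condExp_bdd _ _ δ hδ.le (Eventually.of_forall fun x => ?_)
        rw [Pi.sub_apply, norm_sub_rev]
        exact hFh a x
      filter_upwards [e1, e2, ha] with x h1 h2 h3
      rw [h1, Pi.sub_apply, h3] at h2
      simpa using h2
    have e3 : μ[μ[fun x => h a (α x)|mP]|tail α φ] =ᵐ[μ] e a :=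
      condExp_condExp_of_le hle hpl
    have e4 := condExp_bdd (μ := μ) (tail α φ) _ δ hδ.le hPx
    filter_upwards [e3, e4] with x h3 h4
    rw [← h3]
    exact h4
  have hall : ∀ᵐ x ∂μ, ∀ (i : Fin m) (n : ℤ), (∀ j, ‖e j (g i n • x)‖ ≤ D) ∧ ‖e a (g i n • x)‖ ≤ δ := by
    rw [ae_all_iff]
    intro i
    rw [ae_all_iff]
    intro n
    exact ae_smulA hG (g i n) (heD.and hea)
  filter_upwards [htailT, hall] with x hx1 hx2
  have hev := (tendsto_zero_iff_norm_tendsto_zero.1 hx1).eventually (gt_mem_nhds hδ)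
  filter_upwards [hev] with N hN
  have hsplit : (2 * (N : ℂ) + 1)⁻¹ * ∑ n ∈ Finset.Icc (-(N : ℤ)) N, ∏ j, F j (g j n • x) =
      (2 * (N : ℂ) + 1)⁻¹ * ∑ n ∈ Finset.Icc (-(N : ℤ)) N,
        (∏ j, F j (g j n • x) - ∏ j, h j (α (g j n • x))) +
      (2 * (N : ℂ) + 1)⁻¹ * ∑ n ∈ Finset.Icc (-(N : ℤ)) N,
        (∏ j, h j (α (g j n • x)) - ∏ j, e j (g j n • x)) +
      (2 * (N : ℂ) + 1)⁻¹ * ∑ n ∈ Finset.Icc (-(N : ℤ)) N, ∏ j, e j (g j n • x) := by
    rw [← mul_add, ← mul_add, ← Finset.sum_add_distrib, ← Finset.sum_add_distrib]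
    congr 1
    refine Finset.sum_congr rfl fun n _ => ?_
    ring
  have b1 : ‖(2 * (N : ℂ) + 1)⁻¹ * ∑ n ∈ Finset.Icc (-(N : ℤ)) N,
        (∏ j, F j (g j n • x) - ∏ j, h j (α (g j n • x)))‖ ≤ D ^ m * (m * δ) := by
    refine avg_two_le _ _ (fun n => ?_) N
    have h10 := norm_prod_sub (univ : Finset (Fin m)) (fun j => F j (g j n • x))
      (fun j => h j (α (g j n • x))) D hD (fun j => hFD j _) (fun j => hhD j _)
    rw [Finset.card_univ, Fintype.card_fin] at h10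
    refine h10.trans (mul_le_mul_of_nonneg_left ?_ (by positivity))
    refine (Finset.sum_le_sum fun j _ => hFh j (g j n • x)).trans ?_
    simp
  have b3 : ‖(2 * (N : ℂ) + 1)⁻¹ * ∑ n ∈ Finset.Icc (-(N : ℤ)) N, ∏ j, e j (g j n • x)‖ ≤
      D ^ m * δ := by
    refine avg_two_le _ _ (fun n => ?_) N
    exact prod_le a (fun j => e j (g j n • x)) D δ hD hδ.le (fun j => (hx2 j n).1 j) (hx2 a n).2
  rw [hsplit]
  refine (norm_add₃_le).trans ?_
  have b2 := hN.le
  calc _ ≤ D ^ m * (m * δ) + δ + D ^ m * δ := add_le_add (add_le_add b1 b2) b3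
    _ = (D ^ m * (m + 1) + 1) * δ := by ring

theorem one_zeroA {X : Type*} {m0 : MeasurableSpace X} {μ : Measure X} [IsProbabilityMeasure μ]
    {G : Type*} [Group G] [MulAction G X]
    (hG : ∀ g : G, MeasurePreserving (fun x : X => g • x) μ μ) (φ : G → ℝ) (hφ : ∀ a b, φ (a * b) = φ a + φ b)
    (mP : MeasurableSpace X) (hP : mP ≤ m0)
    (htail : ∀ (a b : ℕ) (α : X → (Fin a → Fin b)), FM m0 α → tail α φ ≤ mP)
    {m : ℕ} (g : Fin m → ℤ → G)
    (p : Fin m → Polynomial ℝ) (hp : ∀ j (n : ℤ), φ (g j n) = (p j).eval (n : ℝ))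
    (h1 : ∀ j, ∃ a b : ℝ, (p j).eval a ≠ (p j).eval b)
    (h2 : ∀ i j, i ≠ j → ∃ a b : ℝ, (p j - p i).eval a ≠ (p j - p i).eval b)
    (hmax : ∀ j, MaxProp μ (fun n x => g j n • x))
    (F : Fin m → X → ℂ) (hF : ∀ j, Measurable[m0] (F j)) (D : ℝ) (hFD : ∀ j x, ‖F j x‖ ≤ D)
    (a : Fin m) (ha : μ[F a|mP] =ᵐ[μ] 0) :
    ∀ᵐ x ∂μ, Tendsto (fun N : ℕ => (2 * (N : ℂ) + 1)⁻¹ * ∑ n ∈ Finset.Icc (-(N : ℤ)) N,
      ∏ j, F j (g j n • x)) atTop (𝓝 0) := by
  set D' := max D 1 with hD'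
  have hev : ∀ i : ℕ, ∀ᵐ x ∂μ, ∀ᶠ N : ℕ in atTop,
      ‖(2 * (N : ℂ) + 1)⁻¹ * ∑ n ∈ Finset.Icc (-(N : ℤ)) N, ∏ j, F j (g j n • x)‖ ≤
        (D' ^ m * (m + 1) + 1) * (1 / ((i : ℝ) + 1)) := fun i =>
    eventually_leA hG φ hφ mP hP htail g p hp h1 h2 hmax F hF D' (le_max_right _ _)
      (fun j x => (hFD j x).trans (le_max_left _ _)) a ha (1 / ((i : ℝ) + 1)) (by positivity)
  rw [← ae_all_iff] at hev
  filter_upwards [hev] with x hx
  rw [tendsto_zero_iff_norm_tendsto_zero]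
  have hlim : Tendsto (fun i : ℕ => (D' ^ m * (m + 1) + 1) * (1 / ((i : ℝ) + 1))) atTop
      (𝓝 ((D' ^ m * (m + 1) + 1) * 0)) :=
    tendsto_one_div_add_atTop_nhds_zero_nat.const_mul _
  rw [mul_zero] at hlim
  rw [Metric.tendsto_atTop]
  intro ε hε
  obtain ⟨i, hi⟩ := (hlim.eventually (gt_mem_nhds hε)).exists
  obtain ⟨N0, hN0⟩ := eventually_atTop.1 (hx i)
  refine ⟨N0, fun N hN => ?_⟩
  rw [dist_zero_right, norm_norm]
  exact (hN0 N hN).trans_lt hi

theorem charA_bounded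
    (hG : ∀ g : G, MeasurePreserving (fun x : X => g • x) μ μ) (φ : G → ℝ) (hφ : ∀ a b, φ (a * b) = φ a + φ b)
    (mP : MeasurableSpace X) (hP : mP ≤ m0)
    (htail : ∀ (a b : ℕ) (α : X → (Fin a → Fin b)), FM m0 α → tail α φ ≤ mP)
    {m : ℕ} (g : Fin m → ℤ → G)
    (p : Fin m → Polynomial ℝ) (hp : ∀ j (n : ℤ), φ (g j n) = (p j).eval (n : ℝ))
    (h1 : ∀ j, ∃ a b : ℝ, (p j).eval a ≠ (p j).eval b)
    (h2 : ∀ i j, i ≠ j → ∃ a b : ℝ, (p j - p i).eval a ≠ (p j - p i).eval b)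
    (hmax : ∀ j, MaxProp μ (fun n x => g j n • x))
    (f : Fin m → X → ℂ) (hf : ∀ j, Measurable[m0] (f j)) (D : ℝ) (hfD : ∀ j x, ‖f j x‖ ≤ D) :
    ∀ᵐ x ∂μ, Tendsto (fun N : ℕ => (2 * (N : ℂ) + 1)⁻¹ * ∑ n ∈ Finset.Icc (-(N : ℤ)) N,
      (∏ j, f j (g j n • x) - ∏ j, (μ[f j|mP]) (g j n • x)))
      atTop (𝓝 0) := by
  classical
  choose e hem heD hee using fun j =>
    exists_version (μ := μ) (mP) hP (f j) (hf j) D (hfD j)
  have hem0 : ∀ j, Measurable[m0] (e j) := fun j u hu => hP _ (hem j hu)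
  set F : Fin m → Fin m → X → ℂ := fun k j x =>
    if j < k then e j x else if j = k then f j x - e j x else f j x with hFdef
  have hFm : ∀ k j, Measurable[m0] (F k j) := by
    intro k j
    simp only [hFdef]
    by_cases hjk : j < k
    · simp only [hjk, if_true]; exact hem0 j
    · by_cases hjk' : j = k
      · simp only [hjk', if_true, if_false, lt_irrefl]
        exact (hf k).sub (hem0 k)
      · simp only [hjk, hjk', if_false]; exact hf j
  have hFD : ∀ k j x, ‖F k j x‖ ≤ D + D := by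
    intro k j x
    have hD0 : 0 ≤ D := (norm_nonneg _).trans (hfD j x)
    simp only [hFdef]
    split_ifs
    · linarith [heD j x]
    · exact (norm_sub_le _ _).trans (add_le_add (hfD j x) (heD j x))
    · linarith [hfD j x]
  have hzero : ∀ k, μ[F k k|mP] =ᵐ[μ] 0 := by
    intro k
    have e0 : F k k = f k - e k := by
      funext x
      simp [hFdef]
    have hfi : Integrable (f k) μ :=
      Integrable.of_bound (hf k).aestronglyMeasurable D (Eventually.of_forall (hfD k))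
    have hei : Integrable (e k) μ :=
      Integrable.of_bound (hem0 k).aestronglyMeasurable D (Eventually.of_forall (heD k))
    have e1 := condExp_sub (μ := μ) hfi hei (mP)
    have e2 : μ[e k|mP] = e k :=
      condExp_of_stronglyMeasurable hP (hem k).stronglyMeasurable hei
    rw [e0]
    rw [e2] at e1
    filter_upwards [e1, hee k] with x hx1 hx2
    rw [hx1, Pi.sub_apply, hx2, sub_self]
    rfl
  have hone : ∀ᵐ x ∂μ, ∀ k : Fin m, Tendsto (fun N : ℕ => (2 * (N : ℂ) + 1)⁻¹ *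
      ∑ n ∈ Finset.Icc (-(N : ℤ)) N, ∏ j, F k j (g j n • x)) atTop (𝓝 0) := by
    rw [ae_all_iff]
    intro k
    exact one_zeroA hG φ hφ mP hP htail g p hp h1 h2 hmax (F k) (hFm k) (D + D) (hFD k) k (hzero k)
  have hall : ∀ᵐ x ∂μ, ∀ (j : Fin m) (n : ℤ),
      e j (g j n • x) = (μ[f j|mP]) (g j n • x) := by
    rw [ae_all_iff]
    intro j
    rw [ae_all_iff]
    intro n
    exact ae_smulA hG (g j n) (hee j)
  filter_upwards [hone, hall] with x hx1 hx2
  have h3 := tendsto_finsetSum (Finset.univ : Finset (Fin m)) (fun k _ => hx1 k)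
  simp only [Finset.sum_const_zero] at h3
  refine h3.congr fun N => ?_
  rw [← Finset.mul_sum, Finset.sum_comm]
  congr 1
  apply Finset.sum_congr rfl
  intro n _
  have h4 : ∏ j, (μ[f j|mP]) (g j n • x) = ∏ j, e j (g j n • x) :=
    Finset.prod_congr rfl fun j _ => (hx2 j n).symm
  rw [h4, prod_tele m (fun j => f j (g j n • x)) (fun j => e j (g j n • x))]

theorem charA
    (hG : ∀ g : G, MeasurePreserving (fun x : X => g • x) μ μ) (φ : G → ℝ) (hφ : ∀ a b, φ (a * b) = φ a + φ b)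
    (mP : MeasurableSpace X) (hP : mP ≤ m0)
    (htail : ∀ (a b : ℕ) (α : X → (Fin a → Fin b)), FM m0 α → tail α φ ≤ mP)
    {m : ℕ} (g : Fin m → ℤ → G)
    (p : Fin m → Polynomial ℝ) (hp : ∀ j (n : ℤ), φ (g j n) = (p j).eval (n : ℝ))
    (h1 : ∀ j, ∃ a b : ℝ, (p j).eval a ≠ (p j).eval b)
    (h2 : ∀ i j, i ≠ j → ∃ a b : ℝ, (p j - p i).eval a ≠ (p j - p i).eval b)
    (hmax : ∀ j, MaxProp μ (fun n x => g j n • x))
    (f : Fin m → X → ℂ) (hf : ∀ j, MemLp (f j) ∞ μ) :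
    ∀ᵐ x ∂μ, Tendsto (fun N : ℕ => (2 * (N : ℂ) + 1)⁻¹ * ∑ n ∈ Finset.Icc (-(N : ℤ)) N,
      (∏ j, f j (g j n • x) - ∏ j, (μ[f j|mP]) (g j n • x)))
      atTop (𝓝 0) := by
  classical
  set C : ℝ := 1 + ∑ j, (eLpNorm (f j) ∞ μ).toReal with hC
  have hfC : ∀ j, ∀ᵐ x ∂μ, ‖f j x‖ ≤ C := by
    intro j
    have h2 := ae_le_eLpNormEssSup (f := f j) (μ := μ)
    filter_upwards [h2] with x hx
    rw [← eLpNorm_exponent_top] at hx
    have h3 := ENNReal.toReal_mono (hf j).eLpNorm_ne_top hx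
    have h4 : (eLpNorm (f j) ∞ μ).toReal ≤ ∑ j, (eLpNorm (f j) ∞ μ).toReal :=
      Finset.single_le_sum (f := fun j => (eLpNorm (f j) ∞ μ).toReal)
        (fun j _ => ENNReal.toReal_nonneg) (Finset.mem_univ j)
    have h5 : ‖f j x‖ ≤ (eLpNorm (f j) ∞ μ).toReal := by simpa using h3
    linarith
  have hC0 : 0 ≤ C := by
    have : 0 ≤ ∑ j, (eLpNorm (f j) ∞ μ).toReal :=
      Finset.sum_nonneg fun j _ => ENNReal.toReal_nonneg
    linarith
  have hver : ∀ j, ∃ F : X → ℂ, Measurable[m0] F ∧ (∀ x, ‖F x‖ ≤ C) ∧ F =ᵐ[μ] f j := by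
    intro j
    set f0 := (hf j).1.mk (f j) with hf0
    have hm : Measurable[m0] f0 := (hf j).1.stronglyMeasurable_mk.measurable
    have hset : MeasurableSet[m0] {x | ‖f0 x‖ ≤ C} := by
      have h2 : MeasurableSet {z : ℂ | ‖z‖ ≤ C} :=
        (isClosed_le continuous_norm continuous_const).measurableSet
      exact hm h2
    refine ⟨fun x => if ‖f0 x‖ ≤ C then f0 x else 0, Measurable.ite hset hm measurable_const,
      fun x => ?_, ?_⟩
    · by_cases h : ‖f0 x‖ ≤ C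
      · simp only [h, if_true]
      · simp only [h, if_false, norm_zero]; exact hC0
    · filter_upwards [(hf j).1.ae_eq_mk, hfC j] with x hx1 hx2
      rw [hx1] at hx2
      simp only [hf0, hx2, if_true]
      exact hx1.symm
  choose F hFm hFC hFf using hver
  have hcond : ∀ j, μ[F j|mP] =ᵐ[μ] μ[f j|mP] := fun j =>
    condExp_congr_ae (hFf j)
  have hall : ∀ᵐ x ∂μ, ∀ (j : Fin m) (n : ℤ), F j (g j n • x) = f j (g j n • x) ∧
      (μ[F j|mP]) (g j n • x) =
        (μ[f j|mP]) (g j n • x) := by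
    rw [ae_all_iff]
    intro j
    rw [ae_all_iff]
    intro n
    have : ∀ᵐ y ∂μ, F j y = f j y ∧
        (μ[F j|mP]) y = (μ[f j|mP]) y := by
      filter_upwards [hFf j, hcond j] with y h3 h4
      exact ⟨h3, h4⟩
    exact ae_smulA hG (g j n) (this)
  filter_upwards [charA_bounded hG φ hφ mP hP htail g p hp h1 h2 hmax F hFm C hFC, hall] with x hx1 hx2
  refine hx1.congr fun N => ?_
  congr 1
  apply Finset.sum_congr rfl
  intro n _
  congr 1
  · exact Finset.prod_congr rfl fun j _ => (hx2 j n).1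
  · exact Finset.prod_congr rfl fun j _ => (hx2 j n).2

theorem charA_trivial
    (hG : ∀ g : G, MeasurePreserving (fun x : X => g • x) μ μ) (φ : G → ℝ) (hφ : ∀ a b, φ (a * b) = φ a + φ b)
    (mP : MeasurableSpace X) (hP : mP ≤ m0)
    (htail : ∀ (a b : ℕ) (α : X → (Fin a → Fin b)), FM m0 α → tail α φ ≤ mP)
    {m : ℕ} (g : Fin m → ℤ → G)
    (p : Fin m → Polynomial ℝ) (hp : ∀ j (n : ℤ), φ (g j n) = (p j).eval (n : ℝ))
    (h1 : ∀ j, ∃ a b : ℝ, (p j).eval a ≠ (p j).eval b)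
    (h2 : ∀ i j, i ≠ j → ∃ a b : ℝ, (p j - p i).eval a ≠ (p j - p i).eval b)
    (hmax : ∀ j, MaxProp μ (fun n x => g j n • x))
    (f : Fin m → X → ℂ) (hf : ∀ j, MemLp (f j) ∞ μ)
    (htriv : ∀ B : Set X, MeasurableSet[mP] B → μ B = 0 ∨ μ B = 1) :
    ∀ᵐ x ∂μ, Tendsto (fun N : ℕ => (2 * (N : ℂ) + 1)⁻¹ * ∑ n ∈ Finset.Icc (-(N : ℤ)) N,
      ∏ j, f j (g j n • x)) atTop (𝓝 (∏ j, ∫ x, f j x ∂μ)) := by
  have hconst : ∀ j, μ[f j|mP] =ᵐ[μ] fun _ => ∫ x, f j x ∂μ := by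
    intro j
    have hfi : Integrable (f j) μ := (hf j).integrable (by simp)
    symm
    apply ae_eq_condExp_of_forall_setIntegral_eq hP hfi
    · intro s _ _
      exact (integrable_const _).integrableOn
    · intro s hs _
      rcases htriv s hs with h | h
      · rw [Measure.restrict_eq_zero.2 h]
        simp
      · have h3 : s =ᵐ[μ] Set.univ := by
          rw [ae_eq_univ]
          rw [prob_compl_eq_zero_iff (hP _ hs)]
          exact h
        rw [Measure.restrict_congr_set h3, Measure.restrict_univ]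
        simp
    · exact (@stronglyMeasurable_const _ _ (mP) _ _).aestronglyMeasurable
  have hall2 : ∀ᵐ x ∂μ, ∀ (j : Fin m) (n : ℤ),
      (μ[f j|mP]) (g j n • x) = ∫ x, f j x ∂μ := by
    rw [ae_all_iff]
    intro j
    rw [ae_all_iff]
    intro n
    exact ae_smulA hG (g j n) (hconst j)
  filter_upwards [charA hG φ hφ mP hP htail g p hp h1 h2 hmax f hf, hall2] with x hx1 hx2
  have h3 := hx1.add_const (∏ j, ∫ x, f j x ∂μ)
  rw [zero_add] at h3
  refine h3.congr fun N => ?_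
  have hne : (2 * (N : ℂ) + 1) ≠ 0 := by exact_mod_cast Nat.succ_ne_zero (2 * N)
  have h4 : ∑ n ∈ Finset.Icc (-(N : ℤ)) N,
      (∏ j, f j (g j n • x) - ∏ j, (μ[f j|mP]) (g j n • x)) =
      ∑ n ∈ Finset.Icc (-(N : ℤ)) N, ∏ j, f j (g j n • x) -
        (2 * (N : ℂ) + 1) * ∏ j, ∫ x, f j x ∂μ := by
    rw [Finset.sum_sub_distrib]
    congr 1
    have h5 : ∀ n ∈ Finset.Icc (-(N : ℤ)) N,
        ∏ j, (μ[f j|mP]) (g j n • x) =
        ∏ j, ∫ x, f j x ∂μ := fun n _ => Finset.prod_congr rfl fun j _ => hx2 j n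
    rw [Finset.sum_congr rfl h5, Finset.sum_const, Int.card_Icc, nsmul_eq_mul]
    congr 1
    have : ((N : ℤ) + 1 - -(N : ℤ)).toNat = 2 * N + 1 := by omega
    rw [this]
    push_cast
    ring
  rw [h4, mul_sub, inv_mul_cancel_left₀ hne, sub_add_cancel]

theorem trivial_generate (𝒢 : Set (Set X)) (h𝒢 : ∀ B ∈ 𝒢, MeasurableSet[m0] B)
    (h : ∀ B ∈ 𝒢, μ B = 0 ∨ μ B = 1) (B : Set X)
    (hB : MeasurableSet[MeasurableSpace.generateFrom 𝒢] B) : μ B = 0 ∨ μ B = 1 := by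
  have key : MeasurableSet[m0] B ∧ (μ B = 0 ∨ μ B = 1) := by
    refine MeasurableSpace.generateFrom_induction (C := 𝒢)
      (p := fun s _ => MeasurableSet[m0] s ∧ (μ s = 0 ∨ μ s = 1)) ?_ ?_ ?_ ?_ B hB
    · intro s hs _
      exact ⟨h𝒢 s hs, h s hs⟩
    · exact ⟨MeasurableSet.empty, Or.inl measure_empty⟩
    · rintro s _ ⟨hs, h0 | h1⟩
      · exact ⟨hs.compl, Or.inr (by rw [prob_compl_eq_one_iff hs]; exact h0)⟩
      · exact ⟨hs.compl, Or.inl (by rw [prob_compl_eq_zero_iff hs]; exact h1)⟩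
    · intro s _ hs
      refine ⟨MeasurableSet.iUnion fun n => (hs n).1, ?_⟩
      by_cases hall : ∀ n, μ (s n) = 0
      · exact Or.inl (measure_iUnion_null hall)
      · push Not at hall
        obtain ⟨n, hn⟩ := hall
        right
        have h1 : μ (s n) = 1 := (hs n).2.resolve_left hn
        refine le_antisymm prob_le_one ?_
        rw [← h1]
        exact measure_mono (Set.subset_iUnion s n)
  exact key.2

end Pool.PinskerA
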