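import Pool.Agent.Pinsker.Names

set_option autoImplicit false
set_option warn.classDefReducibility false

/-!
# The Pinsker factor for actions of amenable (nilpotent) groups: definitions

As in `Pool/Agent/Pinsker`, but without an order on the group: the order is replaced by Shearer's
inequality.
-/

open MeasureTheory Filter Topology Finset

namespace Pool.PinskerA

open Pool.Pinsker

/-- Zero entropy: the infimum of `H(name β F) / |F|` over all nonempty finite `F ⊆ G` is zero. -/
def ZeroInf {X : Type*} {m0 : MeasurableSpace X} (μ : Measure X) (G : Type*) [Group G]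
    [MulAction G X] [DecidableEq G] {ι : Type*} [Fintype ι] (β : X → ι) : Prop :=
  ∀ ε : ℝ, 0 < ε → ∃ F : Finset G, 0 < F.card ∧ ent μ (name β F) ≤ ε * (F.card : ℝ)

/-- zero entropy along a sequence of finite sets -/
def ZeroSeq {X G : Type*} {m0 : MeasurableSpace X} (μ : Measure X) [Group G]
    [MulAction G X] [DecidableEq G] (Λ : ℕ → Finset G) {ι : Type*} [Fintype ι] (β : X → ι) :
    Prop :=
  Tendsto (fun n : ℕ => ent μ (name β (Λ n)) / ((Λ n).card : ℝ)) atTop (𝓝 0)

/-- The Pinsker σ-algebra: generated by the measurable sets of zero entropy. -/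
def pinskerG {X : Type*} {m0 : MeasurableSpace X} (μ : Measure X) (G : Type*) [Group G]
    [MulAction G X] [DecidableEq G] : MeasurableSpace X :=
  MeasurableSpace.generateFrom {B | MeasurableSet[m0] B ∧ ZeroInf μ G (fun x => x ∈ B)}

/-- the strict past of `α` for the height `φ` -/
def spast {X G ι : Type*} [Group G] [MulAction G X] (α : X → ι) (φ : G → ℝ) :
    MeasurableSpace X :=
  ⨆ g ∈ {g : G | φ g < 0}, sg α g

/-- the bad elements of `Λ` for left multiplication by `F` -/
def bad {G : Type*} [Group G] [DecidableEq G] (F Λ : Finset G) : Finset G :=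
  Λ.filter fun g => ¬ (F.image (fun f => f * g) ⊆ Λ)

/-- the Følner property of a sequence -/
def Folner {G : Type*} [Group G] [DecidableEq G] (Λ : ℕ → Finset G) : Prop :=
  (∀ n, 0 < (Λ n).card) ∧ ∀ F : Finset G,
    Tendsto (fun n : ℕ => ((bad F (Λ n)).card : ℝ) / ((Λ n).card : ℝ)) atTop (𝓝 0)

/-- amenability (Følner's condition) -/
def Fol (G : Type*) [Group G] [DecidableEq G] : Prop :=
  ∀ (F : Finset G) (ε : ℝ), 0 < ε → ∃ Λ : Finset G, 0 < Λ.card ∧
    ((bad F Λ).card : ℝ) ≤ ε * (Λ.card : ℝ)

end Pool.PinskerA
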