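import Pool.Agent.PinskerA.Defs

/-!
# Module FolNil: nilpotent groups are amenable

* `fol_comm` (abelian groups).  Let `F = {f_1, .., f_k}` and `Λ_n` be the set of all
  `∏ f_i^{a_i}`, `0 ≤ a_i < n` (image of `Fintype.piFinset`); `1 ≤ |Λ_n| ≤ n^k`, `Λ_n ⊆ Λ_{n+1}` and
  `F Λ_n ⊆ Λ_{n+1}` (for `n ≥ 1`).  So `bad F Λ_{n+1} ⊆ Λ_{n+1} \ Λ_n`.  If for all `n ≥ 1`
  `|Λ_{n+1}| - |Λ_n| > ε |Λ_{n+1}|` then `|Λ_{n+1}| ≥ (1 + ε) |Λ_n|` and `|Λ_n| ≥ (1+ε)^{n-1}`, which
  contradicts `|Λ_n| ≤ n^k` (exponential beats polynomial).  Hence some `Λ_{n+1}` works.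
* `fol_quot`: if `Z = Subgroup.center G` and `G ⧸ Z` satisfy `Fol` then so does `G`.  Let `F`, `ε`
  be given (`ε ≤ 1`).  Choose `Λ̄ ⊆ G ⧸ Z` for the image `F̄` of `F` and `ε/2`; let
  `s : G ⧸ Z → G` be a section (`Quotient.out`).  For `f ∈ F` and `a ∈ Λ̄`
  let `c(f,a) = (s (f̄ a))⁻¹ f s(a) ∈ Z`; let `C ⊆ Z` be the finite set of all of them, and choose
  `Λ_Z ⊆ Z` for `C` and `ε/2`.  Put `Λ = {s(a) z : a ∈ Λ̄, z ∈ Λ_Z}`, `|Λ| = |Λ̄| |Λ_Z|` (injective).
  `f s(a) z = s(f̄ a) c(f,a) z` lies in `Λ` if `f̄ a ∈ Λ̄` and `c(f,a) z ∈ Λ_Z`.  So a bad element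
  `s(a) z` has `a` bad or `z` bad: `|bad F Λ| ≤ |bad F̄ Λ̄| |Λ_Z| + |Λ̄| |bad C Λ_Z| ≤ ε |Λ|`.
* `fol_nilpotent`: `Group.nilpotent_center_quotient_ind` (induction principle in Mathlib); the
  trivial group satisfies `Fol` (`Λ = {1}`).  (DecidableEq instances: use `Classical.decEq` for the
  quotient and note that `bad` does not depend on the instance, `Subsingleton.elim`.)
* `exists_folner`: for countable `G` with `Fol G` enumerate the elements, `F_n` = the first `n`
  elements, `Λ n` for `F_n` and `ε = 1/(n+1)`; for any finite `F`, `F ⊆ F_n` for large `n`, and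
  `bad` is monotone in `F`.
-/

set_option autoImplicit false
set_option warn.classDefReducibility false

open MeasureTheory Filter Topology Finset

namespace Pool.PinskerA

/-- exponential growth beats polynomial growth -/
lemma exists_pow_lt (k : ℕ) {r : ℝ} (hr : 1 < r) : ∃ n : ℕ, ((n : ℝ) + 1) ^ k < r ^ n := by
  have h := tendsto_pow_const_div_const_pow_of_one_lt k hr
  have hr0 : 0 < r := by linarith
  have h1 : ∀ᶠ n : ℕ in atTop, (n : ℝ) ^ k / r ^ n < r⁻¹ :=
    h.eventually_lt_const (by positivity)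
  obtain ⟨N, hN⟩ := eventually_atTop.mp h1
  refine ⟨N, ?_⟩
  have h2 := hN (N + 1) (Nat.le_succ N)
  rw [div_lt_iff₀ (by positivity), pow_succ] at h2
  push_cast at h2
  calc ((N : ℝ) + 1) ^ k < r⁻¹ * (r ^ N * r) := h2
    _ = r ^ N := by field_simp

lemma bad_mono {G : Type*} [Group G] [DecidableEq G] {F F' : Finset G} (h : F ⊆ F')
    (Λ : Finset G) : bad F Λ ⊆ bad F' Λ := by
  intro g hg
  rw [bad, mem_filter] at hg ⊢
  refine ⟨hg.1, fun h1 => hg.2 ?_⟩
  exact (image_subset_image h).trans h1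

theorem fol_comm (A : Type*) [CommGroup A] [DecidableEq A] : Fol A := by
  classical
  intro F ε hε
  let Λ : ℕ → Finset A := fun n =>
    (Fintype.piFinset (fun _ : F => range n)).image (fun a => ∏ f : F, (f : A) ^ (a f))
  have hcard : ∀ n, (Λ n).card ≤ n ^ F.card := by
    intro n
    refine card_image_le.trans ?_
    rw [Fintype.card_piFinset]
    simp
  have hmono : ∀ n, Λ n ⊆ Λ (n + 1) := by
    intro n
    refine image_subset_image ?_
    intro a ha
    rw [Fintype.mem_piFinset] at ha ⊢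
    intro f
    have := mem_range.mp (ha f)
    exact mem_range.mpr (by omega)
  have hmul : ∀ n, ∀ g ∈ Λ n, ∀ f ∈ F, f * g ∈ Λ (n + 1) := by
    intro n g hg f hf
    obtain ⟨a, ha, rfl⟩ := mem_image.mp hg
    rw [Fintype.mem_piFinset] at ha
    refine mem_image.mpr ⟨fun x => a x + (if x = ⟨f, hf⟩ then 1 else 0), ?_, ?_⟩
    · rw [Fintype.mem_piFinset]
      intro x
      have := mem_range.mp (ha x)
      rw [mem_range]
      split_ifs <;> omega
    · simp only [pow_add]
      rw [prod_mul_distrib, mul_comm]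
      congr 1
      rw [Fintype.prod_eq_single (⟨f, hf⟩ : F)]
      · simp
      · intro x hx
        rw [if_neg hx, pow_zero]
  have hone : 1 ≤ (Λ 1).card := by
    rw [Nat.one_le_iff_ne_zero, ← Nat.pos_iff_ne_zero, card_pos]
    refine ⟨_, mem_image_of_mem _ (Fintype.mem_piFinset.mpr fun _ => mem_range.mpr one_pos)⟩
  by_contra hcon
  push Not at hcon
  have hpos : ∀ n, 0 < (Λ (n + 1)).card := by
    intro n
    induction n with
    | zero => exact hone
    | succ n ih => exact lt_of_lt_of_le ih (card_le_card (hmono _))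
  have hstep : ∀ n, (1 + ε) * ((Λ (n + 1)).card : ℝ) ≤ ((Λ (n + 2)).card : ℝ) := by
    intro n
    have h1 := hcon (Λ (n + 2)) (hpos (n + 1))
    have h2 : bad F (Λ (n + 2)) ⊆ Λ (n + 2) \ Λ (n + 1) := by
      intro g hg
      rw [bad, mem_filter] at hg
      rw [Finset.mem_sdiff]
      refine ⟨hg.1, fun h3 => hg.2 ?_⟩
      intro x hx
      obtain ⟨f, hf, rfl⟩ := mem_image.mp hx
      exact hmul (n + 1) g h3 f hf
    have h3 := card_le_card h2
    have h4 : (Λ (n + 2) \ Λ (n + 1)).card + (Λ (n + 1)).card = (Λ (n + 2)).card :=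
      card_sdiff_add_card_eq_card (hmono (n + 1))
    have h5 : ((bad F (Λ (n + 2))).card : ℝ) + ((Λ (n + 1)).card : ℝ) ≤
        ((Λ (n + 2)).card : ℝ) := by
      exact_mod_cast (by omega : (bad F (Λ (n + 2))).card + (Λ (n + 1)).card ≤ (Λ (n + 2)).card)
    have h6 : ((Λ (n + 1)).card : ℝ) ≤ ((Λ (n + 2)).card : ℝ) := by
      exact_mod_cast card_le_card (hmono (n + 1))
    nlinarith
  have hgrow : ∀ n, (1 + ε) ^ n ≤ ((Λ (n + 1)).card : ℝ) := by
    intro n
    induction n with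
    | zero =>
      rw [pow_zero]
      exact_mod_cast hone
    | succ n ih =>
      calc (1 + ε) ^ (n + 1) = (1 + ε) * (1 + ε) ^ n := by rw [pow_succ]; ring
        _ ≤ (1 + ε) * ((Λ (n + 1)).card : ℝ) := mul_le_mul_of_nonneg_left ih (by linarith)
        _ ≤ _ := hstep n
  obtain ⟨n, hn⟩ := exists_pow_lt F.card (r := 1 + ε) (by linarith)
  have h7 := hgrow n
  have h8 : ((Λ (n + 1)).card : ℝ) ≤ ((n : ℝ) + 1) ^ F.card := by
    exact_mod_cast hcard (n + 1)
  linarith

lemma fol_comm' (A : Type*) [Group A] [DecidableEq A] (hA : ∀ a b : A, a * b = b * a) : Fol A := by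
  let i : CommGroup A := { (inferInstance : Group A) with mul_comm := hA }
  exact @fol_comm A i _

theorem fol_quot (G : Type*) [Group G] [DecidableEq G] [DecidableEq (G ⧸ Subgroup.center G)]
    (h1 : Fol (Subgroup.center G)) (h2 : Fol (G ⧸ Subgroup.center G)) : Fol G := by
  classical
  intro F ε hε
  let π : G → G ⧸ Subgroup.center G := fun g => (g : G ⧸ Subgroup.center G)
  let s : G ⧸ Subgroup.center G → G := Quotient.out
  have hs : ∀ a, π (s a) = a := fun a => QuotientGroup.out_eq' a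
  have hπmul : ∀ a b : G, π (a * b) = π a * π b := fun a b => rfl
  have hc : ∀ (f : G) (a : G ⧸ Subgroup.center G),
      (s (π f * a))⁻¹ * (f * s a) ∈ Subgroup.center G := by
    intro f a
    rw [← QuotientGroup.eq_one_iff]
    change π ((s (π f * a))⁻¹ * (f * s a)) = 1
    have h3 : π ((s (π f * a))⁻¹) = (π (s (π f * a)))⁻¹ := rfl
    rw [hπmul, hπmul, h3, hs, hs, inv_mul_cancel]
  let c : G → G ⧸ Subgroup.center G → Subgroup.center G := fun f a =>
    ⟨(s (π f * a))⁻¹ * (f * s a), hc f a⟩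
  obtain ⟨Λ', hΛ', hbad'⟩ := h2 (F.image π) (ε / 2) (by positivity)
  obtain ⟨ΛZ, hΛZ, hbadZ⟩ := h1 ((F ×ˢ Λ').image fun p => c p.1 p.2) (ε / 2) (by positivity)
  let m : (G ⧸ Subgroup.center G) × Subgroup.center G → G := fun p => s p.1 * (p.2 : G)
  have hπm : ∀ p, π (m p) = p.1 := by
    intro p
    have h3 : π (p.2 : G) = 1 := (QuotientGroup.eq_one_iff _).mpr p.2.2
    change π (s p.1 * (p.2 : G)) = p.1
    rw [hπmul, hs, h3, mul_one]
  have hinj : Function.Injective m := by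
    intro p p' h
    have h3 : p.1 = p'.1 := by rw [← hπm p, ← hπm p', h]
    have h4 : s p.1 * (p.2 : G) = s p'.1 * (p'.2 : G) := h
    rw [h3] at h4
    exact Prod.ext h3 (Subtype.ext (mul_left_cancel h4))
  have hcard : ((Λ' ×ˢ ΛZ).image m).card = Λ'.card * ΛZ.card := by
    rw [card_image_of_injective _ hinj, card_product]
  refine ⟨(Λ' ×ˢ ΛZ).image m, ?_, ?_⟩
  · rw [hcard]
    exact Nat.mul_pos hΛ' hΛZ
  · have hsub : bad F ((Λ' ×ˢ ΛZ).image m) ⊆
        ((bad (F.image π) Λ' ×ˢ ΛZ) ∪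
          (Λ' ×ˢ bad ((F ×ˢ Λ').image fun p => c p.1 p.2) ΛZ)).image m := by
      intro g hg
      rw [bad, mem_filter] at hg
      obtain ⟨hg1, hg2⟩ := hg
      obtain ⟨p, hp, rfl⟩ := mem_image.mp hg1
      rw [mem_product] at hp
      refine mem_image_of_mem m ?_
      rw [mem_union, mem_product, mem_product]
      by_contra hcon
      push Not at hcon
      obtain ⟨hc1, hc2⟩ := hcon
      have hb1 : p.1 ∉ bad (F.image π) Λ' := fun h => hc1 h hp.2
      have hb2 := hc2 hp.1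
      have hb1' : (F.image π).image (fun f => f * p.1) ⊆ Λ' := by
        by_contra h
        exact hb1 (mem_filter.mpr ⟨hp.1, h⟩)
      have hb2' : ((F ×ˢ Λ').image fun p => c p.1 p.2).image (fun f => f * p.2) ⊆ ΛZ := by
        by_contra h
        exact hb2 (mem_filter.mpr ⟨hp.2, h⟩)
      apply hg2
      intro x hx
      obtain ⟨f, hf, rfl⟩ := mem_image.mp hx
      refine mem_image.mpr ⟨(π f * p.1, c f p.1 * p.2), ?_, ?_⟩
      · rw [mem_product]
        refine ⟨hb1' (mem_image_of_mem _ (mem_image_of_mem _ hf)), ?_⟩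
        exact hb2' (mem_image_of_mem _ (mem_image.mpr ⟨(f, p.1), mem_product.mpr ⟨hf, hp.1⟩, rfl⟩))
      · change s (π f * p.1) * (((s (π f * p.1))⁻¹ * (f * s p.1)) * (p.2 : G)) =
          f * (s p.1 * (p.2 : G))
        group
    have h3 := (card_le_card hsub).trans (card_image_le.trans (card_union_le _ _))
    rw [card_product, card_product] at h3
    have h4 : ((bad F ((Λ' ×ˢ ΛZ).image m)).card : ℝ) ≤
        ((bad (F.image π) Λ').card : ℝ) * (ΛZ.card : ℝ) +
          (Λ'.card : ℝ) * ((bad ((F ×ˢ Λ').image fun p => c p.1 p.2) ΛZ).card : ℝ) := by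
      exact_mod_cast h3
    rw [hcard]
    push_cast
    have h5 : ((bad (F.image π) Λ').card : ℝ) * (ΛZ.card : ℝ) ≤
        (ε / 2 * (Λ'.card : ℝ)) * (ΛZ.card : ℝ) :=
      mul_le_mul_of_nonneg_right hbad' (Nat.cast_nonneg _)
    have h6 : (Λ'.card : ℝ) * ((bad ((F ×ˢ Λ').image fun p => c p.1 p.2) ΛZ).card : ℝ) ≤
        (Λ'.card : ℝ) * (ε / 2 * (ΛZ.card : ℝ)) :=
      mul_le_mul_of_nonneg_left hbadZ (Nat.cast_nonneg _)
    calc ((bad F ((Λ' ×ˢ ΛZ).image m)).card : ℝ) ≤ _ := h4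
      _ ≤ (ε / 2 * (Λ'.card : ℝ)) * (ΛZ.card : ℝ) + (Λ'.card : ℝ) * (ε / 2 * (ΛZ.card : ℝ)) :=
          add_le_add h5 h6
      _ = ε * ((Λ'.card : ℝ) * (ΛZ.card : ℝ)) := by ring

theorem fol_nilpotent (G : Type*) [Group G] [DecidableEq G] [Group.IsNilpotent G] : Fol G := by
  have key : ∀ d : DecidableEq G, Fol G := by
    refine Group.nilpotent_center_quotient_ind (P := fun G _ _ => ∀ d : DecidableEq G, @Fol G _ d)
      G ?_ ?_
    · intro G _ _ d F ε hε
      refine ⟨{1}, by simp, ?_⟩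
      have h1 : bad F ({1} : Finset G) = ∅ := by
        rw [bad, filter_eq_empty_iff]
        intro g _ h
        apply h
        intro x _
        rw [mem_singleton]
        exact Subsingleton.elim _ _
      rw [h1, card_empty, Nat.cast_zero]
      positivity
    · intro G _ _ ih d
      let _ : DecidableEq (G ⧸ Subgroup.center G) := Classical.decEq _
      have hZ : Fol (Subgroup.center G) := fol_comm' (Subgroup.center G) fun a b =>
        Subtype.ext ((Subgroup.mem_center_iff.mp b.2 a.1))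
      exact fol_quot G hZ (ih inferInstance)
  exact key _

theorem exists_folner (G : Type*) [Group G] [DecidableEq G] [Countable G] (h : Fol G) :
    ∃ Λ : ℕ → Finset G, Folner Λ := by
  obtain ⟨f, hf⟩ := exists_surjective_nat G
  have h1 : ∀ n : ℕ, ∃ Λ : Finset G, 0 < Λ.card ∧
      ((bad ((range (n + 1)).image f) Λ).card : ℝ) ≤ (1 / ((n : ℝ) + 1)) * (Λ.card : ℝ) :=
    fun n => h _ _ (by positivity)
  choose Λ hΛ hbad using h1
  refine ⟨Λ, hΛ, ?_⟩
  intro F
  -- `F` is contained in the first `N` elements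
  obtain ⟨N, hN⟩ : ∃ N : ℕ, ∀ n, N ≤ n → F ⊆ (range (n + 1)).image f := by
    choose k hk using hf
    refine ⟨F.sup k, fun n hn g hg => ?_⟩
    refine mem_image.mpr ⟨k g, ?_, hk g⟩
    have h2 : k g ≤ F.sup k := le_sup hg
    exact mem_range.mpr (by omega)
  have hlim : Tendsto (fun n : ℕ => 1 / ((n : ℝ) + 1)) atTop (𝓝 0) :=
    tendsto_one_div_add_atTop_nhds_zero_nat
  refine squeeze_zero' (Eventually.of_forall fun n => by positivity) ?_ hlim
  filter_upwards [eventually_ge_atTop N] with n hn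
  have hpos : (0 : ℝ) < ((Λ n).card : ℝ) := by exact_mod_cast hΛ n
  rw [div_le_iff₀ hpos]
  refine le_trans ?_ (hbad n)
  exact_mod_cast card_le_card (bad_mono (hN n hn) (Λ n))

end Pool.PinskerA
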