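import Pool.Agent.PinskerA.Shearer
import Pool.Agent.Pinsker.Sigma

set_option autoImplicit false
set_option warn.classDefReducibility false

/-!
# Module InfRule: the infimum rule, and the Pinsker σ-algebra consists of the zero entropy sets

* `inf_rule`: for nonempty finite `F` and finite `Λ`:
  `|F| H(name β Λ) ≤ (|Λ| + |F| |bad F' Λ|) H(name β F)` with `F' = {a b⁻¹ : a, b ∈ F}`.
  Proof: `shearer_name` with `ζ` constant (`ent_eq_cent`), `k = |F|`, `S g = F g`, `A = Λ`, index set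
  `I = F⁻¹ Λ` (each `h ∈ Λ` lies in `F g` exactly for the `|F|` elements `g = f⁻¹ h`):
  `|F| H(name β Λ) ≤ Σ_{g∈I} H(name β (F g ∩ Λ)) ≤ |I| H(name β F)` (`name_factor`, `ent_factor`,
  and `H(name β (F g)) = H(name β F)` by invariance, as in `cent_name_shift`).  `|I|`: the `g ∈ I`
  with `F g ⊆ Λ` number at most `|Λ|` (`g ↦ f g` injective); the others have `f g = h ∈ Λ` for some
  `f`, and then `h ∈ bad F' Λ`, so they number at most `|F| |bad F' Λ|`.
* `zeroSeq_iff`: hence for a Følner sequence, `ZeroInf μ G β ↔ ZeroSeq μ Λ β` (`→`: if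
  `H(name β F) ≤ ε|F|` then `H(name β (Λ n)) ≤ ε(|Λ n| + |F||bad F' (Λ n)|)`, eventually
  `≤ 2ε|Λ n|`; `←`: take `F = Λ n`).
* `measurableSet_pinskerG_iff`, `pinskerG_comap`: same proofs as in `Pool/Agent/Pinsker/Sigma.lean`
  (theorems `zero_shift`, `zero_of_pinsker`, `pinsker_comap`, `measurableSet_pinsker_iff` there) with
  `Zero μ 𝔉` replaced by `ZeroSeq μ Λ`; those proofs only use the Følner property of the frame.
-/

open MeasureTheory Filter Topology Finset

namespace Pool.PinskerA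

open Pool.Pinsker

variable {X : Type*} {m0 : MeasurableSpace X} {μ : Measure X} [IsProbabilityMeasure μ]
variable {G : Type*} [Group G] [MulAction G X] [DecidableEq G]
variable {κ : Type*} [Fintype κ]

/-- the entropy of the name on `F g` is the entropy of the name on `F` -/
theorem ent_name_shift (hG : ∀ g : G, MeasurePreserving (fun x : X => g • x) μ μ)
    (α : X → κ) (hα : FM m0 α) (F : Finset G) (g : G) :
    ent μ (name α (F.image fun f => f * g)) = ent μ (name α F) := by
  have h1 := ent_comp_mp (μ := μ) (fun x => g • x) (hG g) (name α F)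
    (fm_name α F fun b _ => fun s => (hG b).measurable (hα s))
  rw [← h1]
  let e : (↥(F.image fun f => f * g) → κ) → (F → κ) :=
    fun n f => n ⟨f.1 * g, mem_image_of_mem _ f.2⟩
  have he : Function.Injective e := by
    intro n n' hn
    funext ⟨k, hk⟩
    obtain ⟨f, hf, rfl⟩ := mem_image.1 hk
    exact congrFun hn ⟨f, hf⟩
  rw [← ent_comp_inj (name α (F.image fun f => f * g)) e he]
  congr 1
  funext x f
  simp [e, name, mul_smul]

/-- the count of the index set of the infimum rule -/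
theorem card_index_le (F Λ : Finset G) (hF : 0 < F.card) :
    (Finset.image₂ (fun f h => f⁻¹ * h) F Λ).card ≤
      Λ.card + F.card * (bad (Finset.image₂ (fun a b => a * b⁻¹) F F) Λ).card := by
  classical
  set I := Finset.image₂ (fun f h => f⁻¹ * h) F Λ with hI
  set B := bad (Finset.image₂ (fun a b => a * b⁻¹) F F) Λ with hB
  obtain ⟨f0, hf0⟩ := Finset.card_pos.1 hF
  have h1 := Finset.card_filter_add_card_filter_not (s := I)
    (fun g => F.image (fun f => f * g) ⊆ Λ)
  have h2 : (I.filter fun g => F.image (fun f => f * g) ⊆ Λ).card ≤ Λ.card := by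
    apply Finset.card_le_card_of_injOn (fun g => f0 * g)
    · intro g hg
      rw [mem_coe, mem_filter] at hg
      exact mem_coe.2 (hg.2 (mem_image_of_mem _ hf0))
    · intro g _ g' _ h
      exact mul_left_cancel h
  have h3 : (I.filter fun g => ¬ (F.image (fun f => f * g) ⊆ Λ)) ⊆
      Finset.image₂ (fun f h => f⁻¹ * h) F B := by
    intro g hg
    rw [mem_filter, hI, mem_image₂] at hg
    obtain ⟨⟨f, hf, h, hh, rfl⟩, hg2⟩ := hg
    rw [mem_image₂]
    refine ⟨f, hf, h, ?_, rfl⟩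
    rw [hB, bad, mem_filter]
    refine ⟨hh, fun hsub => hg2 ?_⟩
    intro x hx
    obtain ⟨f', hf', rfl⟩ := mem_image.1 hx
    apply hsub
    rw [mem_image]
    exact ⟨f' * f⁻¹, mem_image₂_of_mem hf' hf, by group⟩
  have h4 := (Finset.card_le_card h3).trans (Finset.card_image₂_le _ F B)
  omega

/-- the infimum rule for finite sets -/
theorem inf_rule (hG : ∀ g : G, MeasurePreserving (fun x : X => g • x) μ μ)
    (β : X → κ) (hβ : FM m0 β) (F Λ : Finset G) (hF : 0 < F.card) :
    (F.card : ℝ) * ent μ (name β Λ) ≤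
      ((Λ.card : ℝ) + (F.card : ℝ) *
        ((bad (Finset.image₂ (fun a b => a * b⁻¹) F F) Λ).card : ℝ)) * ent μ (name β F) := by
  classical
  set I := Finset.image₂ (fun f h => f⁻¹ * h) F Λ with hI
  have hfm : ∀ B : Finset G, FM m0 (name β B) := fun B => fm_name β B fun g _ => fm_act hG β hβ g
  have h1 := shearer_name (μ := μ) hG β hβ (fun _ : X => ()) (fun _ => MeasurableSet.const _)
    F.card I (fun g => F.image (fun f => f * g)) Λ (by
      intro a ha
      apply Finset.card_le_card_of_injOn (fun f => f⁻¹ * a)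
      · intro f hf
        rw [mem_coe, mem_filter]
        refine ⟨mem_image₂_of_mem hf ha, ?_⟩
        rw [mem_image]
        exact ⟨f, hf, by group⟩
      · intro f _ f' _ h
        exact inv_injective (mul_right_cancel h))
  rw [← ent_eq_cent _ (hfm Λ)] at h1
  have h2 : ∑ g ∈ I, cent μ (name β ((F.image (fun f => f * g)) ∩ Λ)) (fun _ : X => ()) ≤
      ∑ _g ∈ I, ent μ (name β F) := by
    apply Finset.sum_le_sum
    intro g _
    rw [← ent_eq_cent _ (hfm _), ← ent_name_shift hG β hβ F g]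
    obtain ⟨e, he⟩ := name_factor β (F.image (fun f => f * g)) ((F.image (fun f => f * g)) ∩ Λ)
      Finset.inter_subset_left (X := X)
    exact ent_factor _ _ (hfm _) e he
  rw [Finset.sum_const, nsmul_eq_mul] at h2
  have h3 : (I.card : ℝ) ≤ (Λ.card : ℝ) + (F.card : ℝ) *
      ((bad (Finset.image₂ (fun a b => a * b⁻¹) F F) Λ).card : ℝ) := by
    exact_mod_cast card_index_le F Λ hF
  exact (h1.trans h2).trans (mul_le_mul_of_nonneg_right h3 (ent_nonneg _))

theorem zeroSeq_iff (hG : ∀ g : G, MeasurePreserving (fun x : X => g • x) μ μ)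
    (Λ : ℕ → Finset G) (hΛ : Folner Λ) (β : X → κ) (hβ : FM m0 β) :
    ZeroInf μ G β ↔ ZeroSeq μ Λ β := by
  constructor
  · intro h
    rw [ZeroSeq, Metric.tendsto_atTop]
    intro ε hε
    obtain ⟨F, hF, hFε⟩ := h (ε / 3) (by positivity)
    have hF0 : (0 : ℝ) < (F.card : ℝ) := by exact_mod_cast hF
    have h1 := hΛ.2 (Finset.image₂ (fun a b => a * b⁻¹) F F)
    rw [Metric.tendsto_atTop] at h1
    obtain ⟨N, hN⟩ := h1 (1 / (F.card : ℝ)) (by positivity)
    refine ⟨N, fun n hn => ?_⟩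
    have hpos : (0 : ℝ) < ((Λ n).card : ℝ) := by exact_mod_cast hΛ.1 n
    have h2 := hN n hn
    rw [Real.dist_eq, sub_zero, abs_of_nonneg (by positivity), div_lt_iff₀ hpos] at h2
    have h3 := inf_rule hG β hβ F (Λ n) hF
    set b : ℝ := ((bad (Finset.image₂ (fun a b => a * b⁻¹) F F) (Λ n)).card : ℝ) with hb
    have hb0 : 0 ≤ b := Nat.cast_nonneg _
    have h4 : (F.card : ℝ) * ent μ (name β (Λ n)) ≤
        (F.card : ℝ) * ((((Λ n).card : ℝ) + (F.card : ℝ) * b) * (ε / 3)) := by
      refine h3.trans ?_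
      have h5 : 0 ≤ ((Λ n).card : ℝ) + (F.card : ℝ) * b := by positivity
      calc (((Λ n).card : ℝ) + (F.card : ℝ) * b) * ent μ (name β F)
          ≤ (((Λ n).card : ℝ) + (F.card : ℝ) * b) * (ε / 3 * (F.card : ℝ)) :=
            mul_le_mul_of_nonneg_left hFε h5
        _ = (F.card : ℝ) * ((((Λ n).card : ℝ) + (F.card : ℝ) * b) * (ε / 3)) := by ring
    have h5 := le_of_mul_le_mul_left h4 hF0
    have h6 : (F.card : ℝ) * b < ((Λ n).card : ℝ) := by
      calc (F.card : ℝ) * b < (F.card : ℝ) * (1 / (F.card : ℝ) * ((Λ n).card : ℝ)) :=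
            mul_lt_mul_of_pos_left h2 hF0
        _ = ((Λ n).card : ℝ) := by field_simp
    rw [Real.dist_eq, sub_zero, abs_of_nonneg (div_nonneg (ent_nonneg _) hpos.le),
      div_lt_iff₀ hpos]
    nlinarith
  · intro h ε hε
    rw [ZeroSeq, Metric.tendsto_atTop] at h
    obtain ⟨N, hN⟩ := h ε hε
    refine ⟨Λ N, hΛ.1 N, ?_⟩
    have hpos : (0 : ℝ) < ((Λ N).card : ℝ) := by exact_mod_cast hΛ.1 N
    have h1 := hN N le_rfl
    rw [Real.dist_eq, sub_zero, abs_of_nonneg (div_nonneg (ent_nonneg _) hpos.le),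
      div_lt_iff₀ hpos] at h1
    exact h1.le

omit [IsProbabilityMeasure μ] in
theorem pinskerG_le : pinskerG μ G (X := X) ≤ m0 :=
  MeasurableSpace.generateFrom_le fun _ hB => hB.1

theorem zero_of_pinskerG (hG : ∀ g : G, MeasurePreserving (fun x : X => g • x) μ μ)
    (Λ : ℕ → Finset G) (hΛ : Folner Λ)
    (β : X → κ) (hβ : FM (pinskerG μ G (X := X)) β) : ZeroSeq μ Λ β := by
  classical
  have hβ0 : FM m0 β := fm_mono pinskerG_le hβ
  let J := {B : Set X // MeasurableSet[m0] B ∧ ZeroInf μ G (fun x => x ∈ B)}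
  let α : J → X → Prop := fun B x => x ∈ B.1
  have hα : ∀ j, FM m0 (α j) := fun j => fm_set j.2.1
  have hle : pinskerG μ G (X := X) ≤ ⨆ j ∈ (Set.univ : Set J), MeasurableSpace.comap (α j) ⊤ := by
    apply MeasurableSpace.generateFrom_le
    intro B hB
    have h1 : MeasurableSpace.comap (α ⟨B, hB⟩) ⊤ ≤
        ⨆ j ∈ (Set.univ : Set J), MeasurableSpace.comap (α j) ⊤ :=
      le_iSup₂_of_le (⟨B, hB⟩ : J) (Set.mem_univ _) le_rfl
    apply h1
    refine ⟨{True}, trivial, ?_⟩
    ext x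
    simp [α]
  have hβ' : FM (⨆ j ∈ (Set.univ : Set J), MeasurableSpace.comap (α j) ⊤) β := fm_mono hle hβ
  rw [ZeroSeq, Metric.tendsto_atTop]
  intro ε hε
  obtain ⟨F, -, hF⟩ := approx (μ := μ) α hα Set.univ β hβ' (ε / 2) (by positivity)
  have hsum : Tendsto (fun n : ℕ => ∑ j ∈ F, ent μ (name (α j) (Λ n)) / ((Λ n).card : ℝ))
      atTop (𝓝 0) := by
    have h1 := tendsto_finsetSum F (f := fun (j : J) (n : ℕ) =>
      ent μ (name (α j) (Λ n)) / ((Λ n).card : ℝ)) (a := fun _ => (0 : ℝ))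
      (x := atTop) fun j _ => (zeroSeq_iff hG Λ hΛ (α j) (hα j)).1 j.2.2
    rw [Finset.sum_const_zero] at h1
    exact h1
  rw [Metric.tendsto_atTop] at hsum
  obtain ⟨N, hN⟩ := hsum (ε / 2) (by positivity)
  refine ⟨N, fun n hn => ?_⟩
  have h1 := hN n hn
  have hpos : (0 : ℝ) < ((Λ n).card : ℝ) := by exact_mod_cast hΛ.1 n
  have h2 := ent_name_le_of_approx hG β hβ0 α hα F (ε / 2) hF (Λ n)
  have h3 : 0 ≤ ent μ (name β (Λ n)) / ((Λ n).card : ℝ) :=
    div_nonneg (ent_nonneg _) hpos.le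
  rw [Real.dist_eq, sub_zero] at h1 ⊢
  rw [abs_of_nonneg h3]
  rw [← Finset.sum_div] at h1
  have h4 := (abs_lt.1 h1).2
  rw [div_lt_iff₀ hpos] at h4 ⊢
  linarith

theorem measurableSet_pinskerG_iff (hG : ∀ g : G, MeasurePreserving (fun x : X => g • x) μ μ)
    (Λ : ℕ → Finset G) (hΛ : Folner Λ) (B : Set X) :
    MeasurableSet[pinskerG μ G (X := X)] B ↔
      (MeasurableSet[m0] B ∧ ZeroInf μ G (fun x => x ∈ B)) := by
  constructor
  · intro h
    have h0 : MeasurableSet[m0] B := pinskerG_le _ h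
    exact ⟨h0, (zeroSeq_iff hG Λ hΛ _ (fm_set h0)).2 (zero_of_pinskerG hG Λ hΛ _ (fm_set h))⟩
  · intro h
    exact MeasurableSpace.measurableSet_generateFrom h

end Pool.PinskerA
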