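import Pool.Agent.PinskerA.Defs
import Pool.Agent.Pinsker.Lower

set_option autoImplicit false
set_option warn.classDefReducibility false

/-!
# Module LowerA: lower bound of the entropy of names given the remote past

The bookkeeping lemmas `level_mono`, `level_le`, `sg_le`, `level_comap`, `tail_comap`, `tail_le`,
`fm_level_zero` of `Pool/Agent/Pinsker/Lower.lean` do not use an order.
`spast_le`: as `past_le`.  `tail_le_spast`: `tail ≤ level (-1) ≤ spast`.
`lowerA`.  Hypothesis: `c |B| ≤ H(name α B | η)` for all finite `B ⊆ ker φ` and all finite `η` that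
are `FM (spast α φ)`.  Claim: `c |Λ| ≤ H(name α Λ | ζ)` for all finite `Λ` and all finite tail
measurable `ζ`.
Induction on `|Λ|`: `Λ = ∅` is `cent_nonneg`.  Otherwise `t = max φ(Λ)`, `Λ_t`, `Λ'` as in module
UpperA; `name α Λ` is a relabelling of `(name α Λ_t, name α Λ')`, so by `cent_chain`
`H(name α Λ | ζ) = H(name α Λ' | ζ) + H(name α Λ_t | name α Λ', ζ)`.  Pick `g ∈ Λ_t`, put
`B = Λ_t g⁻¹ ⊆ ker φ`.  By `cent_mp` with `x ↦ g⁻¹ • x` the last term equals
`H((name α Λ_t)∘g⁻¹ | (name α Λ')∘g⁻¹, ζ∘g⁻¹)`; `(name α Λ_t)(g⁻¹•x) = (α ((h g⁻¹) • x))_{h∈Λ_t}` is a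
relabelling of `name α B x`; `(name α Λ')(g⁻¹ • x)` has components `α ((h g⁻¹) • x)` with
`φ (h g⁻¹) = φ h - t < 0`, so it is `FM spast`; `ζ∘g⁻¹` is `FM tail ≤ spast` (`tail_comap`).  So it
is `≥ c |B| = c |Λ_t|` (to apply the hypothesis with `η : X → Fin k` compose with
`Fintype.equivFin`, `cent_comp_inj_right`).
-/

open MeasureTheory Filter Topology Finset

namespace Pool.PinskerA

open Pool.Pinsker

variable {X : Type*} {m0 : MeasurableSpace X} {μ : Measure X} [IsProbabilityMeasure μ]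
variable {G : Type*} [Group G] [MulAction G X] [DecidableEq G]
variable {ι κ : Type*} [Fintype ι] [Fintype κ]

omit [DecidableEq G] [Fintype ι] in
theorem spast_le (hG : ∀ g : G, MeasurePreserving (fun x : X => g • x) μ μ) (α : X → ι)
    (hα : FM m0 α) (φ : G → ℝ) : spast α φ ≤ m0 :=
  iSup₂_le fun g _ => sg_le hG α hα g

omit [DecidableEq G] [Fintype ι] in
theorem tail_le_spast (α : X → ι) (φ : G → ℝ) : tail α φ ≤ spast α φ := by
  have h1 : tail α φ ≤ level α φ (-1) := iInf_le _ _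
  refine h1.trans ?_
  unfold level spast
  refine iSup₂_le fun g hg => ?_
  refine le_iSup₂_of_le g ?_ le_rfl
  have hg' : φ g ≤ -1 := hg
  show φ g < 0
  linarith

theorem lowerA_split (α : X → ι) (Λ Λt Λ' : Finset G) (ht : Λt ⊆ Λ) (h' : Λ' ⊆ Λ)
    (hun : ∀ h ∈ Λ, h ∈ Λt ∨ h ∈ Λ') (ζ : X → κ) :
    cent μ (name α Λ) ζ =
      cent μ (name α Λ') ζ + cent μ (name α Λt) (fun x => (name α Λ' x, ζ x)) := by
  rw [← cent_chain]
  let e : (Λ → ι) → (Λt → ι) × (Λ' → ι) :=
    fun n => (fun h => n ⟨h.1, ht h.2⟩, fun h => n ⟨h.1, h' h.2⟩)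
  have he : Function.Injective e := by
    intro n n' hn
    have h1 : (fun h : Λt => n ⟨h.1, ht h.2⟩) = fun h : Λt => n' ⟨h.1, ht h.2⟩ :=
      congrArg Prod.fst hn
    have h2 : (fun h : Λ' => n ⟨h.1, h' h.2⟩) = fun h : Λ' => n' ⟨h.1, h' h.2⟩ :=
      congrArg Prod.snd hn
    funext ⟨k, hk⟩
    rcases hun k hk with hk' | hk'
    · exact congrFun h1 ⟨k, hk'⟩
    · exact congrFun h2 ⟨k, hk'⟩
  rw [← cent_comp_inj_left (name α Λ) ζ e he]
  rfl

theorem lowerA_shift (hG : ∀ g : G, MeasurePreserving (fun x : X => g • x) μ μ)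
    (α : X → ι) (hα : FM m0 α) (Λt : Finset G) (k : G) (η : X → κ) (hη : FM m0 η) :
    cent μ (name α Λt) η =
      cent μ (name α (Λt.image fun h => h * k)) (fun x => η (k • x)) := by
  rw [← cent_mp (μ := μ) (fun x : X => k • x) (hG k) (name α Λt) η
    (fm_name α Λt fun g _ => fm_act hG α hα g) hη]
  let e : (↥(Λt.image fun h => h * k) → ι) → (Λt → ι) :=
    fun n h => n ⟨h.1 * k, mem_image_of_mem _ h.2⟩
  have he : Function.Injective e := by
    intro n n' hn
    funext ⟨b, hb⟩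
    obtain ⟨h, hh, rfl⟩ := mem_image.1 hb
    exact congrFun hn ⟨h, hh⟩
  rw [← cent_comp_inj_left (name α (Λt.image fun h => h * k)) (fun x => η (k • x)) e he]
  congr 1
  funext x h
  simp [e, name, mul_smul]

theorem lowerA (φ : G → ℝ) (hφ : ∀ a b, φ (a * b) = φ a + φ b)
    (hG : ∀ g : G, MeasurePreserving (fun x : X => g • x) μ μ)
    (α : X → ι) (hα : FM m0 α) (c : ℝ)
    (hc : ∀ (B : Finset G), (∀ b ∈ B, φ b = 0) → ∀ (k : ℕ) (η : X → Fin k),
      FM (spast α φ) η → c * (B.card : ℝ) ≤ cent μ (name α B) η)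
    (ζ : X → κ) (hζ : FM (tail α φ) ζ) (Λ : Finset G) :
    c * (Λ.card : ℝ) ≤ cent μ (name α Λ) ζ := by
  have hζ0 : FM m0 ζ := fm_mono (tail_le hG α hα φ) hζ
  have hact : ∀ g : G, FM m0 (fun x => α (g • x)) := fun g => fm_act hG α hα g
  have h0 : φ 1 = 0 := by
    have := hφ 1 1
    rw [mul_one] at this
    linarith
  have hinv : ∀ g, φ g⁻¹ = -φ g := by
    intro g
    have := hφ g g⁻¹
    rw [mul_inv_cancel, h0] at this
    linarith
  have hc' : ∀ (B : Finset G), (∀ b ∈ B, φ b = 0) → ∀ {ρ : Type _} [Fintype ρ] (η : X → ρ),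
      FM (spast α φ) η → c * (B.card : ℝ) ≤ cent μ (name α B) η := by
    intro B hB ρ _ η hη
    classical
    have h1 := hc B hB (Fintype.card ρ) (fun x => Fintype.equivFin ρ (η x)) (fm_comp hη _)
    rwa [cent_comp_inj_right (name α B) η (Fintype.equivFin ρ) (Fintype.equivFin ρ).injective]
      at h1
  induction Λ using Finset.strongInduction with
  | H Λ ih =>
    classical
    rcases Λ.eq_empty_or_nonempty with hne | hne
    · have hN : FM m0 (name α Λ) := fm_name α Λ fun g hg => hact g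
      have h1 := cent_nonneg (μ := μ) (name α Λ) ζ hN hζ0
      rw [hne] at h1 ⊢
      simpa using h1
    · obtain ⟨g, hg, hmax⟩ := Λ.exists_max_image φ hne
      obtain ⟨Λt, hΛt⟩ : ∃ Λt, Λt = Λ.filter fun h => φ h = φ g := ⟨_, rfl⟩
      obtain ⟨Λ', hΛ'⟩ : ∃ Λ', Λ' = Λ.filter fun h => ¬ φ h = φ g := ⟨_, rfl⟩
      have ht : Λt ⊆ Λ := by rw [hΛt]; exact filter_subset _ _
      have h' : Λ' ⊆ Λ := by rw [hΛ']; exact filter_subset _ _
      have hss : Λ' ⊂ Λ := by
        refine Finset.ssubset_iff_subset_ne.2 ⟨h', fun he => ?_⟩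
        rw [← he, hΛ', mem_filter] at hg
        exact hg.2 rfl
      have hun : ∀ h ∈ Λ, h ∈ Λt ∨ h ∈ Λ' := by
        intro h hh
        rw [hΛt, hΛ', mem_filter, mem_filter]
        by_cases hp : φ h = φ g
        · exact Or.inl ⟨hh, hp⟩
        · exact Or.inr ⟨hh, hp⟩
      have hcard : Λ.card = Λt.card + Λ'.card := by
        rw [hΛt, hΛ', Finset.card_filter_add_card_filter_not]
      have hN' : FM m0 (name α Λ') := fm_name α Λ' fun g hg => hact g
      have hη0 : FM m0 (fun x => (name α Λ' x, ζ x)) := fm_pair hN' hζ0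
      have h2 : c * (Λt.card : ℝ) ≤ cent μ (name α Λt) (fun x => (name α Λ' x, ζ x)) := by
        rw [lowerA_shift hG α hα Λt g⁻¹ _ hη0]
        have hcB : (Λt.image fun h => h * g⁻¹).card = Λt.card :=
          card_image_of_injective _ (mul_left_injective g⁻¹)
        rw [← hcB]
        refine hc' _ ?_ _ (fm_pair ?_ ?_)
        · intro b hb
          obtain ⟨h, hh, rfl⟩ := mem_image.1 hb
          rw [hΛt, mem_filter] at hh
          rw [hφ, hinv, hh.2]
          ring
        · refine fm_name_shift α Λ' g⁻¹ fun h hh => ?_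
          have hlt : φ (h * g⁻¹) < 0 := by
            rw [hΛ', mem_filter] at hh
            have h3 := lt_of_le_of_ne (hmax h hh.1) hh.2
            rw [hφ, hinv]
            linarith
          have hle : sg α (h * g⁻¹) ≤ spast α φ := by
            unfold spast
            exact le_iSup₂_of_le (h * g⁻¹) hlt le_rfl
          intro s
          exact hle _ ⟨s, trivial, rfl⟩
        · refine fm_mono (tail_le_spast α φ) ?_
          exact fm_measurable_comp hζ _ (tail_comap α φ hφ g⁻¹)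
      rw [lowerA_split α Λ Λt Λ' ht h' hun ζ, hcard]
      have h3 := ih Λ' hss
      push_cast
      linarith

end Pool.PinskerA
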