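import Pool.Agent.Pinsker.MaxPoly
import Pool.Agent.Lib.MaximalErgodic

set_option autoImplicit false
set_option warn.classDefReducibility false

/-!
# Module MaxLin: the weak maximal inequality for slots whose maps commute

* `maxProp_slot`: let `τ n x = (List.ofFn fun i => T i ^ (p i).eval n).prod x` where the `T i` with
  `p i ≠ 0` commute pairwise.  Put `T' i = T i` if `p i ≠ 0` and `T' i = 1` otherwise; the product
  does not change (`p i = 0` gives exponent `0`), the `T' i` commute pairwise, and
  `maxProp_poly` applies.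
* `maxProp_pow`: `τ n x = (S ^ n) x`: `maxProp_poly` with `d = 1`, `T = fun _ => S`,
  `p = fun _ => Polynomial.X`.
-/

open MeasureTheory Filter Topology Finset

namespace Pool.PinskerA

open Pool.Pinsker

theorem maxProp_slot {X : Type*} [MeasurableSpace X] (μ : Measure X) [IsProbabilityMeasure μ]
    {d : ℕ} (T : Fin d → Equiv.Perm X) (hT' : ∀ i, Measurable ⇑(T i).symm)
    (hT : ∀ i, MeasurePreserving (⇑(T i)) μ μ) (p : Fin d → Polynomial ℤ)
    (hc : ∀ i j, p i ≠ 0 → p j ≠ 0 → Commute (T i) (T j)) :
    MaxProp μ (fun n x => (List.ofFn fun i => T i ^ (p i).eval n).prod x) := by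
  classical
  let T' : Fin d → Equiv.Perm X := fun i => if p i = 0 then 1 else T i
  have hT'0 : ∀ i, p i = 0 → T' i = 1 := fun i h => if_pos h
  have hT'1 : ∀ i, p i ≠ 0 → T' i = T i := fun i h => if_neg h
  have hmeas' : ∀ i, Measurable ⇑(T' i).symm := by
    intro i
    by_cases h : p i = 0
    · rw [hT'0 i h]; exact measurable_id
    · rw [hT'1 i h]; exact hT' i
  have hmp : ∀ i, MeasurePreserving (⇑(T' i)) μ μ := by
    intro i
    by_cases h : p i = 0
    · rw [hT'0 i h]; exact MeasurePreserving.id μ
    · rw [hT'1 i h]; exact hT i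
  have hcomm : ∀ i j, Commute (T' i) (T' j) := by
    intro i j
    by_cases h : p i = 0
    · rw [hT'0 i h]; exact Commute.one_left _
    · by_cases h2 : p j = 0
      · rw [hT'0 j h2]; exact Commute.one_right _
      · rw [hT'1 i h, hT'1 j h2]; exact hc i j h h2
  have key := maxProp_poly μ T' hmeas' hmp hcomm p
  have heq : (fun (n : ℤ) (x : X) => (List.ofFn fun i => T' i ^ (p i).eval n).prod x) =
      (fun (n : ℤ) (x : X) => (List.ofFn fun i => T i ^ (p i).eval n).prod x) := by
    funext n x
    have h1 : (fun i => T' i ^ (p i).eval n) = (fun i => T i ^ (p i).eval n) := by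
      funext i
      by_cases h : p i = 0
      · rw [h]; simp
      · rw [hT'1 i h]
    rw [h1]
  rw [heq] at key
  exact key

theorem maxProp_pow {X : Type*} [MeasurableSpace X] (μ : Measure X) [IsProbabilityMeasure μ]
    (S : Equiv.Perm X) (hS' : Measurable ⇑S.symm) (hS : MeasurePreserving (⇑S) μ μ) :
    MaxProp μ (fun n x => (S ^ n) x) := by
  have key := maxProp_poly μ (d := 1) (fun _ => S) (fun _ => hS') (fun _ => hS)
    (fun _ _ => Commute.refl _) (fun _ => Polynomial.X)
  have heq : (fun (n : ℤ) (x : X) => (List.ofFn fun _ : Fin 1 =>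
      S ^ (Polynomial.X : Polynomial ℤ).eval n).prod x) =
      (fun (n : ℤ) (x : X) => (S ^ n) x) := by
    funext n x
    simp [List.ofFn_succ]
  rw [heq] at key
  exact key

end Pool.PinskerA
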