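import Pool.Agent.PinskerA.Nilp

set_option autoImplicit false
set_option warn.classDefReducibility false

/-!
# Invariance of the Pinsker σ-algebra; restriction of the measure to it
-/

open MeasureTheory Filter Topology
open scoped ENNReal

namespace Pool.PinskerA

open Pool.Pinsker

variable {X : Type*}

theorem zeroG_preimage {m0 : MeasurableSpace X} (μ : Measure X) (G : Subgroup (Equiv.Perm X))
    (B : Set X) (g : G) (h : ZeroEntropyG μ G B) :
    ZeroEntropyG μ G ((g : Equiv.Perm X) ⁻¹' B) := by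
  classical
  intro ε hε
  obtain ⟨F, hF0, hF⟩ := h ε hε
  set emb : G ↪ G := (Equiv.mulLeft g⁻¹).toEmbedding with hemb
  refine ⟨F.map emb, by rwa [Finset.card_map], ?_⟩
  rw [Finset.card_map]
  refine le_trans (le_of_eq ?_) hF
  symm
  refine Finset.sum_nbij (fun S => S.map emb) ?_ ?_ ?_ ?_
  · intro S hS
    exact Finset.mem_powerset.2 (Finset.map_subset_map.2 (Finset.mem_powerset.1 hS))
  · intro S _ S' _ h
    exact Finset.map_injective _ h
  · intro S hS
    obtain ⟨u, hu, rfl⟩ := Finset.subset_map_iff.1 (Finset.mem_powerset.1 hS)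
    exact ⟨u, Finset.mem_coe.2 (Finset.mem_powerset.2 hu), rfl⟩
  · intro S hS
    congr 2
    ext x
    have key : ∀ k : G, (((emb k : G) : Equiv.Perm X) x ∈ (g : Equiv.Perm X) ⁻¹' B) ↔
        ((k : Equiv.Perm X) x ∈ B) := by
      intro k
      rw [Set.mem_preimage]
      have : (g : Equiv.Perm X) (((emb k : G) : Equiv.Perm X) x) = (k : Equiv.Perm X) x := by
        show (g : Equiv.Perm X) (((g⁻¹ * k : G) : Equiv.Perm X) x) = (k : Equiv.Perm X) x
        rw [Subgroup.coe_mul, Subgroup.coe_inv, Equiv.Perm.mul_apply]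
        simp
      rw [this]
    simp only [Set.mem_ofPred_eq]
    constructor
    · intro h k' hk'
      obtain ⟨k, hk, rfl⟩ := Finset.mem_map.1 hk'
      rw [key, Finset.mem_map' emb]
      exact h k hk
    · intro h k hk
      have := h (emb k) (Finset.mem_map_of_mem _ hk)
      rw [key, Finset.mem_map' emb] at this
      exact this

theorem measurable_pinskerAlgG {m0 : MeasurableSpace X} (μ : Measure X)
    (G : Subgroup (Equiv.Perm X)) (g : G) (hg : Measurable (g : Equiv.Perm X)) :
    @Measurable X X (pinskerAlgG μ G) (pinskerAlgG μ G) (g : Equiv.Perm X) := by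
  refine @measurable_generateFrom X X (pinskerAlgG μ G) _ _ ?_
  rintro B ⟨hB, hz⟩
  exact MeasurableSpace.measurableSet_generateFrom ⟨hg hB, zeroG_preimage μ G B g hz⟩

theorem pinskerAlgG_le {m0 : MeasurableSpace X} (μ : Measure X)
    (G : Subgroup (Equiv.Perm X)) : pinskerAlgG μ G ≤ m0 :=
  MeasurableSpace.generateFrom_le fun _ h => h.1

theorem zeroG_trim {m0 : MeasurableSpace X} (μ : Measure X) (m' : MeasurableSpace X)
    (hm : m' ≤ m0) (G : Subgroup (Equiv.Perm X))
    (hG : ∀ g : G, @Measurable X X m' m' (g : Equiv.Perm X)) (B : Set X)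
    (hB : MeasurableSet[m'] B) (h : @ZeroEntropyG X m0 μ G B) :
    @ZeroEntropyG X m' (μ.trim hm) G B := by
  intro ε hε
  obtain ⟨F, hF0, hF⟩ := h ε hε
  refine ⟨F, hF0, ?_⟩
  refine le_trans (le_of_eq ?_) hF
  apply Finset.sum_congr rfl
  intro S _
  congr 1
  have hset : MeasurableSet[m'] {x | ∀ g ∈ F, ((g : Equiv.Perm X) x ∈ B ↔ g ∈ S)} := by
    have h1 : {x | ∀ g ∈ F, ((g : Equiv.Perm X) x ∈ B ↔ g ∈ S)} =
        ⋂ g ∈ F, {x | ((g : Equiv.Perm X) x ∈ B ↔ g ∈ S)} := by
      ext x
      simp only [Set.mem_ofPred_eq, Set.mem_iInter]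
    rw [h1]
    refine @Finset.measurableSet_biInter _ _ m' _ _ ?_
    intro g _
    have h4 : MeasurableSet[m'] {x | (g : Equiv.Perm X) x ∈ B} := hG g hB
    by_cases hg : g ∈ S
    · simp only [hg, iff_true]
      exact h4
    · simp only [hg, iff_false]
      exact @MeasurableSet.compl X _ m' h4
  rw [Measure.real, Measure.real, trim_measurableSet_eq hm hset]

end Pool.PinskerA
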