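import Pool.Agent.PinskerA.Shearer

set_option autoImplicit false
set_option warn.classDefReducibility false

/-!
# Module UpperA: upper bound of the entropy of names by levels of the height

Fix `B ⊆ ker φ` finite nonempty and `F ⊆ {φ < 0}` finite.  Put `c = H(name α B | name α F)` and
`L = |B| log |ι|`; `0 ≤ c ≤ L` (`cent_nonneg`; `cent_name_le` and `cent_le_log`), `ι` is nonempty.

`cent_name_shift'`: `H((name α B)∘g | (name α F)∘g) = H(name α B | name α F)` (`cent_mp`), and
`(name α B)(g•x)` is a relabelling of `name α (B g) x` (as in `cent_name_shift`).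

`upper_aux`: for finite `Λ` and every finite `I` that contains all `g` with `B g ∩ Λ ≠ ∅`,
`|B| H(name α Λ) ≤ Σ_{g∈I} w(Λ, g)`, where `w(Λ, g) = c` if `(B ∪ F) g ⊆ Λ`, `= L` if not and
`B g ∩ Λ ≠ ∅`, and `= 0` if `B g ∩ Λ = ∅`.
Induction on `|Λ|`.  `Λ = ∅`: both sides are `0` (`≤`).  Otherwise let `t = max φ(Λ)`,
`Λ_t = {g ∈ Λ : φ g = t}`, `Λ' = Λ \ Λ_t` (smaller).  `name α Λ` is a relabelling of
`(name α Λ_t, name α Λ')`, so `H(name α Λ) = H(name α Λ') + H(name α Λ_t | name α Λ')`.
By `shearer_name` with `k = |B|`, `A = Λ_t`, `ζ = name α Λ'`, index set `I_t = {g ∈ I : φ g = t}` and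
`S g = B g` [every `h ∈ Λ_t` lies in `B g` exactly for the `|B|` elements `g = b⁻¹ h`, `b ∈ B`, which
have `φ g = φ h = t` and lie in `I`]:
`|B| H(name α Λ_t | name α Λ') ≤ Σ_{g ∈ I_t} H(name α (B g ∩ Λ_t) | name α Λ')`.
For `g ∈ I_t` the summand is `≤ w(Λ, g)`: if `(B ∪ F) g ⊆ Λ` then `B g ⊆ Λ_t`, `F g ⊆ Λ'` (heights
`< t`), so by `cent_cond_factor` and the shift lemma it is `≤ c`; in general it is
`≤ |B g ∩ Λ_t| log |ι| ≤ L`; and if `B g ∩ Λ = ∅` it is `0` (entropy of a constant map).
For `g ∈ I` with `φ g < t`: the elements of `(B ∪ F) g` have height `≤ φ g < t`, so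
`w(Λ', g) = w(Λ, g)`; for `φ g = t` (or `> t`): `B g ∩ Λ' = ∅` and `w(Λ', g) = 0`.  So
`Σ_{g∈I} w(Λ', g) ≤ Σ_{g∈I, φ g < t} w(Λ, g)`.  Add.

`upperA`: take `I = B⁻¹ Λ`.  The number of `g` with `(B ∪ F) g ⊆ Λ` is `≤ |Λ|` (`g ↦ b g` is
injective into `Λ`, for a fixed `b ∈ B`).  If `B g ∩ Λ ≠ ∅` but `(B ∪ F) g ⊄ Λ` let `h = b g ∈ Λ`; then
`g = b⁻¹ h` and `h ∈ bad F' Λ` with `F' = {y b'⁻¹ : y ∈ B ∪ F, b' ∈ B}`; so there are at most
`|B| |bad F' Λ|` such `g`.  Hence `|B| H(name α Λ) ≤ |Λ| c + |B| |bad F' Λ| L`.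
`upperA_lim`: apply with `Λ = Λ n` and the Følner property.
-/

open MeasureTheory Filter Topology Finset

namespace Pool.PinskerA

open Pool.Pinsker

variable {X : Type*} {m0 : MeasurableSpace X} {μ : Measure X} [IsProbabilityMeasure μ]
variable {G : Type*} [Group G] [MulAction G X] [DecidableEq G]
variable {ι : Type*} [Fintype ι]

/-! ### auxiliary lemmas -/

theorem ua_cent_name_shift (hG : ∀ g : G, MeasurePreserving (fun x : X => g • x) μ μ)
    (α : X → ι) (hα : FM m0 α) (B F : Finset G) (g : G) :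
    cent μ (name α (B.image fun f => f * g)) (name α (F.image fun f => f * g)) =
      cent μ (name α B) (name α F) := by
  have hn : ∀ S : Finset G, FM m0 (name α S) := fun S => fm_name α S fun b _ => fm_act hG α hα b
  have h1 := cent_mp (fun x => g • x) (hG g) (name α B) (name α F) (hn B) (hn F)
  rw [← h1]
  let e : (S : Finset G) → (↥(S.image fun f => f * g) → ι) → (S → ι) :=
    fun S n f => n ⟨f.1 * g, mem_image_of_mem _ f.2⟩
  have he : ∀ S : Finset G, Function.Injective (e S) := by
    intro S n n' hn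
    funext ⟨k, hk⟩
    obtain ⟨f, hf, rfl⟩ := mem_image.1 hk
    exact congrFun hn ⟨f, hf⟩
  rw [← cent_comp_inj_right (name α (B.image fun f => f * g)) (name α (F.image fun f => f * g))
    (e F) (he F), ← cent_comp_inj_left (name α (B.image fun f => f * g)) _ (e B) (he B)]
  congr 1
  · funext x f
    simp [e, name, mul_smul]
  · funext x f
    simp [e, name, mul_smul]

theorem ua_cent_le_card (hG : ∀ g : G, MeasurePreserving (fun x : X => g • x) μ μ)
    (α : X → ι) (hα : FM m0 α) (B : Finset G) {κ : Type*} [Fintype κ] (ζ : X → κ)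
    (hζ : FM m0 ζ) : cent μ (name α B) ζ ≤ (B.card : ℝ) * Real.log (Fintype.card ι) := by
  refine (cent_le_log _ _ (fm_name α B fun b _ => fm_act hG α hα b) hζ).trans (le_of_eq ?_)
  have : Fintype.card (B → ι) = Fintype.card ι ^ B.card := by
    rw [Fintype.card_fun, Fintype.card_coe]
  rw [this]
  push_cast
  rw [Real.log_pow]

theorem ua_ent_split (α : X → ι) (Λ A A' : Finset G) (h : Λ ⊆ A ∪ A') (hA : A ⊆ Λ)
    (hA' : A' ⊆ Λ) : ent μ (name α Λ) = ent μ (name α A') + cent μ (name α A) (name α A') := by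
  rw [← ent_pair]
  let e : (Λ → ι) → (A → ι) × (A' → ι) :=
    fun n => (fun g => n ⟨g.1, hA g.2⟩, fun g => n ⟨g.1, hA' g.2⟩)
  have he : Function.Injective e := by
    intro n n' hn
    funext ⟨k, hk⟩
    rcases mem_union.1 (h hk) with h1 | h1
    · exact congrFun (congrArg Prod.fst hn) ⟨k, h1⟩
    · exact congrFun (congrArg Prod.snd hn) ⟨k, h1⟩
  rw [← ent_comp_inj (name α Λ) e he]
  rfl

open Classical in
/-- the weight of `g` -/
noncomputable def uaW (B E : Finset G) (c L : ℝ) (Λ : Finset G) (g : G) : ℝ :=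
  if E.image (fun f => f * g) ⊆ Λ then c else if ∃ b ∈ B, b * g ∈ Λ then L else 0

theorem ua_aux (φ : G → ℝ) (hφ : ∀ a b, φ (a * b) = φ a + φ b)
    (hG : ∀ g : G, MeasurePreserving (fun x : X => g • x) μ μ)
    (α : X → ι) (hα : FM m0 α) (B F : Finset G) (hB : 0 < B.card) (hB0 : ∀ b ∈ B, φ b = 0)
    (hF : ∀ f ∈ F, φ f < 0) (Λ : Finset G) : ∀ I : Finset G,
    (∀ g, (∃ b ∈ B, b * g ∈ Λ) → g ∈ I) →
    (B.card : ℝ) * ent μ (name α Λ) ≤ ∑ g ∈ I, uaW B (B ∪ F) (cent μ (name α B) (name α F))
      ((B.card : ℝ) * Real.log (Fintype.card ι)) Λ g := by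
  classical
  have hlog : 0 ≤ Real.log (Fintype.card ι) := Real.log_natCast_nonneg _
  have hn : ∀ S : Finset G, FM m0 (name α S) := fun S => fm_name α S fun b _ => fm_act hG α hα b
  obtain ⟨b0, hb0⟩ := Finset.card_pos.1 hB
  set c : ℝ := cent μ (name α B) (name α F) with hc
  set L : ℝ := (B.card : ℝ) * Real.log (Fintype.card ι) with hL
  induction Λ using Finset.strongInduction with
  | H Λ ih =>
    intro I hI
    rcases Λ.eq_empty_or_nonempty with h0 | h0
    · subst h0
      have h1 : ∑ g ∈ I, uaW B (B ∪ F) c L (∅ : Finset G) g = 0 := by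
        apply Finset.sum_eq_zero
        intro g _
        rw [uaW, if_neg, if_neg]
        · rintro ⟨b, _, hb⟩
          exact absurd hb (Finset.notMem_empty _)
        · intro h
          exact absurd (h (Finset.mem_image_of_mem _ (Finset.mem_union_left _ hb0)))
            (Finset.notMem_empty _)
      rw [h1]
      have h2 : ent μ (name α (∅ : Finset G)) ≤ 0 := by
        rw [ent_eq_cent _ (hn ∅)]
        refine (ua_cent_le_card hG α hα ∅ (fun _ : X => ()) (fun s => MeasurableSet.const _)).trans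
          (le_of_eq ?_)
        simp
      have h3 : (0 : ℝ) ≤ B.card := Nat.cast_nonneg _
      nlinarith
    · obtain ⟨g0, hg0, hmax⟩ := Finset.exists_max_image Λ φ h0
      set t := φ g0 with ht
      set A : Finset G := Λ.filter fun g => φ g = t with hA
      set A' : Finset G := Λ.filter fun g => ¬ φ g = t with hA'
      have hAA : Λ ⊆ A ∪ A' := by
        rw [hA, hA', Finset.filter_union_filter_not_eq]
      have hAs : A ⊆ Λ := Finset.filter_subset _ _
      have hAs' : A' ⊆ Λ := Finset.filter_subset _ _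
      have hss : A' ⊂ Λ := by
        refine Finset.ssubset_iff_subset_ne.2 ⟨hAs', fun h => ?_⟩
        have h1 : g0 ∈ A' := by rw [h]; exact hg0
        exact (Finset.mem_filter.1 h1).2 rfl
      have hmemA' : ∀ g, g ∈ A' ↔ g ∈ Λ ∧ ¬ φ g = t := fun g => Finset.mem_filter
      have hmemA : ∀ g, g ∈ A ↔ g ∈ Λ ∧ φ g = t := fun g => Finset.mem_filter
      have hφB : ∀ b ∈ B, ∀ g, φ (b * g) = φ g := by
        intro b hb g
        rw [hφ, hB0 b hb, zero_add]
      have hφF : ∀ f ∈ F, ∀ g, φ (f * g) < φ g := by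
        intro f hf g
        rw [hφ]
        linarith [hF f hf]
      have hφ1 : φ 1 = 0 := by
        have := hφ 1 1
        rw [mul_one] at this
        linarith
      have hφinv : ∀ b ∈ B, ∀ g, φ (b⁻¹ * g) = φ g := by
        intro b hb g
        have h1 := hφ b⁻¹ b
        rw [inv_mul_cancel, hφ1, hB0 b hb, add_zero] at h1
        rw [hφ, ← h1, zero_add]
      -- induction hypothesis
      have ih' := ih A' hss I (fun g hg => hI g (by
        obtain ⟨b, hb, hbg⟩ := hg
        exact ⟨b, hb, hAs' hbg⟩))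
      -- weights of the smaller set
      have hw : ∀ g ∈ I, uaW B (B ∪ F) c L A' g =
          if φ g = t then 0 else uaW B (B ∪ F) c L Λ g := by
        intro g _
        by_cases hgt : φ g = t
        · rw [if_pos hgt]
          have h1 : ∀ b ∈ B, b * g ∉ A' := by
            intro b hb h
            exact ((hmemA' _).1 h).2 ((hφB b hb g).trans hgt)
          rw [uaW, if_neg, if_neg]
          · rintro ⟨b, hb, h⟩
            exact h1 b hb h
          · intro h
            exact h1 b0 hb0 (h (Finset.mem_image_of_mem _ (Finset.mem_union_left _ hb0)))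
        · rw [if_neg hgt]
          have h1 : ∀ b ∈ B, (b * g ∈ A' ↔ b * g ∈ Λ) := by
            intro b hb
            rw [hmemA', and_iff_left]
            rw [hφB b hb g]
            exact hgt
          have h2 : ((B ∪ F).image (fun f => f * g) ⊆ A') ↔
              ((B ∪ F).image (fun f => f * g) ⊆ Λ) := by
            constructor
            · intro h
              exact h.trans hAs'
            · intro h x hx
              have hg : φ g ≤ t := by
                have h3 := hmax _ (h (Finset.mem_image_of_mem _ (Finset.mem_union_left _ hb0)))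
                rwa [hφB b0 hb0 g] at h3
              have hg' : φ g < t := lt_of_le_of_ne hg hgt
              rw [hmemA']
              refine ⟨h hx, ?_⟩
              obtain ⟨f, hf, rfl⟩ := Finset.mem_image.1 hx
              rcases Finset.mem_union.1 hf with hf | hf
              · rw [hφB f hf g]; exact hgt
              · exact ((hφF f hf g).trans hg').ne
          have h3 : (∃ b ∈ B, b * g ∈ A') ↔ ∃ b ∈ B, b * g ∈ Λ := by
            constructor
            · rintro ⟨b, hb, h⟩
              exact ⟨b, hb, (h1 b hb).1 h⟩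
            · rintro ⟨b, hb, h⟩
              exact ⟨b, hb, (h1 b hb).2 h⟩
          rw [uaW, uaW]
          simp only [h2, h3]
      -- Shearer
      have hsh := shearer_name hG α hα (name α A') (hn A') B.card
        (I.filter fun g => φ g = t) (fun g => B.image fun f => f * g) A (by
          intro a ha
          apply Finset.card_le_card_of_injOn (fun b => b⁻¹ * a)
          · intro b hb
            rw [Finset.mem_coe] at hb
            rw [Finset.mem_coe, Finset.mem_filter, Finset.mem_filter]
            have ha' := (hmemA a).1 ha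
            refine ⟨⟨hI _ ⟨b, hb, ?_⟩, ?_⟩, ?_⟩
            · rw [mul_inv_cancel_left]
              exact ha'.1
            · rw [hφinv b hb]
              exact ha'.2
            · exact Finset.mem_image.2 ⟨b, hb, by rw [mul_inv_cancel_left]⟩
          · intro b _ b' _ h
            exact inv_injective (mul_right_cancel h))
      have hterm : ∀ g ∈ I.filter (fun g => φ g = t),
          cent μ (name α ((B.image fun f => f * g) ∩ A)) (name α A') ≤
            uaW B (B ∪ F) c L Λ g := by
        intro g hg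
        have hgt : φ g = t := (Finset.mem_filter.1 hg).2
        have hcard := ua_cent_le_card hG α hα ((B.image fun f => f * g) ∩ A) (name α A') (hn A')
        rw [uaW]
        split_ifs with h1 h2
        · have h3 : (B.image fun f => f * g) ∩ A = B.image fun f => f * g := by
            rw [Finset.inter_eq_left]
            intro x hx
            obtain ⟨b, hb, rfl⟩ := Finset.mem_image.1 hx
            rw [hmemA, hφB b hb g]
            exact ⟨h1 (Finset.mem_image_of_mem _ (Finset.mem_union_left _ hb)), hgt⟩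
          rw [h3, hc, ← ua_cent_name_shift hG α hα B F g]
          have h4 : (F.image fun f => f * g) ⊆ A' := by
            intro x hx
            obtain ⟨f, hf, rfl⟩ := Finset.mem_image.1 hx
            rw [hmemA']
            refine ⟨h1 (Finset.mem_image_of_mem _ (Finset.mem_union_right _ hf)), ?_⟩
            have := hφF f hf g
            rw [hgt] at this
            exact this.ne
          obtain ⟨e, he⟩ := name_factor (X := X) α A' (F.image fun f => f * g) h4
          exact cent_cond_factor _ _ _ (hn _) (hn A') e he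
        · refine hcard.trans (mul_le_mul_of_nonneg_right ?_ hlog)
          exact_mod_cast (Finset.card_le_card Finset.inter_subset_left).trans Finset.card_image_le
        · have h3 : (B.image fun f => f * g) ∩ A = ∅ := by
            rw [Finset.eq_empty_iff_forall_notMem]
            intro x hx
            rw [Finset.mem_inter] at hx
            obtain ⟨b, hb, rfl⟩ := Finset.mem_image.1 hx.1
            exact h2 ⟨b, hb, hAs hx.2⟩
          rw [h3] at hcard ⊢
          simpa using hcard
      have hsum : ∑ g ∈ I, uaW B (B ∪ F) c L Λ g =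
          ∑ g ∈ I.filter (fun g => φ g = t), uaW B (B ∪ F) c L Λ g +
            ∑ g ∈ I, uaW B (B ∪ F) c L A' g := by
        rw [Finset.sum_congr rfl hw, Finset.sum_ite, Finset.sum_const_zero, zero_add,
          Finset.sum_filter_add_sum_filter_not]
      rw [ua_ent_split α Λ A A' hAA hAs hAs', mul_add, hsum]
      have := hsh.trans (Finset.sum_le_sum hterm)
      linarith

theorem upperA (φ : G → ℝ) (hφ : ∀ a b, φ (a * b) = φ a + φ b)
    (hG : ∀ g : G, MeasurePreserving (fun x : X => g • x) μ μ)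
    (α : X → ι) (hα : FM m0 α) (B F : Finset G) (hB : 0 < B.card) (hB0 : ∀ b ∈ B, φ b = 0)
    (hF : ∀ f ∈ F, φ f < 0) : ∃ F' : Finset G, ∀ Λ : Finset G,
    (B.card : ℝ) * ent μ (name α Λ) ≤ (Λ.card : ℝ) * cent μ (name α B) (name α F) +
      (B.card : ℝ) * ((bad F' Λ).card : ℝ) * ((B.card : ℝ) * Real.log (Fintype.card ι)) := by
  classical
  have hlog : 0 ≤ Real.log (Fintype.card ι) := Real.log_natCast_nonneg _
  have hn : ∀ S : Finset G, FM m0 (name α S) := fun S => fm_name α S fun b _ => fm_act hG α hα b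
  obtain ⟨b0, hb0⟩ := Finset.card_pos.1 hB
  refine ⟨((B ∪ F) ×ˢ B).image fun p => p.1 * p.2⁻¹, fun Λ => ?_⟩
  set F' : Finset G := ((B ∪ F) ×ˢ B).image fun p => p.1 * p.2⁻¹ with hF'
  set I : Finset G := (B ×ˢ Λ).image fun p => p.1⁻¹ * p.2 with hI
  have h1 := ua_aux φ hφ hG α hα B F hB hB0 hF Λ I (by
    rintro g ⟨b, hb, hbg⟩
    exact Finset.mem_image.2 ⟨(b, b * g), Finset.mem_product.2 ⟨hb, hbg⟩, by
      simp⟩)
  refine h1.trans ?_
  set c : ℝ := cent μ (name α B) (name α F) with hc
  have hc0 : 0 ≤ c := cent_nonneg _ _ (hn B) (hn F)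
  set L : ℝ := (B.card : ℝ) * Real.log (Fintype.card ι) with hL
  have hL0 : 0 ≤ L := mul_nonneg (Nat.cast_nonneg _) hlog
  have h2 : ∑ g ∈ I, uaW B (B ∪ F) c L Λ g =
      ((I.filter fun g => (B ∪ F).image (fun f => f * g) ⊆ Λ).card : ℝ) * c +
      (((I.filter fun g => ¬ (B ∪ F).image (fun f => f * g) ⊆ Λ).filter
        fun g => ∃ b ∈ B, b * g ∈ Λ).card : ℝ) * L := by
    unfold uaW
    rw [Finset.sum_ite, Finset.sum_const, nsmul_eq_mul, Finset.sum_ite, Finset.sum_const,
      nsmul_eq_mul, Finset.sum_const_zero, add_zero]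
  rw [h2]
  apply add_le_add
  · apply mul_le_mul_of_nonneg_right _ hc0
    have h3 : (I.filter fun g => (B ∪ F).image (fun f => f * g) ⊆ Λ).card ≤ Λ.card := by
      apply Finset.card_le_card_of_injOn (fun g => b0 * g)
      · intro g hg
        rw [Finset.mem_coe, Finset.mem_filter] at hg
        exact hg.2 (Finset.mem_image_of_mem _ (Finset.mem_union_left _ hb0))
      · intro g _ g' _ h
        exact mul_left_cancel h
    exact_mod_cast h3
  · apply mul_le_mul_of_nonneg_right _ hL0
    have h3 : ((I.filter fun g => ¬ (B ∪ F).image (fun f => f * g) ⊆ Λ).filter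
        fun g => ∃ b ∈ B, b * g ∈ Λ) ⊆ (B ×ˢ bad F' Λ).image fun p => p.1⁻¹ * p.2 := by
      intro g hg
      rw [Finset.mem_filter, Finset.mem_filter] at hg
      obtain ⟨⟨_, hg1⟩, b, hb, hbg⟩ := hg
      rw [Finset.not_subset] at hg1
      obtain ⟨x, hx, hxΛ⟩ := hg1
      obtain ⟨y, hy, rfl⟩ := Finset.mem_image.1 hx
      refine Finset.mem_image.2 ⟨(b, b * g), Finset.mem_product.2 ⟨hb, ?_⟩, by simp⟩
      rw [bad, Finset.mem_filter]
      refine ⟨hbg, fun hsub => hxΛ ?_⟩
      have h4 : y * g = (y * b⁻¹) * (b * g) := by group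
      rw [h4]
      apply hsub
      apply Finset.mem_image_of_mem
      exact Finset.mem_image.2 ⟨(y, b), Finset.mem_product.2 ⟨hy, hb⟩, rfl⟩
    have h4 := (Finset.card_le_card h3).trans Finset.card_image_le
    rw [Finset.card_product] at h4
    exact_mod_cast h4

theorem upperA_lim (φ : G → ℝ) (hφ : ∀ a b, φ (a * b) = φ a + φ b)
    (hG : ∀ g : G, MeasurePreserving (fun x : X => g • x) μ μ) (Λ : ℕ → Finset G)
    (hΛ : Folner Λ)
    (α : X → ι) (hα : FM m0 α) (B F : Finset G) (hB : 0 < B.card) (hB0 : ∀ b ∈ B, φ b = 0)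
    (hF : ∀ f ∈ F, φ f < 0) (ε : ℝ) (hε : 0 < ε) :
    ∀ᶠ n : ℕ in atTop, (B.card : ℝ) * ent μ (name α (Λ n)) ≤
      ((Λ n).card : ℝ) * (cent μ (name α B) (name α F) + ε) := by
  have hlog : 0 ≤ Real.log (Fintype.card ι) := Real.log_natCast_nonneg _
  obtain ⟨F', hF'⟩ := upperA φ hφ hG α hα B F hB hB0 hF
  set K : ℝ := (B.card : ℝ) * ((B.card : ℝ) * Real.log (Fintype.card ι)) with hK
  have hK0 : 0 ≤ K := by positivity
  have h1 := (hΛ.2 F').eventually (gt_mem_nhds
    (show (0 : ℝ) < ε / (K + 1) by positivity))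
  filter_upwards [h1] with n hn
  have hpos : (0 : ℝ) < (Λ n).card := by exact_mod_cast hΛ.1 n
  rw [div_lt_div_iff₀ hpos (by positivity)] at hn
  refine (hF' (Λ n)).trans ?_
  have h2 : (0 : ℝ) ≤ ((bad F' (Λ n)).card : ℝ) := Nat.cast_nonneg _
  have h3 : (B.card : ℝ) * ((bad F' (Λ n)).card : ℝ) * ((B.card : ℝ) *
      Real.log (Fintype.card ι)) = ((bad F' (Λ n)).card : ℝ) * K := by rw [hK]; ring
  rw [h3]
  nlinarith

end Pool.PinskerA
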