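import Pool.Agent.PinskerA.LowerA
import Pool.Agent.PinskerA.UpperA
import Pool.Agent.Pinsker.Approx

set_option autoImplicit false
set_option warn.classDefReducibility false

/-!
# Module ZeroTailA: partitions measurable for the remote past have zero entropy

Paper proof of `zero_tailA` (`β : X → κ` is `FM (tail α φ)`; claim `ZeroSeq μ Λ β`).
Let `c` be the infimum of `H(name α B | η) / |B|` over all finite nonempty `B ⊆ ker φ` and all
`η : X → Fin k` that are `FM (spast α φ)` (numbers `≥ 0`, nonempty set: `B = {1}`, `η` constant).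
Let `ε > 0`; choose `B`, `η` with `H(name α B | η) ≤ (c + ε) |B|`.  `name β B` is `FM tail ≤ spast`
(`fm_name`, `tail_comap`, `tail_le_spast`).  By `Pool.Pinsker.approx` (`J = G`, `S = {φ < 0}`) there
is a finite `F ⊆ {φ < 0}` with `H(η | name α F) ≤ ε |B|` and `H(name β B | name α F) ≤ ε |B|` (union
of two finite sets, `cent_cond_factor`).  So `H(name α B | name α F) ≤ (c + 2ε) |B|`
(`cent_triangle`).  With `γ = (α, β)`: `name α F` is a function of `name γ F` and `name γ B` is a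
relabelling of `(name α B, name β B)`, so `H(name γ B | name γ F) ≤ (c + 3ε) |B|`.
`upperA_lim`: for large `n`, `|B| H(name γ (Λ n)) ≤ |Λ n| ((c + 3ε)|B| + ε|B|)`, i.e.
`H(name γ (Λ n)) ≤ |Λ n| (c + 4ε)`.  And `H(name γ Λ) = H(name β Λ) + H(name α Λ | name β Λ)
≥ H(name β Λ) + c |Λ|` (`ent_name_pair`, `ent_pair`, `lowerA`; the hypothesis `hc` of `lowerA` for
empty `B` is `cent_nonneg`).  Hence `0 ≤ H(name β (Λ n)) ≤ 4ε |Λ n|` for large `n`.
`tail_le_pinskerG`: for a set `B` in `tail`, `ZeroSeq` of its indicator gives `ZeroInf` (take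
`F = Λ n` for large `n`), so `B` is a generator.
-/

open MeasureTheory Filter Topology Finset

namespace Pool.PinskerA

open Pool.Pinsker

variable {X : Type*} {m0 : MeasurableSpace X} {μ : Measure X} [IsProbabilityMeasure μ]
variable {G : Type*} [Group G] [MulAction G X] [DecidableEq G]
variable {ι κ : Type*} [Fintype ι] [Fintype κ]

/-- the bound for a fixed `ε` -/
theorem zero_tailA_aux (φ : G → ℝ) (hφ : ∀ a b, φ (a * b) = φ a + φ b)
    (hG : ∀ g : G, MeasurePreserving (fun x : X => g • x) μ μ) (Λ : ℕ → Finset G)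
    (hΛ : Folner Λ) (α : X → ι) (hα : FM m0 α) (β : X → κ) (hβ : FM (tail α φ) β)
    (ε : ℝ) (hε : 0 < ε) :
    ∀ᶠ n : ℕ in atTop, ent μ (name β (Λ n)) ≤ 4 * ε * ((Λ n).card : ℝ) := by
  classical
  have hple : spast α φ ≤ m0 := spast_le hG α hα φ
  have htle : tail α φ ≤ m0 := tail_le hG α hα φ
  have hact : ∀ g : G, FM m0 (fun x => α (g • x)) := fun g => fm_act hG α hα g
  have hnm : ∀ B : Finset G, FM m0 (name α B) := fun B => fm_name α B (fun g _ => hact g)
  set S : Set ℝ := {r | ∃ (B : Finset G) (k : ℕ) (η : X → Fin k), 0 < B.card ∧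
    (∀ b ∈ B, φ b = 0) ∧ FM (spast α φ) η ∧ r = cent μ (name α B) η / (B.card : ℝ)} with hS
  have hSb : BddBelow S := by
    refine ⟨0, ?_⟩
    rintro r ⟨B, k, η, hB, hB0, hη, rfl⟩
    exact div_nonneg (cent_nonneg _ η (hnm B) (fm_mono hple hη)) (Nat.cast_nonneg _)
  have hφ1 : φ 1 = 0 := by
    have := hφ 1 1
    rw [mul_one] at this
    linarith
  have hSn : S.Nonempty := by
    refine ⟨cent μ (name α {1}) (fun _ : X => (0 : Fin 1)) / ((({1} : Finset G).card : ℕ) : ℝ),
      {1}, 1, fun _ => 0, by simp, ?_, ?_, rfl⟩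
    · intro b hb
      rw [Finset.mem_singleton] at hb
      rw [hb, hφ1]
    · intro s
      by_cases h : (0 : Fin 1) ∈ s
      · have : (fun _ : X => (0 : Fin 1)) ⁻¹' s = Set.univ := by
          ext x; simp [h]
        rw [this]; exact @MeasurableSet.univ X (spast α φ)
      · have : (fun _ : X => (0 : Fin 1)) ⁻¹' s = ∅ := by
          ext x; simp [h]
        rw [this]; exact @MeasurableSet.empty X (spast α φ)
  set c : ℝ := sInf S with hc
  have hcle : ∀ (B : Finset G), (∀ b ∈ B, φ b = 0) → ∀ (k : ℕ) (η : X → Fin k),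
      FM (spast α φ) η → c * (B.card : ℝ) ≤ cent μ (name α B) η := by
    intro B hB0 k η hη
    rcases Nat.eq_zero_or_pos B.card with hB | hB
    · rw [hB, Nat.cast_zero, mul_zero]
      exact cent_nonneg _ η (hnm B) (fm_mono hple hη)
    · have h1 : c ≤ cent μ (name α B) η / (B.card : ℝ) :=
        csInf_le hSb ⟨B, k, η, hB, hB0, hη, rfl⟩
      have hBr : (0 : ℝ) < (B.card : ℝ) := by exact_mod_cast hB
      rwa [le_div_iff₀ hBr] at h1
  obtain ⟨r, ⟨B, k, η, hB, hB0, hη, rfl⟩, hr⟩ :=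
    exists_lt_of_csInf_lt hSn (show sInf S < c + ε by linarith)
  have hBr : (0 : ℝ) < (B.card : ℝ) := by exact_mod_cast hB
  rw [div_lt_iff₀ hBr] at hr
  have hη0 : FM m0 η := fm_mono hple hη
  have hβ0 : FM m0 β := fm_mono htle hβ
  have hβt : ∀ A : Finset G, FM (tail α φ) (name β A) := fun A => fm_name β A (fun g _ =>
    fm_measurable_comp hβ (fun x => g • x) (tail_comap α φ hφ g))
  have hβp : FM (spast α φ) (name β B) := fm_mono (tail_le_spast α φ) (hβt B)
  have hεB : 0 < ε * (B.card : ℝ) := mul_pos hε hBr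
  obtain ⟨F₁, hF₁, h₁⟩ := approx (μ := μ) (fun (g : G) (x : X) => α (g • x)) hact
    {g : G | φ g < 0} (name β B) hβp (ε * (B.card : ℝ)) hεB
  obtain ⟨F₂, hF₂, h₂⟩ := approx (μ := μ) (fun (g : G) (x : X) => α (g • x)) hact
    {g : G | φ g < 0} η hη (ε * (B.card : ℝ)) hεB
  change cent μ (name β B) (name α F₁) ≤ ε * (B.card : ℝ) at h₁
  change cent μ η (name α F₂) ≤ ε * (B.card : ℝ) at h₂
  set F : Finset G := F₁ ∪ F₂ with hF
  have hFlt : ∀ f ∈ F, φ f < 0 := by
    intro f hf
    rcases Finset.mem_union.1 hf with h | h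
    · exact hF₁ h
    · exact hF₂ h
  have hnβB : FM m0 (name β B) := fm_mono htle (hβt B)
  have k₁ : cent μ (name β B) (name α F) ≤ ε * (B.card : ℝ) := by
    obtain ⟨e, he⟩ := name_factor (X := X) α F F₁ Finset.subset_union_left
    exact le_trans (cent_cond_factor (name β B) (name α F₁) (name α F) hnβB (hnm F) e he) h₁
  have k₂ : cent μ η (name α F) ≤ ε * (B.card : ℝ) := by
    obtain ⟨e, he⟩ := name_factor (X := X) α F F₂ Finset.subset_union_right
    exact le_trans (cent_cond_factor η (name α F₂) (name α F) hη0 (hnm F) e he) h₂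
  have k₃ : cent μ (name α B) (name α F) ≤ (c + 2 * ε) * (B.card : ℝ) := by
    have := cent_triangle (μ := μ) (name α B) (name α F) η (hnm B) (hnm F) hη0
    nlinarith
  -- the pair
  have hγ : FM m0 (fun x => (α x, β x)) := fm_pair hα hβ0
  have hnγ : FM m0 (name (fun x => (α x, β x)) F) :=
    fm_name _ F (fun g _ => fm_act hG _ hγ g)
  have hnγB : FM m0 (name (fun x => (α x, β x)) B) :=
    fm_name _ B (fun g _ => fm_act hG _ hγ g)
  have k₄ : cent μ (name (fun x => (α x, β x)) B) (name (fun x => (α x, β x)) F) ≤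
      (c + 3 * ε) * (B.card : ℝ) := by
    have e1 : cent μ (name (fun x => (α x, β x)) B) (name (fun x => (α x, β x)) F) ≤
        cent μ (name (fun x => (α x, β x)) B) (name α F) :=
      cent_cond_factor (name (fun x => (α x, β x)) B) (name α F)
        (name (fun x => (α x, β x)) F) hnγB hnγ (fun n g => (n g).1) (fun x => rfl)
    have e2 : cent μ (name (fun x => (α x, β x)) B) (name α F) ≤
        cent μ (fun x => (name α B x, name β B x)) (name α F) :=
      cent_factor (fun x => (name α B x, name β B x)) (name (fun x => (α x, β x)) B)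
        (name α F) (fm_pair (hnm B) hnβB) (hnm F) (fun p g => (p.1 g, p.2 g)) (fun x => rfl)
    have e3 := cent_pair_le (μ := μ) (name α B) (name β B) (name α F) (hnm B) hnβB (hnm F)
    nlinarith
  have k₅ := upperA_lim (μ := μ) φ hφ hG Λ hΛ (fun x => (α x, β x)) hγ B F hB hB0 hFlt
    (ε * (B.card : ℝ)) hεB
  filter_upwards [k₅] with n hn
  have k₆ := lowerA (μ := μ) φ hφ hG α hα c hcle (name β (Λ n)) (hβt (Λ n)) (Λ n)
  have hcard : (0 : ℝ) ≤ ((Λ n).card : ℝ) := Nat.cast_nonneg _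
  have k₇ : (B.card : ℝ) * ent μ (name (fun x => (α x, β x)) (Λ n)) ≤
      (B.card : ℝ) * (((Λ n).card : ℝ) * (c + 4 * ε)) := by
    refine hn.trans ?_
    have h1 : cent μ (name (fun x => (α x, β x)) B) (name (fun x => (α x, β x)) F) +
        ε * (B.card : ℝ) ≤ (c + 4 * ε) * (B.card : ℝ) := by linarith
    have h2 := mul_le_mul_of_nonneg_left h1 hcard
    refine h2.trans (le_of_eq ?_)
    ring
  have k₈ := le_of_mul_le_mul_left k₇ hBr
  rw [ent_name_pair, ent_pair] at k₈
  nlinarith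

theorem zero_tailA (φ : G → ℝ) (hφ : ∀ a b, φ (a * b) = φ a + φ b)
    (hG : ∀ g : G, MeasurePreserving (fun x : X => g • x) μ μ) (Λ : ℕ → Finset G)
    (hΛ : Folner Λ) (α : X → ι) (hα : FM m0 α) (β : X → κ) (hβ : FM (tail α φ) β) :
    ZeroSeq μ Λ β := by
  unfold ZeroSeq
  rw [Metric.tendsto_atTop]
  intro ε hε
  obtain ⟨N, hN⟩ := eventually_atTop.1
    (zero_tailA_aux (μ := μ) φ hφ hG Λ hΛ α hα β hβ (ε / 8) (by positivity))
  refine ⟨N, fun n hn => ?_⟩
  have h := hN n hn
  have hpos : (0 : ℝ) < ((Λ n).card : ℝ) := by exact_mod_cast hΛ.1 n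
  have h0 : 0 ≤ ent μ (name β (Λ n)) / ((Λ n).card : ℝ) :=
    div_nonneg (ent_nonneg _) hpos.le
  rw [Real.dist_eq, sub_zero, abs_of_nonneg h0, div_lt_iff₀ hpos]
  nlinarith

omit [IsProbabilityMeasure μ] in
theorem zeroInf_of_zeroSeq (Λ : ℕ → Finset G) (hΛ : Folner Λ) (β : X → κ)
    (h : ZeroSeq μ Λ β) : ZeroInf μ G β := by
  intro ε hε
  unfold ZeroSeq at h
  obtain ⟨n, hn⟩ := (h.eventually (gt_mem_nhds hε)).exists
  have hpos : (0 : ℝ) < ((Λ n).card : ℝ) := by exact_mod_cast hΛ.1 n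
  refine ⟨Λ n, hΛ.1 n, ?_⟩
  rw [div_lt_iff₀ hpos] at hn
  exact hn.le

theorem tail_le_pinskerG (φ : G → ℝ) (hφ : ∀ a b, φ (a * b) = φ a + φ b)
    (hG : ∀ g : G, MeasurePreserving (fun x : X => g • x) μ μ) (Λ : ℕ → Finset G)
    (hΛ : Folner Λ) (α : X → ι) (hα : FM m0 α) : tail α φ ≤ pinskerG μ G (X := X) := by
  classical
  intro B hB
  refine MeasurableSpace.measurableSet_generateFrom ⟨tail_le hG α hα φ B hB, ?_⟩
  refine zeroInf_of_zeroSeq Λ hΛ (fun x => x ∈ B)
    (zero_tailA φ hφ hG Λ hΛ α hα (fun x => x ∈ B) ?_)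
  intro s
  have : (fun x : X => x ∈ B) ⁻¹' s = (if True ∈ s then B else ∅) ∪ (if False ∈ s then Bᶜ else ∅) := by
    ext x
    by_cases hx : x ∈ B <;> by_cases h1 : True ∈ s <;> by_cases h2 : False ∈ s <;>
      simp [hx, h1, h2]
  rw [this]
  refine @MeasurableSet.union X (tail α φ) _ _ ?_ ?_
  · split_ifs
    · exact hB
    · exact @MeasurableSet.empty X (tail α φ)
  · split_ifs
    · exact @MeasurableSet.compl X _ (tail α φ) hB
    · exact @MeasurableSet.empty X (tail α φ)

end Pool.PinskerA
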