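import Pool.Agent.Pinsker.Free
import Pool.Agent.PinskerA.ZeroTailA
import Pool.Agent.PinskerA.FolNil
import Pool.Agent.PinskerA.InfRule
import Pool.Agent.PinskerA.CharA

set_option autoImplicit false
set_option warn.classDefReducibility false

/-!
# The Pinsker factor is characteristic: nilpotent groups, one height
-/

open MeasureTheory Filter Topology
open scoped ENNReal

namespace Pool.PinskerA

open Pool.Pinsker

/-- the σ-algebra generated by the measurable sets of zero entropy -/
def pinskerAlgG {X : Type*} [MeasurableSpace X] (μ : Measure X)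
    (G : Subgroup (Equiv.Perm X)) : MeasurableSpace X :=
  MeasurableSpace.generateFrom {B | MeasurableSet B ∧ ZeroEntropyG μ G B}

variable {X : Type} [MeasurableSpace X]

instance countable_closure {d : ℕ} (T : Fin d → Equiv.Perm X) :
    Countable (Subgroup.closure (Set.range T)) := by
  have h1 : Function.Surjective (FreeGroup.lift T).rangeRestrict :=
    MonoidHom.rangeRestrict_surjective _
  have h2 : (FreeGroup.lift T).range = Subgroup.closure (Set.range T) := by
    rw [FreeGroup.range_lift_eq_closure]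
  rw [← h2]
  have : Countable (FreeGroup (Fin d)) := by
    unfold FreeGroup
    infer_instance
  exact h1.countable

omit [MeasurableSpace X] in
lemma height {H : Type*} [Group H] (φ : H → ℝ) (hφ : ∀ a b, φ (a * b) = φ a + φ b) {d : ℕ}
    (S : Fin d → H) (k : Fin d → ℤ) :
    φ (List.ofFn fun i => S i ^ k i).prod = ∑ i, (k i : ℝ) * φ (S i) := by
  set Φ : H →* Multiplicative ℝ := MonoidHom.mk' (fun g => Multiplicative.ofAdd (φ g))
    (fun g h => by rw [hφ]; rfl) with hΦ
  have h1 : ∀ g, φ g = Multiplicative.toAdd (Φ g) := fun g => rfl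
  rw [h1, map_list_prod, List.map_ofFn, List.prod_ofFn, toAdd_prod]
  apply Finset.sum_congr rfl
  intro i _
  rw [Function.comp_apply, map_zpow, toAdd_zpow, ← h1, zsmul_eq_mul]

lemma preserving {d : ℕ} (μ : Measure X) (T : Fin d → Equiv.Perm X)
    (hT' : ∀ i, Measurable ⇑(T i).symm) (hT : ∀ i, MeasurePreserving (⇑(T i)) μ μ)
    (S : Equiv.Perm X) (hS : S ∈ Subgroup.closure (Set.range T)) :
    MeasurePreserving ⇑S μ μ ∧ MeasurePreserving ⇑S.symm μ μ := by
  induction hS using Subgroup.closure_induction with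
  | mem S h =>
    obtain ⟨i, rfl⟩ := h
    exact ⟨hT i, MeasurePreserving.symm ⟨T i, (hT i).measurable, hT' i⟩ (hT i)⟩
  | one => exact ⟨MeasurePreserving.id μ, MeasurePreserving.id μ⟩
  | mul a b _ _ ha hb => exact ⟨ha.1.comp hb.1, hb.2.comp ha.2⟩
  | inv a _ ha => exact ⟨ha.2, ha.1⟩

theorem zeroInf_iff {G : Subgroup (Equiv.Perm X)} [DecidableEq G] (μ : Measure X)
    (B : Set X) : ZeroInf μ G (fun x => x ∈ B) ↔ ZeroEntropyG μ G B := by
  unfold ZeroInf ZeroEntropyG
  simp only [ent_name_set]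
  rfl

theorem pinsker_eq {G : Subgroup (Equiv.Perm X)} [DecidableEq G] (μ : Measure X) :
    pinskerG μ G (X := X) = pinskerAlgG μ G := by
  unfold pinskerG pinskerAlgG
  congr 1
  ext B
  exact and_congr_right fun _ => zeroInf_iff μ B

/-- the nilpotent case for one height -/
theorem nilp (X : Type) [MeasurableSpace X] (μ : Measure X) [IsProbabilityMeasure μ]
    (d m : ℕ) (T : Fin d → Equiv.Perm X) (hT' : ∀ i, Measurable ⇑(T i).symm)
    (hT : ∀ i, MeasurePreserving (⇑(T i)) μ μ)
    (hnil : Group.IsNilpotent (Subgroup.closure (Set.range T)))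
    (φ : Subgroup.closure (Set.range T) → ℝ) (hφ : ∀ a b, φ (a * b) = φ a + φ b)
    (P : Fin d → Fin m → Polynomial ℤ) (hP0 : ∀ i j, (P i j).eval 0 = 0)
    (g : Fin m → ℤ → Subgroup.closure (Set.range T))
    (hg : ∀ j n, (g j n : Equiv.Perm X) = (List.ofFn fun i => T i ^ (P i j).eval n).prod)
    (h1 : ∀ j, ∃ n, φ (g j n) ≠ 0) (h2 : ∀ i j, i ≠ j → ∃ n, φ (g i n) ≠ φ (g j n))
    (hmax : ∀ j, MaxProp μ (fun n x => (List.ofFn fun i => T i ^ (P i j).eval n).prod x))
    (f : Fin m → X → ℂ) (hf : ∀ j, MemLp (f j) ∞ μ) :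
    (∀ B : Set X, MeasurableSet[pinskerAlgG μ (Subgroup.closure (Set.range T))] B ↔
      (MeasurableSet B ∧ ZeroEntropyG μ (Subgroup.closure (Set.range T)) B)) ∧
    (∀ᵐ x ∂μ, Tendsto (fun N : ℕ => (2 * (N : ℂ) + 1)⁻¹ *
      ∑ n ∈ Finset.Icc (-(N : ℤ)) N,
        (∏ j, f j ((List.ofFn fun i => T i ^ (P i j).eval n).prod x) -
          ∏ j, (μ[f j|pinskerAlgG μ (Subgroup.closure (Set.range T))])
            ((List.ofFn fun i => T i ^ (P i j).eval n).prod x))) atTop (𝓝 0)) ∧
    ((∀ B : Set X, MeasurableSet B → ZeroEntropyG μ (Subgroup.closure (Set.range T)) B →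
        μ B = 0 ∨ μ B = 1) →
      ∀ᵐ x ∂μ, Tendsto (fun N : ℕ => (2 * (N : ℂ) + 1)⁻¹ *
        ∑ n ∈ Finset.Icc (-(N : ℤ)) N,
          ∏ j, f j ((List.ofFn fun i => T i ^ (P i j).eval n).prod x)) atTop
        (𝓝 (∏ j, ∫ x, f j x ∂μ))) := by
  classical
  have hG : ∀ g : Subgroup.closure (Set.range T),
      MeasurePreserving (fun x : X => g • x) μ μ :=
    fun g => (preserving μ T hT' hT g g.2).1
  obtain ⟨Λ, hΛ⟩ := exists_folner _ (fol_nilpotent (Subgroup.closure (Set.range T)))
  have hφ1 : φ 1 = 0 := by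
    have := hφ 1 1
    rw [mul_one] at this
    linarith
  set p : Fin m → Polynomial ℝ := fun j => ∑ i, Polynomial.C (φ ⟨T i,
    Subgroup.subset_closure (Set.mem_range_self i)⟩) * (P i j).map (Int.castRingHom ℝ) with hp
  have hpn : ∀ j (n : ℤ), φ (g j n) = (p j).eval (n : ℝ) := by
    intro j n
    have e1 : g j n = (List.ofFn fun i => (⟨T i,
        Subgroup.subset_closure (Set.mem_range_self i)⟩ : Subgroup.closure (Set.range T)) ^
          (P i j).eval n).prod := by
      apply Subtype.ext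
      rw [hg]
      have h3 := map_list_prod (Subgroup.closure (Set.range T)).subtype
        (List.ofFn fun i => (⟨T i,
        Subgroup.subset_closure (Set.mem_range_self i)⟩ : Subgroup.closure (Set.range T)) ^
          (P i j).eval n)
      rw [List.map_ofFn] at h3
      exact h3.symm
    rw [e1, height φ hφ, hp]
    simp only
    rw [Polynomial.eval_finsetSum]
    apply Finset.sum_congr rfl
    intro i _
    rw [Polynomial.eval_mul, Polynomial.eval_C, mul_comm]
    congr 1
    exact (Polynomial.eval_intCast_map (Int.castRingHom ℝ) (P i j) n).symm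
  have hg0 : ∀ j, φ (g j 0) = 0 := by
    intro j
    have e1 : g j 0 = 1 := by
      apply Subtype.ext
      rw [hg]
      simp [hP0]
    rw [e1, hφ1]
  have hmax' : ∀ j, MaxProp μ (fun n x => g j n • x) := by
    intro j
    have e : (fun (n : ℤ) (x : X) => g j n • x) =
        fun n x => (List.ofFn fun i => T i ^ (P i j).eval n).prod x := by
      funext n x
      rw [← hg]
      rfl
    rw [e]
    exact hmax j
  have htail : ∀ (a b : ℕ) (α : X → (Fin a → Fin b)), FM _ α →
      tail α φ ≤ pinskerG μ (Subgroup.closure (Set.range T)) (X := X) :=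
    fun a b α hα => tail_le_pinskerG φ hφ hG Λ hΛ α hα
  have hq1 : ∀ j, ∃ a b : ℝ, (p j).eval a ≠ (p j).eval b := by
    intro j
    obtain ⟨n, hn⟩ := h1 j
    refine ⟨n, (0 : ℤ), ?_⟩
    rw [← hpn, ← hpn, hg0]
    exact hn
  have hq2 : ∀ i j, i ≠ j → ∃ a b : ℝ, (p j - p i).eval a ≠ (p j - p i).eval b := by
    intro i j hij
    obtain ⟨n, hn⟩ := h2 i j hij
    refine ⟨n, (0 : ℤ), ?_⟩
    rw [Polynomial.eval_sub, Polynomial.eval_sub, ← hpn, ← hpn, ← hpn, ← hpn, hg0, hg0, sub_self]
    exact fun h => hn (sub_eq_zero.1 h).symm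
  have hset := measurableSet_pinskerG_iff (μ := μ) hG Λ hΛ
  have c1 := charA hG φ hφ _ pinskerG_le htail g p hpn hq1 hq2 hmax' f hf
  have c2 := charA_trivial hG φ hφ _ pinskerG_le htail g p hpn hq1 hq2 hmax' f hf
  have hgx : ∀ j (n : ℤ) (x : X), g j n • x =
      (List.ofFn fun i => T i ^ (P i j).eval n).prod x := by
    intro j n x
    rw [← hg]
    rfl
  simp only [hgx] at c1 c2
  rw [← pinsker_eq μ]
  refine ⟨fun B => ?_, c1, fun htriv => c2 fun B hB => ?_⟩
  · rw [hset B, zeroInf_iff μ B]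
  · have h3 := (hset B).1 hB
    exact htriv B h3.1 ((zeroInf_iff μ B).1 h3.2)


omit [MeasurableSpace X] in
/-- finitely many elements that can be seen by homomorphisms to `ℝ` can be seen by one -/
theorem generic {H ι : Type*} [Group H] (a : ι → H) (s : Finset ι)
    (ha : ∀ i ∈ s, ∃ φ : H →* Multiplicative ℝ, φ (a i) ≠ 1) :
    ∃ φ : H →* Multiplicative ℝ, ∀ i ∈ s, φ (a i) ≠ 1 := by
  classical
  induction s using Finset.induction_on with
  | empty => exact ⟨1, by simp⟩
  | insert i s hi ih =>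
    obtain ⟨φ, hφ⟩ := ih fun j hj => ha j (Finset.mem_insert_of_mem hj)
    obtain ⟨ψ, hψ⟩ := ha i (Finset.mem_insert_self i s)
    set u : H → ℝ := fun x => Multiplicative.toAdd (φ x) with hu
    set v : H → ℝ := fun x => Multiplicative.toAdd (ψ x) with hv
    obtain ⟨t, ht⟩ := Infinite.exists_notMem_finset
      ((insert i s).image fun j => -u (a j) / v (a j))
    refine ⟨MonoidHom.mk' (fun x => Multiplicative.ofAdd (u x + t * v x)) ?_, ?_⟩
    · intro x y
      rw [← ofAdd_add]
      congr 1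
      simp only [hu, hv, map_mul, toAdd_mul]
      ring
    · intro j hj h0
      have h1 : u (a j) + t * v (a j) = 0 := h0
      by_cases hvj : v (a j) = 0
      · rw [hvj, mul_zero, add_zero] at h1
        rcases Finset.mem_insert.1 hj with rfl | hj
        · exact hψ hvj
        · exact hφ j hj h1
      · apply ht
        rw [Finset.mem_image]
        refine ⟨j, hj, ?_⟩
        rw [div_eq_iff hvj]
        linarith

end Pool.PinskerA
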