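import Pool.Agent.PinskerA.Defs

set_option autoImplicit false
set_option warn.classDefReducibility false

/-!
# Module Shearer: Shearer's inequality for conditional entropy

Paper proof of `shearer`: induction on `A`.  For `A = ∅` the left side is `k · 0`
(`cent_self`-like: the map into `(∅ → ι)` is constant) and the right side is `≥ 0`.  Let
`A = insert a A'`, `a ∉ A'`.  Write `H(A) = H((f_j)_{j∈A} | ζ)`.  Then
`H(A) = H(A') + h`, `h = H(f_a | (f_j)_{j∈A'}, ζ)` (relabelling + `cent_chain`, as in
`cent_name_insert`), and for `s ∈ I` with `a ∈ S s`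
`H(S s ∩ A) = H(S s ∩ A') + H(f_a | (f_j)_{j ∈ S s ∩ A'}, ζ) ≥ H(S s ∩ A') + h` (`cent_cond_factor`),
while for `a ∉ S s`, `S s ∩ A = S s ∩ A'`.  Summing over `s ∈ I`, with the induction hypothesis for
`A'` (all elements of `A'` are covered `≥ k` times) and `#{s ∈ I : a ∈ S s} ≥ k`, `h ≥ 0`:
`Σ_s H(S s ∩ A) ≥ k H(A') + k h = k H(A)`.
`shearer_name` is the special case `J = G`, `f g x = α (g • x)`.
-/

open MeasureTheory Filter Topology Finset

namespace Pool.PinskerA

open Pool.Pinsker

variable {X : Type*} {m0 : MeasurableSpace X} {μ : Measure X} [IsProbabilityMeasure μ]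

theorem cent_pi_insert {J ι κ : Type*} [DecidableEq J] [Fintype ι] [Fintype κ] (f : J → X → ι)
    (ζ : X → κ) (a : J) (B : Finset J) :
    cent μ (fun x => fun j : (insert a B : Finset J) => f j x) ζ =
      cent μ (fun x => fun j : B => f j x) ζ +
        cent μ (f a) (fun x => ((fun j : B => f j x), ζ x)) := by
  rw [← cent_chain]
  let e : (↥(insert a B) → ι) → ι × (B → ι) :=
    fun n => (n ⟨a, mem_insert_self a B⟩, fun h => n ⟨h.1, mem_insert_of_mem h.2⟩)
  have he : Function.Injective e := by
    intro n n' hn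
    have h1 : n ⟨a, mem_insert_self a B⟩ = n' ⟨a, mem_insert_self a B⟩ := congrArg Prod.fst hn
    have h2 : (fun h : B => n ⟨h.1, mem_insert_of_mem h.2⟩) =
        fun h : B => n' ⟨h.1, mem_insert_of_mem h.2⟩ := congrArg Prod.snd hn
    funext ⟨k, hk⟩
    rcases mem_insert.1 hk with rfl | hk'
    · exact h1
    · exact congrFun h2 ⟨k, hk'⟩
  rw [← cent_comp_inj_left (fun x => fun j : (insert a B : Finset J) => f j x) ζ e he]

theorem shearer {J σ ι κ : Type*} [DecidableEq J] [Fintype ι] [Fintype κ] (f : J → X → ι)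
    (hf : ∀ j, FM m0 (f j)) (ζ : X → κ) (hζ : FM m0 ζ) (k : ℕ) (I : Finset σ)
    (S : σ → Finset J) (A : Finset J) (hcov : ∀ a ∈ A, k ≤ (I.filter fun s => a ∈ S s).card) :
    (k : ℝ) * cent μ (fun x => fun j : A => f j x) ζ ≤
      ∑ s ∈ I, cent μ (fun x => fun j : (S s ∩ A : Finset J) => f j x) ζ := by
  have hfB : ∀ B : Finset J, FM m0 (fun x => fun j : B => f j x) := fun B =>
    fm_pi (J := B) (f := fun j x => f j x) (fun j => hf j.1)
  induction A using Finset.induction_on with
  | empty =>
    have h0 : cent μ (fun x => fun j : (∅ : Finset J) => f j x) ζ = 0 :=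
      cent_self _ ζ (fun _ => fun j => absurd j.2 (Finset.notMem_empty _)) (fun x => by
        funext j
        exact absurd j.2 (Finset.notMem_empty _))
    rw [h0, mul_zero]
    exact Finset.sum_nonneg fun s _ => cent_nonneg _ ζ (hfB _) hζ
  | insert a A' ha ih =>
    have ih' := ih (fun b hb => hcov b (mem_insert_of_mem hb))
    have hcard := hcov a (mem_insert_self a A')
    set h : ℝ := cent μ (f a) (fun x => ((fun j : A' => f j x), ζ x)) with hh
    have hh0 : 0 ≤ h := cent_nonneg _ _ (hf a) (fm_pair (hfB A') hζ)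
    have hterm : ∀ s ∈ I, cent μ (fun x => fun j : (S s ∩ A' : Finset J) => f j x) ζ +
        (if a ∈ S s then h else 0) ≤
        cent μ (fun x => fun j : (S s ∩ insert a A' : Finset J) => f j x) ζ := by
      intro s _
      by_cases hs : a ∈ S s
      · rw [if_pos hs]
        have e1 : S s ∩ insert a A' = insert a (S s ∩ A') := Finset.inter_insert_of_mem hs
        rw [e1, cent_pi_insert f ζ a (S s ∩ A')]
        have h2 : h ≤ cent μ (f a) (fun x => ((fun j : (S s ∩ A' : Finset J) => f j x), ζ x)) :=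
          cent_cond_factor (f a) (fun x => ((fun j : (S s ∩ A' : Finset J) => f j x), ζ x))
            (fun x => ((fun j : A' => f j x), ζ x)) (hf a) (fm_pair (hfB A') hζ)
            (fun p => ((fun j => p.1 ⟨j.1, (Finset.mem_inter.1 j.2).2⟩), p.2)) (fun x => rfl)
        linarith
      · rw [if_neg hs, add_zero]
        have e1 : S s ∩ insert a A' = S s ∩ A' := Finset.inter_insert_of_notMem hs
        rw [e1]
    have hsum := Finset.sum_le_sum hterm
    rw [Finset.sum_add_distrib, ← Finset.sum_filter, Finset.sum_const, nsmul_eq_mul] at hsum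
    rw [cent_pi_insert f ζ a A']
    have h3 : (k : ℝ) * h ≤ ((I.filter fun s => a ∈ S s).card : ℝ) * h :=
      mul_le_mul_of_nonneg_right (by exact_mod_cast hcard) hh0
    rw [mul_add]
    linarith

theorem shearer_name {G σ ι κ : Type*} [Group G] [MulAction G X] [DecidableEq G] [Fintype ι]
    [Fintype κ] (hG : ∀ g : G, MeasurePreserving (fun x : X => g • x) μ μ) (α : X → ι)
    (hα : FM m0 α) (ζ : X → κ) (hζ : FM m0 ζ) (k : ℕ) (I : Finset σ)
    (S : σ → Finset G) (A : Finset G) (hcov : ∀ a ∈ A, k ≤ (I.filter fun s => a ∈ S s).card) :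
    (k : ℝ) * cent μ (name α A) ζ ≤ ∑ s ∈ I, cent μ (name α (S s ∩ A)) ζ :=
  shearer (fun g x => α (g • x)) (fun g => fm_act hG α hα g) ζ hζ k I S A hcov

end Pool.PinskerA
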